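import Pool.Agent.MP_a56558_gt.F.FDefs

set_option autoImplicit false

namespace Pool.Agent.MP_a56558_gt

open Set Filter Topology

section RowA1

open Set Filter Topology

variable {X : Type*} [MetricSpace X] {G : Type*} [Group G] {β : Type*}

/-- [A1] -/
theorem LocC.const {K : Set X} {g : X → β} (hg : LocC K g) (hK : IsPreconnected K) :
    ∀ x ∈ K, ∀ y ∈ K, g x = g y := by
  obtain ⟨η, hη, h⟩ := hg
  intro x hx y hy
  have hc := chainConn_of_isPreconnected hK hη x hx y hy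
  have key : ∀ a b : X, Relation.ReflTransGen (fun x y => x ∈ K ∧ y ∈ K ∧ dist x y < η) a b →
      g a = g b := by
    intro a b hab
    induction hab with
    | refl => rfl
    | tail _ hbc ih => exact ih.trans (h _ hbc.1 _ hbc.2.1 hbc.2.2)
  exact key x y hc

/-- [A1] -/
theorem LocC.finite_image [CompactSpace X] {K : Set X} {g : X → β} (hg : LocC K g)
    (hK : IsClosed K) : (g '' K).Finite := by
  obtain ⟨η, hη, h⟩ := hg
  obtain ⟨t, htK, htf, hcov⟩ := hK.isCompact.finite_cover_balls hη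
  refine (htf.image g).subset ?_
  rintro _ ⟨x, hx, rfl⟩
  have hx' := hcov hx
  simp only [mem_iUnion, Metric.mem_ball] at hx'
  obtain ⟨y, hy, hxy⟩ := hx'
  exact ⟨y, hy, (h x hx y (htK hy) hxy).symm⟩

end RowA1

section RowA2

open Set Filter Topology

variable {X : Type*} [MetricSpace X]

/-- [A2] upper semicontinuity of fibres -/
theorem close_fibre [CompactSpace X] {Y : Type*} [MetricSpace Y] {f : X → Y} (hf : Continuous f)
    {A : Set X} (hA : IsClosed A) (y : Y) {η : ℝ} (hη : 0 < η) :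
    ∃ δ : ℝ, 0 < δ ∧ ∀ x' ∈ A, dist y (f x') < δ → ∃ x ∈ A, f x = y ∧ dist x x' < η := by
  by_contra hcon
  push Not at hcon
  have h1 : ∀ n : ℕ, ∃ x' ∈ A, dist y (f x') < 1 / ((n : ℝ) + 1) ∧
      ∀ x ∈ A, f x = y → η ≤ dist x x' := by
    intro n
    exact hcon (1 / ((n : ℝ) + 1)) (by positivity)
  choose u huA hud hun using h1
  obtain ⟨x, hx, φ, hφ, hlim⟩ := hA.isCompact.tendsto_subseq huA
  have hfx : f x = y := by
    have ht1 : Tendsto (fun n => dist y (f (u (φ n)))) atTop (𝓝 (dist y (f x))) :=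
      tendsto_const_nhds.dist ((hf.tendsto x).comp hlim)
    have ht2 : Tendsto (fun n : ℕ => 1 / (((φ n : ℕ) : ℝ) + 1)) atTop (𝓝 0) :=
      tendsto_one_div_add_atTop_nhds_zero_nat.comp hφ.tendsto_atTop
    have h3 : dist y (f x) ≤ 0 := le_of_tendsto_of_tendsto' ht1 ht2 (fun n => (hud (φ n)).le)
    exact (dist_le_zero.1 h3).symm
  have ht : Tendsto (fun n => dist x (u (φ n))) atTop (𝓝 (dist x x)) :=
    tendsto_const_nhds.dist hlim
  rw [dist_self] at ht
  obtain ⟨n, hn⟩ := (ht.eventually (gt_mem_nhds hη)).exists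
  exact absurd hn (not_lt.2 (hun (φ n) x hx hfx))

/-- [A2] -/
theorem near_both [CompactSpace X] {C₁ C₂ : Set X} (h1 : IsClosed C₁) (h2 : IsClosed C₂) {η : ℝ}
    (hη : 0 < η) :
    ∃ δ : ℝ, 0 < δ ∧ ∀ x ∈ C₁, ∀ y ∈ C₂, dist x y < δ →
      ∃ z ∈ C₁ ∩ C₂, dist x z < η ∧ dist y z < η := by
  by_contra hcon
  push Not at hcon
  have h3 : ∀ n : ℕ, ∃ x ∈ C₁, ∃ y ∈ C₂, dist x y < 1 / ((n : ℝ) + 1) ∧
      ∀ z ∈ C₁ ∩ C₂, dist x z < η → η ≤ dist y z := by
    intro n
    exact hcon (1 / ((n : ℝ) + 1)) (by positivity)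
  choose u hu v hv huv hn using h3
  obtain ⟨z, hz, φ, hφ, hlim⟩ := h1.isCompact.tendsto_subseq hu
  have ht2 : Tendsto (fun n : ℕ => 1 / (((φ n : ℕ) : ℝ) + 1)) atTop (𝓝 0) :=
    tendsto_one_div_add_atTop_nhds_zero_nat.comp hφ.tendsto_atTop
  have hd : Tendsto (fun n => dist (u (φ n)) (v (φ n))) atTop (𝓝 0) :=
    squeeze_zero (fun n => dist_nonneg) (fun n => (huv (φ n)).le) ht2
  have hlim2 : Tendsto (fun n => v (φ n)) atTop (𝓝 z) := by
    rw [tendsto_iff_dist_tendsto_zero] at hlim ⊢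
    have h4 : Tendsto (fun n => dist (u (φ n)) (v (φ n)) + dist (u (φ n)) z) atTop (𝓝 (0 + 0)) :=
      hd.add hlim
    rw [add_zero] at h4
    refine squeeze_zero (fun n => dist_nonneg) (fun n => ?_) h4
    calc dist (v (φ n)) z ≤ dist (v (φ n)) (u (φ n)) + dist (u (φ n)) z := dist_triangle _ _ _
      _ = _ := by rw [dist_comm (v (φ n))]
  have hz2 : z ∈ C₂ := h2.mem_of_tendsto hlim2 (Eventually.of_forall fun n => hv (φ n))
  have e1 : ∀ᶠ n in atTop, dist (u (φ n)) z < η := by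
    have := (tendsto_iff_dist_tendsto_zero.1 hlim).eventually (gt_mem_nhds hη)
    exact this
  have e2 : ∀ᶠ n in atTop, dist (v (φ n)) z < η := by
    have := (tendsto_iff_dist_tendsto_zero.1 hlim2).eventually (gt_mem_nhds hη)
    exact this
  obtain ⟨n, hn1, hn2⟩ := (e1.and e2).exists
  exact absurd hn2 (not_lt.2 (hn (φ n) z ⟨hz, hz2⟩ hn1))

end RowA2

section RowA3

open Set Filter Topology

variable {X : Type*} [MetricSpace X] {G : Type*} [Group G] {β : Type*}

/-- [A3] -/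
theorem LocC.union [CompactSpace X] {C₁ C₂ : Set X} (h1 : IsClosed C₁) (h2 : IsClosed C₂)
    {g : X → β} (hg1 : LocC C₁ g) (hg2 : LocC C₂ g) : LocC (C₁ ∪ C₂) g := by
  obtain ⟨η₁, hη₁, k1⟩ := hg1
  obtain ⟨η₂, hη₂, k2⟩ := hg2
  obtain ⟨δ, hδ, hn⟩ := near_both h1 h2 (lt_min hη₁ hη₂)
  have key : ∀ x ∈ C₁, ∀ y ∈ C₂, dist x y < δ → g x = g y := by
    intro x hx y hy hxy
    obtain ⟨z, hz, hxz, hyz⟩ := hn x hx y hy hxy
    have e1 := k1 x hx z hz.1 (hxz.trans_le (min_le_left _ _))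
    have e2 := k2 y hy z hz.2 (hyz.trans_le (min_le_right _ _))
    rw [e1, e2]
  refine ⟨min δ (min η₁ η₂), lt_min hδ (lt_min hη₁ hη₂), ?_⟩
  intro x hx y hy hxy
  have d0 : dist x y < δ := hxy.trans_le (min_le_left _ _)
  have d1 : dist x y < η₁ := hxy.trans_le ((min_le_right _ _).trans (min_le_left _ _))
  have d2 : dist x y < η₂ := hxy.trans_le ((min_le_right _ _).trans (min_le_right _ _))
  rcases hx with hx | hx
  · rcases hy with hy | hy
    · exact k1 x hx y hy d1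
    · exact key x hx y hy d0
  · rcases hy with hy | hy
    · exact (key y hy x hx (by rw [dist_comm]; exact d0)).symm
    · exact k2 x hx y hy d2

/-- [A3] -/
theorem trivBy_glue [CompactSpace X] {C₁ C₂ : Set X} (h1 : IsClosed C₁) (h2 : IsClosed C₂)
    {ε : ℝ} (hε : 0 < ε) {T : X → X → G} (hT : Coc ε (C₁ ∪ C₂) T) {η : ℝ} (hη : 0 < η)
    {h : X → G} (ht1 : TrivBy η C₁ h T) (ht2 : TrivBy η C₂ h T) :
    ∃ η' : ℝ, 0 < η' ∧ TrivBy η' (C₁ ∪ C₂) h T := by
  have key : ∀ D₁ D₂ : Set X, IsClosed D₁ → IsClosed D₂ → D₁ ⊆ C₁ ∪ C₂ → D₂ ⊆ C₁ ∪ C₂ →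
      TrivBy η D₁ h T → TrivBy η D₂ h T →
      ∃ δ : ℝ, 0 < δ ∧ ∀ x ∈ D₁, ∀ y ∈ D₂, dist x y < δ → dist x y < ε → h x * T x y = h y := by
    intro D₁ D₂ c1 c2 s1 s2 t1 t2
    obtain ⟨δ, hδ, hn⟩ := near_both c1 c2 (lt_min hη hε)
    refine ⟨δ, hδ, fun x hx y hy hxy hxy' => ?_⟩
    obtain ⟨z, hz, hxz, hyz⟩ := hn x hx y hy hxy
    have hzy : dist z y < min η ε := by rw [dist_comm]; exact hyz
    have e1 := t1 x hx z hz.1 (hxz.trans_le (min_le_left _ _))
    have e2 := t2 z hz.2 y hy (hzy.trans_le (min_le_left _ _))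
    have e3 := hT x (s1 hx) z (s1 hz.1) y (s2 hy) (hxz.trans_le (min_le_right _ _))
      (hzy.trans_le (min_le_right _ _)) hxy'
    rw [← e3, ← mul_assoc, e1, e2]
  obtain ⟨δ₁, hδ₁, k1⟩ := key C₁ C₂ h1 h2 subset_union_left subset_union_right ht1 ht2
  obtain ⟨δ₂, hδ₂, k2⟩ := key C₂ C₁ h2 h1 subset_union_right subset_union_left ht2 ht1
  refine ⟨min (min δ₁ δ₂) (min η ε), lt_min (lt_min hδ₁ hδ₂) (lt_min hη hε), ?_⟩
  intro x hx y hy hxy
  have d1 : dist x y < δ₁ := hxy.trans_le ((min_le_left _ _).trans (min_le_left _ _))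
  have d2 : dist x y < δ₂ := hxy.trans_le ((min_le_left _ _).trans (min_le_right _ _))
  have d3 : dist x y < η := hxy.trans_le ((min_le_right _ _).trans (min_le_left _ _))
  have d4 : dist x y < ε := hxy.trans_le ((min_le_right _ _).trans (min_le_right _ _))
  rcases hx with hx | hx
  · rcases hy with hy | hy
    · exact ht1 x hx y hy d3
    · exact k1 x hx y hy d1 d4
  · rcases hy with hy | hy
    · exact k2 x hx y hy d2 d4
    · exact ht2 x hx y hy d3

end RowA3

section RowA4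

open Set Filter Topology

variable {X : Type*} [MetricSpace X] {G : Type*} [Group G] {β : Type*}

theorem triv_extend {ε : ℝ} (hε : 0 < ε) {K C : Set X} (hCK : C ⊆ K) {T : X → X → G}
    (hT : Coc ε K T) (hC : Triv C T) :
    ∃ ρ : ℝ, 0 < ρ ∧ Triv (K ∩ Metric.thickening ρ C) T := by
  classical
  obtain ⟨η, hη, h, hh⟩ := hC
  set ρ : ℝ := min ε η / 4 with hρ
  have hm : 0 < min ε η := lt_min hε hη
  have hρ0 : 0 < ρ := by positivity
  have hρε : 4 * ρ ≤ ε := by
    rw [hρ]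
    have := min_le_left ε η
    linarith
  have hρη : 4 * ρ ≤ η := by
    rw [hρ]
    have := min_le_right ε η
    linarith
  refine ⟨ρ, hρ0, ?_⟩
  have hex : ∀ y : X, ∃ z : X, y ∈ Metric.thickening ρ C → z ∈ C ∧ dist y z < ρ := by
    intro y
    by_cases hy : y ∈ Metric.thickening ρ C
    · obtain ⟨z, hz, hyz⟩ := Metric.mem_thickening_iff.1 hy
      exact ⟨z, fun _ => ⟨hz, hyz⟩⟩
    · exact ⟨y, fun h => absurd h hy⟩
  choose φ hφ using hex
  refine ⟨ρ, hρ0, fun y => h (φ y) * T (φ y) y, ?_⟩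
  rintro y ⟨hyK, hyC⟩ y' ⟨hyK', hyC'⟩ hd
  obtain ⟨hz, hyz⟩ := hφ y hyC
  obtain ⟨hz', hyz'⟩ := hφ y' hyC'
  have hzK := hCK hz
  have hzK' := hCK hz'
  have e1 : dist (φ y) y < ρ := by rwa [dist_comm]
  have e1' : dist (φ y') y' < ρ := by rwa [dist_comm]
  have e2 : dist (φ y) y' < 2 * ρ := by
    have := dist_triangle (φ y) y y'
    linarith
  have e3 : dist (φ y) (φ y') < 3 * ρ := by
    have := dist_triangle (φ y) y' (φ y')
    linarith
  show h (φ y) * T (φ y) y * T y y' = h (φ y') * T (φ y') y'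
  rw [mul_assoc, hT (φ y) hzK y hyK y' hyK' (by linarith) (by linarith) (by linarith),
    ← hh (φ y) hz (φ y') hz' (by linarith), mul_assoc,
    hT (φ y) hzK (φ y') hzK' y' hyK' (by linarith) (by linarith) (by linarith)]

end RowA4

section RowA5

open Set Filter Topology

variable {X : Type*} [MetricSpace X] {G : Type*} [Group G] {β : Type*}

theorem a5_empty (T : X → X → G) : Triv (∅ : Set X) T :=
  ⟨1, one_pos, fun _ => 1, fun x hx => absurd hx (Set.notMem_empty x)⟩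

theorem exists_min_nontriv [CompactSpace X] {ε : ℝ} (hε : 0 < ε) {K : Set X} (hK : IsClosed K)
    {T : X → X → G} (hT : Coc ε K T) (hn : ¬ Triv K T) :
    ∃ D ⊆ K, Ctm D ∧ ¬ Triv D T ∧ ∀ D' ⊆ D, IsClosed D' → D' ≠ D → Triv D' T := by
  classical
  obtain ⟨D, hDK, hD⟩ := zorn_superset_nonempty {D : Set X | D ⊆ K ∧ IsClosed D ∧ ¬ Triv D T}
    (by
      intro c hc hchain hne
      obtain ⟨D₀, hD₀⟩ := hne
      refine ⟨⋂₀ c, ⟨?_, ?_, ?_⟩, fun s hs => Set.sInter_subset_of_mem hs⟩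
      · exact (Set.sInter_subset_of_mem hD₀).trans (hc hD₀).1
      · exact isClosed_sInter fun s hs => (hc hs).2.1
      · intro htriv
        have hsub : ⋂₀ c ⊆ K := (Set.sInter_subset_of_mem hD₀).trans (hc hD₀).1
        obtain ⟨ρ, hρ, hρt⟩ := triv_extend hε hsub hT htriv
        haveI : Nonempty c := ⟨⟨D₀, hD₀⟩⟩
        have hdir : Directed (· ⊇ ·) (fun i : c => (i : Set X)) := by
          rintro ⟨a, ha⟩ ⟨b, hb⟩
          rcases hchain.total ha hb with h | h
          · exact ⟨⟨a, ha⟩, subset_rfl, h⟩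
          · exact ⟨⟨b, hb⟩, h, subset_rfl⟩
        obtain ⟨⟨D₁, hD₁⟩, hD₁U⟩ := exists_subset_nhds_of_isCompact'
          (V := fun i : c => (i : Set X)) hdir (fun i => (hc i.2).2.1.isCompact)
          (fun i => (hc i.2).2.1) (U := Metric.thickening ρ (⋂₀ c)) (by
            intro x hx
            rw [← Set.sInter_eq_iInter] at hx
            exact Metric.isOpen_thickening.mem_nhds (Metric.self_subset_thickening hρ _ hx))
        exact (hc hD₁).2.2 (hρt.mono (Set.subset_inter (hc hD₁).1 hD₁U)))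
    K ⟨subset_rfl, hK, hn⟩
  have hDmem := hD.prop
  have hmin : ∀ D' ⊆ D, IsClosed D' → D' ≠ D → Triv D' T := by
    intro D' hD' hcl hne
    by_contra hnt
    exact hne (hD'.antisymm (hD.le_of_le ⟨hD'.trans hDmem.1, hcl, hnt⟩ hD'))
  refine ⟨D, hDK, ⟨hDmem.2.1, ?_, ?_⟩, hDmem.2.2, hmin⟩
  · rw [Set.nonempty_iff_ne_empty]
    rintro rfl
    exact hDmem.2.2 (a5_empty T)
  · rw [isPreconnected_closed_iff]
    intro t t' ht ht' hcov hne hne'
    by_contra hno
    rw [Set.not_nonempty_iff_eq_empty] at hno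
    have hD1 : D ∩ t ≠ D := by
      intro h
      obtain ⟨x, hx, hxt'⟩ := hne'
      rw [← h] at hx
      exact (Set.eq_empty_iff_forall_notMem.1 hno) x ⟨hx.1, hx.2, hxt'⟩
    have hD2 : D ∩ t' ≠ D := by
      intro h
      obtain ⟨x, hx, hxt⟩ := hne
      rw [← h] at hx
      exact (Set.eq_empty_iff_forall_notMem.1 hno) x ⟨hx.1, hxt, hx.2⟩
    obtain ⟨η₁, hη₁, h₁, hh₁⟩ := hmin (D ∩ t) Set.inter_subset_left (hDmem.2.1.inter ht) hD1
    obtain ⟨η₂, hη₂, h₂, hh₂⟩ := hmin (D ∩ t') Set.inter_subset_left (hDmem.2.1.inter ht') hD2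
    have hun : (D ∩ t) ∪ (D ∩ t') = D := by
      rw [← Set.inter_union_distrib_left]
      exact Set.inter_eq_left.2 hcov
    set h : X → G := fun x => if x ∈ D ∩ t then h₁ x else h₂ x with hdef
    have e1 : TrivBy (min η₁ η₂) (D ∩ t) h T := by
      intro x hx y hy hd
      simp only [hdef, if_pos hx, if_pos hy]
      exact hh₁ x hx y hy (hd.trans_le (min_le_left _ _))
    have e2 : TrivBy (min η₁ η₂) (D ∩ t') h T := by
      intro x hx y hy hd
      have hx' : x ∉ D ∩ t := fun h => (Set.eq_empty_iff_forall_notMem.1 hno) x ⟨h.1, h.2, hx.2⟩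
      have hy' : y ∉ D ∩ t := fun h => (Set.eq_empty_iff_forall_notMem.1 hno) y ⟨h.1, h.2, hy.2⟩
      simp only [hdef, if_neg hx', if_neg hy']
      exact hh₂ x hx y hy (hd.trans_le (min_le_right _ _))
    have hT' : Coc ε ((D ∩ t) ∪ (D ∩ t')) T := by
      rw [hun]
      intro x hx y hy z hz
      exact hT x (hDK hx) y (hDK hy) z (hDK hz)
    obtain ⟨η', hη', hglue⟩ := trivBy_glue (hDmem.2.1.inter ht) (hDmem.2.1.inter ht') hε hT'
      (lt_min hη₁ hη₂) e1 e2
    rw [hun] at hglue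
    exact hDmem.2.2 ⟨η', hη', h, hglue⟩

end RowA5

section RowA6

open Set Filter Topology

/-- [A6] composants are dense -/
theorem dense_composant {X : Type*} [TopologicalSpace X] [CompactSpace X] [T2Space X]
    {K C : Set X} (hK : Ctm K) {z : X} (hz : z ∈ K) (hne : K ≠ {z}) (hC : IsClosed C)
    (h : ∀ L ⊆ K, Ctm L → L ≠ K → z ∈ L → L ⊆ C) : K ⊆ C := by
  obtain ⟨𝒞, -, -, h1, h2⟩ := exists_dense_chain hK.1 hK.2 hz hne
  rw [← h2]
  refine closure_minimal ?_ hC
  rintro x ⟨L, hL, hx⟩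
  obtain ⟨a, b, c, d, e⟩ := h1 L hL
  exact h L c ⟨a, b⟩ d e hx

/-- [A6] -/
theorem const_of_composant {X : Type*} [MetricSpace X] [CompactSpace X] {K : Set X} (hK : Ctm K)
    {n : X → ℕ}
    (hc : ∀ L ⊆ K, Ctm L → L ≠ K → ∀ y ∈ L, ∀ y' ∈ L, n y = n y')
    (hu : ∀ y ∈ K, ∃ δ : ℝ, 0 < δ ∧ ∀ y' ∈ K, dist y y' < δ → n y' ≤ n y) :
    ∀ y ∈ K, ∀ y' ∈ K, n y = n y' := by
  have key : ∀ y ∈ K, ∀ y' ∈ K, n y ≤ n y' := by
    intro y hy y' hy'
    by_cases hne : K = {y}
    · rw [hne] at hy'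
      rw [mem_singleton_iff.mp hy']
    · obtain ⟨δ, hδ, hu'⟩ := hu y' hy'
      have hsub : K ⊆ closure {w | w ∈ K ∧ n w = n y} := by
        refine dense_composant hK hy hne isClosed_closure ?_
        intro L hLK hL hLne hyL w hw
        exact subset_closure ⟨hLK hw, (hc L hLK hL hLne y hyL w hw).symm⟩
      obtain ⟨w, ⟨hwK, hw⟩, hd⟩ := Metric.mem_closure_iff.mp (hsub hy') δ hδ
      rw [← hw]
      exact hu' w hwK hd
  exact fun y hy y' hy' => le_antisymm (key y hy y' hy') (key y' hy' y hy)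

end RowA6

section RowA7

open Set Filter Topology

/-- [A7] a proper subcontinuum through `z` which is `δ`-dense -/
theorem exists_dense_proper {X : Type*} [MetricSpace X] [CompactSpace X] {K : Set X} (hK : Ctm K)
    {z : X} (hz : z ∈ K)
    (hne : K ≠ {z}) {δ : ℝ} (hδ : 0 < δ) :
    ∃ L ⊆ K, Ctm L ∧ L ≠ K ∧ z ∈ L ∧ ∀ y ∈ K, ∃ q ∈ L, dist y q < δ := by
  obtain ⟨𝒞, hch, hne𝒞, h1, h2⟩ := exists_dense_chain hK.1 hK.2 hz hne
  have : Nonempty 𝒞 := hne𝒞.to_subtype
  obtain ⟨⟨L, hL⟩, hKL⟩ := hK.1.isCompact.elim_directed_cover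
    (fun L : 𝒞 => Metric.thickening δ (L : Set X)) (fun L => Metric.isOpen_thickening) (by
      intro y hy
      have hy' : y ∈ closure (⋃₀ 𝒞) := by rw [h2]; exact hy
      obtain ⟨q, ⟨L, hL, hq⟩, hd⟩ := Metric.mem_closure_iff.mp hy' δ hδ
      rw [mem_iUnion]
      exact ⟨⟨L, hL⟩, Metric.mem_thickening_iff.mpr ⟨q, hq, hd⟩⟩) (by
      intro L L'
      rcases hch.total L.2 L'.2 with h | h
      · exact ⟨L', Metric.thickening_subset_of_subset δ h, subset_rfl⟩
      · exact ⟨L, subset_rfl, Metric.thickening_subset_of_subset δ h⟩)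
  obtain ⟨a, b, c, d, e⟩ := h1 L hL
  exact ⟨L, c, ⟨a, b⟩, d, e, fun y hy => Metric.mem_thickening_iff.mp (hKL hy)⟩

/-- [A7] boundary bumping: the component of `q` in a closed set `W`, when the space is not inside
`W`, leaves every open subset of `W` -/
theorem bump_component {N : Type*} [TopologicalSpace N] [CompactSpace N] [T2Space N]
    [ConnectedSpace N] {W O : Set N} (hW : IsClosed W) (hO : IsOpen O) (hOW : O ⊆ W)
    (hne : W ≠ univ) {q : N} (hq : q ∈ W) :
    Ctm (connectedComponentIn W q) ∧ ∃ p ∈ connectedComponentIn W q, p ∉ O := by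
  have hC : Ctm (connectedComponentIn W q) :=
    ctm_cc (f := (id : N → N)) continuous_id hW (x := q) hq
  refine ⟨hC, ?_⟩
  by_contra hcon
  push Not at hcon
  have hCW : connectedComponentIn W q ⊆ W := connectedComponentIn_subset _ _
  have hCne : connectedComponentIn W q ≠ univ := by
    intro h
    rw [h] at hCW
    exact hne (univ_subset_iff.mp hCW)
  obtain ⟨C', h1, h2, h3, h4, -, h6⟩ := exists_bump hC.1 hC.2 isClosed_univ isConnected_univ
    (subset_univ _) hCne hO hcon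
  have h7 : C' ⊆ connectedComponentIn W q :=
    h2.isPreconnected.subset_connectedComponentIn (h3 (mem_connectedComponentIn hq))
      (h6.trans hOW)
  exact h4 (Subset.antisymm h3 h7)

end RowA7

section RowA8

open Set Filter Topology

theorem a8_choice {ι X : Type*} {U : Ultrafilter ι} (P : ι → X → Prop)
    (h : ∀ᶠ i in (U : Filter ι), ∃ b, P i b) :
    ∃ b : ι → X, ∀ᶠ i in (U : Filter ι), P i (b i) := by
  classical
  obtain ⟨i₀, b₀, -⟩ := h.exists
  refine ⟨fun i => if h : ∃ b, P i b then h.choose else b₀, ?_⟩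
  filter_upwards [h] with i hi
  rw [dif_pos hi]
  exact hi.choose_spec

/-- [A8] -/
theorem hnear_ulim {X : Type*} [MetricSpace X] {ι : Type*} [CompactSpace X] {U : Ultrafilter ι}
    {A : ι → Set X} {η : ℝ}
    (hη : 0 < η) : ∀ᶠ i in (U : Filter ι), HNear η (A i) (ulim U A) := by
  refine Eventually.and ?_ ?_
  · by_contra hn
    rw [← Ultrafilter.eventually_not] at hn
    obtain ⟨a, ha⟩ := a8_choice (U := U) (fun i a => a ∈ A i ∧ ∀ b ∈ ulim U A, ¬ dist a b < η)
      (hn.mono fun i hi => by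
        push Not at hi
        obtain ⟨a, ha, h⟩ := hi
        exact ⟨a, ha, fun b hb => not_lt.mpr (h b hb)⟩)
    obtain ⟨p, -, hp, hpu⟩ := lim_mem_ulim (U := U) (A := A) isCompact_univ
      (ha.mono fun i hi => hi.1) (Eventually.of_forall fun i => mem_univ _)
    obtain ⟨i, hi1, hi2⟩ := (ha.and (hp.eventually (Metric.ball_mem_nhds p hη))).exists
    exact hi1.2 p hpu hi2
  · have hc : IsCompact (ulim U A) := (isClosed_ulim U A).isCompact
    obtain ⟨t, ht, htc⟩ := hc.elim_nhds_subcover (fun p => Metric.ball p (η / 2))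
      (fun p _ => Metric.ball_mem_nhds p (half_pos hη))
    have h1 : ∀ᶠ i in (U : Filter ι), ∀ p ∈ t, ∃ a ∈ A i, dist p a < η / 2 :=
      (Finset.eventually_all t).mpr fun p hp => ht p hp (η / 2) (half_pos hη)
    filter_upwards [h1] with i hi b hb
    obtain ⟨p, hp, hbp⟩ := mem_iUnion₂.mp (htc hb)
    obtain ⟨a, ha, hpa⟩ := hi p hp
    rw [Metric.mem_ball] at hbp
    exact ⟨a, ha, by linarith [dist_triangle b p a]⟩

/-- [A8] -/
theorem ctm_ulim {X : Type*} [MetricSpace X] {ι : Type*} [CompactSpace X] {U : Ultrafilter ι}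
    {A : ι → Set X}
    (hA : ∀ᶠ i in (U : Filter ι), IsConnected (A i)) : Ctm (ulim U A) :=
  ⟨isClosed_ulim U A, isConnected_ulim isCompact_univ (Eventually.of_forall fun i => subset_univ _)
    (hA.mono fun i hi => hi.nonempty)
    (fun η hη => hA.mono fun i hi => chainConn_of_isPreconnected hi.isPreconnected hη)⟩

/-- [A8] -/
theorem ulim_eq_of_hnear {X : Type*} [MetricSpace X] {ι : Type*} {U : Ultrafilter ι}
    {A : ι → Set X} {L : Set X}
    (hL : IsClosed L) (h : ∀ η : ℝ, 0 < η → ∀ᶠ i in (U : Filter ι), HNear η (A i) L) :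
    ulim U A = L := by
  apply Subset.antisymm
  · intro p hp
    rw [← hL.closure_eq, Metric.mem_closure_iff]
    intro η hη
    obtain ⟨i, ⟨a, ha, hpa⟩, hi, -⟩ :=
      ((hp (η / 2) (half_pos hη)).and (h (η / 2) (half_pos hη))).exists
    obtain ⟨b, hb, hab⟩ := hi a ha
    exact ⟨b, hb, by linarith [dist_triangle p a b]⟩
  · intro b hb η hη
    filter_upwards [h η hη] with i hi
    exact hi.2 b hb

end RowA8

end Pool.Agent.MP_a56558_gt
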