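import Pool.Agent.MP_a56558_gt.F.FA

set_option autoImplicit false

namespace Pool.Agent.MP_a56558_gt

open Set Filter Topology

section RowB1

open Set Filter Topology

/-- [B1] -/
theorem walk_slab {X : Type*} [MetricSpace X] [CompactSpace X] [ConnectedSpace X]
    (hX : SpanZero X) {e : ℝ} (he : 0 < e) :
    ∃ (n : ℕ) (w : ℕ → X) (S₁ S₂ : Set (X × ℝ)), 1 ≤ n ∧
      (∀ i : ℕ, i + 1 < n → dist (w i) (w (i + 1)) < e) ∧
      IsClosed S₁ ∧ IsClosed S₂ ∧ Disjoint S₁ S₂ ∧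
      (∀ p ∈ S₁ ∪ S₂, 1 / 3 ≤ p.2 ∧ p.2 ≤ (n : ℝ) - 1 / 3) ∧
      (∀ (x : X) (t : ℝ), 1 / 3 ≤ t → t ≤ (n : ℝ) - 1 / 3 → (x, t) ∉ S₁ ∪ S₂ →
        ∀ i : ℕ, i < n → (i : ℝ) ≤ t → t ≤ (i : ℝ) + 1 → dist (w i) x < e) ∧
      (∀ x : X, (x, (1 / 3 : ℝ)) ∉ S₂) ∧ (∀ x : X, (x, (n : ℝ) - 1 / 3) ∉ S₁) := by
  classical
  have h := not_surv_of_spanZero hX he he
  unfold Surv at h
  push Not at h
  obtain ⟨l, hl, hno⟩ := h
  have x0 : X := l.head hl.1
  have hlen : 1 ≤ l.length := List.length_pos_iff.mpr hl.1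
  have hn1 : (1 : ℝ) ≤ (l.length : ℝ) := by exact_mod_cast hlen
  have hw : ∀ i (hi : i < l.length), l.getD i x0 = l[i] := fun i hi => by simp [hi]
  set n : ℝ := (l.length : ℝ) with hn
  have hlev : (1 / 3 : ℝ) < n - 1 / 3 := by linarith
  set S : Set (X × ℝ) := Far e l ∩ {p | 1 / 3 ≤ p.2 ∧ p.2 ≤ n - 1 / 3} with hS
  have hSc : IsCompact S := by
    have h1 : S ⊆ univ ×ˢ Icc (1 / 3 : ℝ) (n - 1 / 3) := fun p hp => ⟨mem_univ _, hp.2⟩
    have h2 : IsClosed S := (isClosed_Far e l).inter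
      ((isClosed_le continuous_const continuous_snd).inter
        (isClosed_le continuous_snd continuous_const))
    exact (isCompact_univ.prod isCompact_Icc).of_isClosed_subset h2 h1
  obtain ⟨S₁, S₂, hS₁, hS₂, hd, hun, hP, hQ⟩ := exists_separation (S := S)
    (P := S ∩ {p | p.2 = 1 / 3}) (Q := S ∩ {p | p.2 = n - 1 / 3}) hSc
    (hSc.isClosed.inter (isClosed_eq continuous_snd continuous_const))
    (hSc.isClosed.inter (isClosed_eq continuous_snd continuous_const))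
    inter_subset_left inter_subset_left (by
      rintro C hC hCc hCS ⟨a, haC, haP⟩ ⟨b, hbC, hbQ⟩
      exact hno C ⟨⟨hC, hCc, fun p hp => (hCS hp).1, fun p hp => (hCS hp).2,
        ⟨a, haC, haP.2⟩, ⟨b, hbC, hbQ.2⟩⟩, fun p _ => mem_univ _⟩)
  have hS₁S : S₁ ⊆ S := by rw [← hun]; exact subset_union_left
  have hS₂S : S₂ ⊆ S := by rw [← hun]; exact subset_union_right
  refine ⟨l.length, fun i => l.getD i x0, S₁, S₂, hlen, ?_, hS₁, hS₂, hd, ?_, ?_, ?_, ?_⟩
  · intro i hi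
    have hc := List.isChain_iff_getElem.mp hl.2.1
    show dist (l.getD i x0) (l.getD (i + 1) x0) < e
    rw [hw i (by omega), hw (i + 1) hi]
    exact hc i hi
  · intro p hp
    rw [hun] at hp
    exact hp.2
  · intro x t ht1 ht2 hxt i hi hi1 hi2
    show dist (l.getD i x0) x < e
    rw [hw i hi]
    by_contra hcon
    push Not at hcon
    apply hxt
    rw [hun]
    refine ⟨⟨i, l[i], List.getElem?_eq_getElem hi, hi1, hi2, ?_⟩, ht1, ht2⟩
    show e ≤ dist x l[i]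
    rw [dist_comm]
    exact hcon
  · intro x hx
    have h1 : (x, (1 / 3 : ℝ)) ∈ S₁ := hP ⟨hS₂S hx, rfl⟩
    exact (Set.disjoint_left.mp hd) h1 hx
  · intro x hx
    have h1 : (x, n - 1 / 3) ∈ S₂ := hQ ⟨hS₁S hx, rfl⟩
    exact (Set.disjoint_left.mp hd) hx h1

end RowB1

section RowB2

open Set Filter Topology

theorem b2_dist {Z : Type*} [MetricSpace Z] {S T : Set Z} (hS : IsCompact S) (hT : IsClosed T)
    (h : Disjoint S T) : ∃ r : ℝ, 0 < r ∧ ∀ x ∈ S, ∀ y ∈ T, r ≤ dist x y := by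
  obtain ⟨r, hr, hh⟩ := Metric.exists_pos_forall_lt_edist hS hT h
  refine ⟨r, by exact_mod_cast hr, fun x hx y hy => ?_⟩
  have h1 := (hh x hx y hy).le
  rw [edist_nndist] at h1
  have h2 : r ≤ nndist x y := by exact_mod_cast h1
  rw [← coe_nndist]
  exact_mod_cast h2

/-- [B2] -/
theorem exists_regions {X : Type*} [MetricSpace X] [CompactSpace X] {S₁ S₂ : Set (X × ℝ)}
    (h1 : IsClosed S₁) (h2 : IsClosed S₂) (hd : Disjoint S₁ S₂) {a b : ℝ} (hab : a < b)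
    (hb : ∀ p ∈ S₁ ∪ S₂, a ≤ p.2 ∧ p.2 ≤ b) (hbot : ∀ x, (x, a) ∉ S₂) (htop : ∀ x, (x, b) ∉ S₁) :
    ∃ (lam : ℝ) (reg : X × ℝ → Bool), 0 < lam ∧ (∀ x, reg (x, a) = false) ∧
      (∀ x, reg (x, b) = true) ∧
      (∀ p, reg p = false → ∀ p', dist p p' < lam → p' ∉ S₂) ∧
      (∀ p, reg p = true → ∀ p', dist p p' < lam → p' ∉ S₁) := by
  classical
  have hc1 : IsCompact S₁ := by
    refine IsCompact.of_isClosed_subset (s := (univ : Set X) ×ˢ Icc a b)
      (isCompact_univ.prod isCompact_Icc) h1 fun p hp => ⟨mem_univ _, hb p (Or.inl hp)⟩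
  have hla : IsCompact ((univ : Set X) ×ˢ ({a} : Set ℝ)) := isCompact_univ.prod isCompact_singleton
  have hlb : IsCompact ((univ : Set X) ×ˢ ({b} : Set ℝ)) := isCompact_univ.prod isCompact_singleton
  obtain ⟨r1, hr1, hh1⟩ := b2_dist hc1 h2 hd
  obtain ⟨r2, hr2, hh2⟩ := b2_dist hla h2 (by
    rw [Set.disjoint_left]
    rintro ⟨x, t⟩ ⟨_, ht⟩ hp
    simp only [mem_singleton_iff] at ht
    subst ht
    exact hbot x hp)
  obtain ⟨r3, hr3, hh3⟩ := b2_dist hlb h1 (by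
    rw [Set.disjoint_left]
    rintro ⟨x, t⟩ ⟨_, ht⟩ hp
    simp only [mem_singleton_iff] at ht
    subst ht
    exact htop x hp)
  refine ⟨min (r1 / 2) (min r2 r3),
    fun p => decide (p.2 = b ∨ ∃ p' ∈ S₂, dist p p' < min (r1 / 2) (min r2 r3)),
    lt_min (by positivity) (lt_min hr2 hr3), ?_, ?_, ?_, ?_⟩
  · intro x
    rw [decide_eq_false_iff_not]
    rintro (h | ⟨p', hp', hdist⟩)
    · exact hab.ne h
    · have := hh2 (x, a) ⟨mem_univ _, rfl⟩ p' hp'
      have h4 := (hdist.trans_le (min_le_right _ _)).trans_le (min_le_left _ _)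
      linarith
  · intro x
    rw [decide_eq_true_iff]
    exact Or.inl rfl
  · intro p hp p' hdist hp'
    rw [decide_eq_false_iff_not] at hp
    exact hp (Or.inr ⟨p', hp', hdist⟩)
  · intro p hp p' hdist hp'
    rw [decide_eq_true_iff] at hp
    rcases hp with h | ⟨p'', hp'', hdist''⟩
    · have := hh3 p ⟨mem_univ _, h⟩ p' hp'
      have h4 := (hdist.trans_le (min_le_right _ _)).trans_le (min_le_right _ _)
      linarith
    · have h5 := hh1 p' hp' p'' hp''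
      have h6 := hdist.trans_le (min_le_left _ _)
      have h7 := hdist''.trans_le (min_le_left _ _)
      have h8 := dist_triangle_left p' p'' p
      linarith

end RowB2

section RowB3

open Set Filter Topology

section

variable {X : Type*} [MetricSpace X] {G : Type*} [Group G]

/-- holonomy along the walk -/
def b3_W (T : X → X → G) (w : ℕ → X) : ℕ → G
  | 0 => 1
  | k + 1 => b3_W T w k * T (w k) (w (k + 1))

/-- holonomy from the beginning of the walk to the point `x` at the height `t` -/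
noncomputable def b3_s (T : X → X → G) (w : ℕ → X) (p : X × ℝ) : G :=
  b3_W T w ⌊p.2⌋₊ * T (w ⌊p.2⌋₊) p.1

theorem b3_sigma {ε : ℝ} (hε : 0 < ε) {T : X → X → G} (hT : Coc ε (univ : Set X) T) {n : ℕ}
    {w : ℕ → X} (hw : ∀ i : ℕ, i + 1 < n → dist (w i) (w (i + 1)) < ε / 4)
    {S₁ S₂ : Set (X × ℝ)}
    (hnear : ∀ (x : X) (t : ℝ), 1 / 3 ≤ t → t ≤ (n : ℝ) - 1 / 3 → (x, t) ∉ S₁ ∪ S₂ →
        ∀ i : ℕ, i < n → (i : ℝ) ≤ t → t ≤ (i : ℝ) + 1 → dist (w i) x < ε / 4)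
    {x x' : X} {t t' : ℝ} (ht1 : 1 / 3 ≤ t) (ht2 : t ≤ (n : ℝ) - 1 / 3) (ht1' : 1 / 3 ≤ t')
    (ht2' : t' ≤ (n : ℝ) - 1 / 3) (h : (x, t) ∉ S₁ ∪ S₂) (h' : (x', t') ∉ S₁ ∪ S₂)
    (htt : |t - t'| < 1) (hxx : dist x x' < ε / 4) :
    b3_s T w (x, t) * T x x' = b3_s T w (x', t') := by
  have hco : ∀ a b c : X, dist a b < ε → dist b c < ε → dist a c < ε → T a b * T b c = T a c :=
    fun a b c => hT a (mem_univ a) b (mem_univ b) c (mem_univ c)
  have t0 : 0 ≤ t := by linarith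
  have t0' : 0 ≤ t' := by linarith
  have hk : ⌊t⌋₊ < n := by
    rw [Nat.floor_lt t0]; linarith
  have hk' : ⌊t'⌋₊ < n := by
    rw [Nat.floor_lt t0']; linarith
  have f1 : (⌊t⌋₊ : ℝ) ≤ t := Nat.floor_le t0
  have f2 : t < (⌊t⌋₊ : ℝ) + 1 := Nat.lt_floor_add_one t
  have f1' : (⌊t'⌋₊ : ℝ) ≤ t' := Nat.floor_le t0'
  have f2' : t' < (⌊t'⌋₊ : ℝ) + 1 := Nat.lt_floor_add_one t'
  have d := hnear x t ht1 ht2 h _ hk f1 f2.le
  have d' := hnear x' t' ht1' ht2' h' _ hk' f1' f2'.le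
  obtain ⟨ha, hb⟩ := abs_lt.1 htt
  unfold b3_s
  simp only
  rw [mul_assoc]
  rcases lt_trichotomy ⌊t⌋₊ ⌊t'⌋₊ with hlt | heq | hgt
  · have e : ⌊t'⌋₊ = ⌊t⌋₊ + 1 := by
      have : (⌊t'⌋₊ : ℝ) < (⌊t⌋₊ : ℝ) + 2 := by linarith
      have h2 : ⌊t'⌋₊ < ⌊t⌋₊ + 2 := by exact_mod_cast this
      omega
    rw [e] at d' hk' ⊢
    have dw := hw _ hk'
    have d3 : dist (w ⌊t⌋₊) x' < ε := by
      have := dist_triangle (w ⌊t⌋₊) x x'
      linarith
    show _ = b3_W T w ⌊t⌋₊ * T (w ⌊t⌋₊) (w (⌊t⌋₊ + 1)) * T (w (⌊t⌋₊ + 1)) x'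
    rw [mul_assoc, hco _ _ _ (by linarith) (by linarith) d3, hco _ _ _ (by linarith) (by linarith) d3]
  · rw [← heq] at d' ⊢
    rw [hco _ _ _ (by linarith) (by linarith) (by linarith)]
  · have e : ⌊t⌋₊ = ⌊t'⌋₊ + 1 := by
      have : (⌊t⌋₊ : ℝ) < (⌊t'⌋₊ : ℝ) + 2 := by linarith
      have h2 : ⌊t⌋₊ < ⌊t'⌋₊ + 2 := by exact_mod_cast this
      omega
    rw [e] at d hk ⊢
    have dw := hw _ hk
    have d3 : dist (w (⌊t'⌋₊ + 1)) x' < ε := by
      have := dist_triangle (w (⌊t'⌋₊ + 1)) x x'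
      linarith
    show b3_W T w ⌊t'⌋₊ * T (w ⌊t'⌋₊) (w (⌊t'⌋₊ + 1)) * (T (w (⌊t'⌋₊ + 1)) x * T x x') = _
    rw [hco _ _ _ (by linarith) (by linarith) d3, mul_assoc,
      hco _ _ _ (by linarith) d3 (by linarith)]

/-- the cocycle on the slab -/
noncomputable def b3_T (T : X → X → G) (w : ℕ → X) (reg : X × ℝ → Bool) (p p' : X × ℝ) : G :=
  match reg p, reg p' with
  | true, true => T p.1 p'.1
  | false, false => 1
  | false, true => b3_s T w p'
  | true, false => (b3_s T w p)⁻¹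

/-- products along the vertical segments of the grid -/
noncomputable def b3_V (T : X → X → G) (w : ℕ → X) (reg : X × ℝ → Bool) (s : ℝ) (x : X) : ℕ → G
  | 0 => 1
  | j + 1 => b3_V T w reg s x j *
      b3_T T w reg (x, 1 / 3 + (j : ℝ) * s) (x, 1 / 3 + ((j : ℝ) + 1) * s)

/-- [B3] -/
theorem triv_of_regions {X : Type*} [MetricSpace X] {G : Type*} [Group G] {ε : ℝ} (hε : 0 < ε)
    {T : X → X → G} (hT : Coc ε (univ : Set X) T) {n : ℕ} (hn : 1 ≤ n) {w : ℕ → X}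
    (hw : ∀ i : ℕ, i + 1 < n → dist (w i) (w (i + 1)) < ε / 4) {S₁ S₂ : Set (X × ℝ)}
    (hnear : ∀ (x : X) (t : ℝ), 1 / 3 ≤ t → t ≤ (n : ℝ) - 1 / 3 → (x, t) ∉ S₁ ∪ S₂ →
        ∀ i : ℕ, i < n → (i : ℝ) ≤ t → t ≤ (i : ℝ) + 1 → dist (w i) x < ε / 4)
    {lam : ℝ} {reg : X × ℝ → Bool} (hlam : 0 < lam) (hbot : ∀ x, reg (x, (1 / 3 : ℝ)) = false)
    (htop : ∀ x, reg (x, (n : ℝ) - 1 / 3) = true)
    (hf : ∀ p, reg p = false → ∀ p', dist p p' < lam → p' ∉ S₂)
    (ht : ∀ p, reg p = true → ∀ p', dist p p' < lam → p' ∉ S₁) :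
    Triv (univ : Set X) T := by
  set ρ : ℝ := min lam (min (ε / 4) 1) with hρ
  have hρ0 : 0 < ρ := lt_min hlam (lt_min (by positivity) one_pos)
  have hρ1 : ρ ≤ lam := min_le_left _ _
  have hρ2 : ρ ≤ ε / 4 := (min_le_right _ _).trans (min_le_left _ _)
  have hρ3 : ρ ≤ 1 := (min_le_right _ _).trans (min_le_right _ _)
  -- cocycle property
  have hcoc : ∀ p q r : X × ℝ, (1 / 3 ≤ p.2 ∧ p.2 ≤ (n : ℝ) - 1 / 3) →
      (1 / 3 ≤ q.2 ∧ q.2 ≤ (n : ℝ) - 1 / 3) → (1 / 3 ≤ r.2 ∧ r.2 ≤ (n : ℝ) - 1 / 3) →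
      dist p q < ρ → dist q r < ρ → dist p r < ρ →
      b3_T T w reg p q * b3_T T w reg q r = b3_T T w reg p r := by
    intro p q r hp hq hr dpq dqr dpr
    have hself : ∀ a : X × ℝ, dist a a < lam := fun a => by rw [dist_self]; exact hlam
    have fst_lt : ∀ a b : X × ℝ, dist a b < ρ → dist a.1 b.1 < ε / 4 := by
      intro a b hab
      have h1 : dist a.1 b.1 ≤ dist a b := le_max_left _ _
      linarith
    have snd_lt : ∀ a b : X × ℝ, dist a b < ρ → |a.2 - b.2| < 1 := by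
      intro a b hab
      have h1 : dist a.2 b.2 ≤ dist a b := le_max_right _ _
      rw [Real.dist_eq] at h1
      linarith
    have key : ∀ a b c : X × ℝ, (1 / 3 ≤ a.2 ∧ a.2 ≤ (n : ℝ) - 1 / 3) →
        (1 / 3 ≤ b.2 ∧ b.2 ≤ (n : ℝ) - 1 / 3) → reg a = true → reg b = true → reg c = false →
        dist c a < ρ → dist c b < ρ → dist a b < ρ →
        b3_s T w a * T a.1 b.1 = b3_s T w b := by
      intro a b c ha hb ra rb rc dca dcb dab
      have na : a ∉ S₁ ∪ S₂ := by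
        rintro (h | h)
        · exact ht a ra a (hself a) h
        · exact hf c rc a (by linarith) h
      have nb : b ∉ S₁ ∪ S₂ := by
        rintro (h | h)
        · exact ht b rb b (hself b) h
        · exact hf c rc b (by linarith) h
      exact b3_sigma hε hT hw hnear ha.1 ha.2 hb.1 hb.2 na nb (snd_lt _ _ dab) (fst_lt _ _ dab)
    have dqp : dist q p < ρ := by rwa [dist_comm]
    have drq : dist r q < ρ := by rwa [dist_comm]
    have drp : dist r p < ρ := by rwa [dist_comm]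
    unfold b3_T
    cases hrp : reg p <;> cases hrq : reg q <;> cases hrr : reg r <;> simp only [one_mul, mul_one]
    · exact mul_inv_cancel _
    · exact key q r p hq hr hrq hrr hrp dpq dpr dqr
    · rw [inv_mul_eq_iff_eq_mul]
      exact (key p r q hp hr hrp hrr hrq dqp dqr dpr).symm
    · rw [mul_inv_eq_iff_eq_mul, eq_inv_mul_iff_mul_eq]
      exact key p q r hp hq hrp hrq hrr drp drq dpq
    · exact hT _ (mem_univ _) _ (mem_univ _) _ (mem_univ _) (by linarith [fst_lt _ _ dpq])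
        (by linarith [fst_lt _ _ dqr]) (by linarith [fst_lt _ _ dpr])
  have hn' : (1 : ℝ) ≤ n := by exact_mod_cast hn
  -- the grid
  obtain ⟨m, hm⟩ := exists_nat_gt (((n : ℝ) - 2 / 3) / ρ)
  have hm0 : (0 : ℝ) < m := lt_of_le_of_lt (by apply div_nonneg <;> linarith) hm
  set s : ℝ := ((n : ℝ) - 2 / 3) / m with hs
  have hs0 : 0 < s := div_pos (by linarith) hm0
  have hsρ : s < ρ := by
    rw [hs, div_lt_iff₀ hm0]
    rw [div_lt_iff₀ hρ0] at hm
    linarith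
  have hms : (m : ℝ) * s = (n : ℝ) - 2 / 3 := by
    rw [hs]; field_simp
  have hgrid : ∀ j : ℕ, j ≤ m → 1 / 3 ≤ 1 / 3 + (j : ℝ) * s ∧
      1 / 3 + (j : ℝ) * s ≤ (n : ℝ) - 1 / 3 := by
    intro j hj
    have hj' : (j : ℝ) ≤ m := by exact_mod_cast hj
    have h0 : (0 : ℝ) ≤ j := Nat.cast_nonneg j
    constructor
    · have := mul_nonneg h0 hs0.le
      linarith
    · have := mul_le_mul_of_nonneg_right hj' hs0.le
      linarith
  have hind : ∀ j : ℕ, j ≤ m → ∀ x x' : X, dist x x' < ρ →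
      b3_V T w reg s x j * b3_T T w reg (x, 1 / 3 + (j : ℝ) * s) (x', 1 / 3 + (j : ℝ) * s) =
        b3_V T w reg s x' j := by
    intro j
    induction j with
    | zero =>
      intro _ x x' _
      have e1 : (1 / 3 : ℝ) + ((0 : ℕ) : ℝ) * s = 1 / 3 := by simp
      rw [e1]
      unfold b3_T b3_V
      rw [hbot, hbot]
      simp
    | succ j ih =>
      intro hj x x' hxx
      have g1 := hgrid j (by omega)
      have g2 := hgrid (j + 1) hj
      push_cast at g2 ⊢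
      have ds : dist (1 / 3 + (j : ℝ) * s) (1 / 3 + ((j : ℝ) + 1) * s) < ρ := by
        rw [Real.dist_eq]
        have : 1 / 3 + (j : ℝ) * s - (1 / 3 + ((j : ℝ) + 1) * s) = -s := by ring
        rw [this, abs_neg, abs_of_pos hs0]
        exact hsρ
      have dd : ∀ a : X, dist a a < ρ := fun a => by rw [dist_self]; exact hρ0
      have dt : ∀ a : ℝ, dist a a < ρ := fun a => by rw [dist_self]; exact hρ0
      have c1 := hcoc (x, 1 / 3 + (j : ℝ) * s) (x, 1 / 3 + ((j : ℝ) + 1) * s)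
        (x', 1 / 3 + ((j : ℝ) + 1) * s) g1 g2 g2 (max_lt (dd x) ds) (max_lt hxx (dt _))
        (max_lt hxx ds)
      have c2 := hcoc (x, 1 / 3 + (j : ℝ) * s) (x', 1 / 3 + (j : ℝ) * s)
        (x', 1 / 3 + ((j : ℝ) + 1) * s) g1 g1 g2 (max_lt hxx (dt _)) (max_lt (dd x') ds)
        (max_lt hxx ds)
      show b3_V T w reg s x j * _ * _ = b3_V T w reg s x' j * _
      rw [mul_assoc, c1, ← c2, ← mul_assoc, ih (by omega) x x' hxx]
  refine ⟨ρ, hρ0, fun x => b3_V T w reg s x m, ?_⟩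
  intro x _ y _ hxy
  have h1 := hind m le_rfl x y hxy
  have e1 : (1 / 3 : ℝ) + (m : ℝ) * s = (n : ℝ) - 1 / 3 := by rw [hms]; ring
  rw [e1] at h1
  have e2 : b3_T T w reg (x, (n : ℝ) - 1 / 3) (y, (n : ℝ) - 1 / 3) = T x y := by
    unfold b3_T
    rw [htop, htop]
  rw [e2] at h1
  exact h1

end

end RowB3

section RowB4

open Set Filter Topology

/-- [B4] -/
theorem spanZero_subtype {X : Type*} [MetricSpace X] (hX : SpanZero X) {A : Set X}
    (hA : IsClosed A) : SpanZero A := by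
  intro Z hZ hZc hfs
  set g : A × A → X × X := Prod.map Subtype.val Subtype.val with hg
  have hcl : Topology.IsClosedEmbedding g :=
    hA.isClosedEmbedding_subtypeVal.prodMap hA.isClosedEmbedding_subtypeVal
  have h1 : IsClosed (g '' Z) := hcl.isClosedMap _ hZ
  have h2 : IsConnected (g '' Z) := hZc.image g hcl.continuous.continuousOn
  have h3 : Prod.fst '' (g '' Z) = Prod.snd '' (g '' Z) := by
    have e1 : Prod.fst '' (g '' Z) = Subtype.val '' (Prod.fst '' Z) := by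
      rw [image_image, image_image]
      rfl
    have e2 : Prod.snd '' (g '' Z) = Subtype.val '' (Prod.snd '' Z) := by
      rw [image_image, image_image]
      rfl
    rw [e1, e2, hfs]
  obtain ⟨x, ⟨⟨a, b⟩, hab, he⟩⟩ := hX _ h1 h2 h3
  have ha : (a : X) = x := congrArg Prod.fst he
  have hb : (b : X) = x := congrArg Prod.snd he
  have hab' : a = b := Subtype.ext (ha.trans hb.symm)
  subst hab'
  exact ⟨a, hab⟩

/-- [B4] -/
theorem sc_of_subtype {X : Type*} [MetricSpace X] {A : Set X} (h : SC (univ : Set A)) :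
    SC A := by
  classical
  intro G _ ε hε T hT
  obtain ⟨η, hη, k, hk⟩ := h G ε hε (fun a b => T a.1 b.1)
    (fun x _ y _ z _ h1 h2 h3 => hT x.1 x.2 y.1 y.2 z.1 z.2 h1 h2 h3)
  refine ⟨η, hη, fun x => if hx : x ∈ A then k ⟨x, hx⟩ else 1, ?_⟩
  intro x hx y hy hxy
  simp only [hx, hy, dif_pos]
  exact hk ⟨x, hx⟩ (mem_univ _) ⟨y, hy⟩ (mem_univ _) hxy

end RowB4

section BAssembly

/-- [B] assembly (helper78) -/
theorem hsc_of_spanZero {X : Type*} [MetricSpace X] [CompactSpace X] (hX : SpanZero X) :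
    HSC X := by
  intro A hA
  have : CompactSpace A := isCompact_iff_compactSpace.1 hA.1.isCompact
  have : ConnectedSpace A := isConnected_iff_connectedSpace.1 hA.2
  apply sc_of_subtype
  intro G _ ε hε T hT
  obtain ⟨n, w, S₁, S₂, hn, hw, h1, h2, hd, hb, hnear, hbot, htop⟩ :=
    walk_slab (spanZero_subtype hX hA.1) (e := ε / 4) (by positivity)
  have hn' : (1 : ℝ) ≤ n := by exact_mod_cast hn
  obtain ⟨lam, reg, hlam, hr1, hr2, hr3, hr4⟩ := exists_regions h1 h2 hd (by linarith) hb hbot htop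
  exact triv_of_regions hε hT hn hw hnear hlam hr1 hr2 hr3 hr4


end BAssembly

end Pool.Agent.MP_a56558_gt
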