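import Pool.Agent.MP_a56558_gt.F.FB

set_option autoImplicit false

namespace Pool.Agent.MP_a56558_gt

open Set Filter Topology

section RowC1

open Set Filter Topology

/-- [C1] hexagon -/
theorem wtf_of_spanZero {X : Type*} [MetricSpace X] (hX : SpanZero X) : WTF X := by
  intro K L M hK hL hM hcom
  by_contra hcon
  push Not at hcon
  obtain ⟨h1, h2, h3⟩ := hcon
  obtain ⟨c, hcK, hcL, hcM⟩ := hcom
  obtain ⟨a, haK, ha⟩ := not_subset.mp h1
  obtain ⟨b, hbL, hb⟩ := not_subset.mp h2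
  obtain ⟨e, heM, he⟩ := not_subset.mp h3
  have hLM : Ctm (L ∪ M) := ⟨hL.1.union hM.1, hL.2.union ⟨c, hcL, hcM⟩ hM.2⟩
  have hKM : Ctm (K ∪ M) := ⟨hK.1.union hM.1, hK.2.union ⟨c, hcK, hcM⟩ hM.2⟩
  have hKL : Ctm (K ∪ L) := ⟨hK.1.union hL.1, hK.2.union ⟨c, hcK, hcL⟩ hL.2⟩
  set Ha : Set (X × X) := {a} ×ˢ (L ∪ M) with hHa
  set Hb : Set (X × X) := {b} ×ˢ (K ∪ M) with hHb
  set He : Set (X × X) := {e} ×ˢ (K ∪ L) with hHe
  set Va : Set (X × X) := (L ∪ M) ×ˢ {a} with hVa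
  set Vb : Set (X × X) := (K ∪ M) ×ˢ {b} with hVb
  set Ve : Set (X × X) := (K ∪ L) ×ˢ {e} with hVe
  have cH : ∀ (p : X) (S : Set X), Ctm S → IsClosed (({p} : Set X) ×ˢ S) ∧ IsConnected (({p} : Set X) ×ˢ S) :=
    fun p S hS => ⟨isClosed_singleton.prod hS.1, isConnected_singleton.prod hS.2⟩
  have cV : ∀ (p : X) (S : Set X), Ctm S → IsClosed (S ×ˢ ({p} : Set X)) ∧ IsConnected (S ×ˢ ({p} : Set X)) :=
    fun p S hS => ⟨hS.1.prod isClosed_singleton, hS.2.prod isConnected_singleton⟩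
  have c1 := cH a _ hLM
  have c2 := cV b _ hKM
  have c3 := cH e _ hKL
  have c4 := cV a _ hLM
  have c5 := cH b _ hKM
  have c6 := cV e _ hKL
  have u1 : IsConnected (Ha ∪ Vb) := c1.2.union ⟨(a, b), ⟨rfl, Or.inl hbL⟩, ⟨Or.inl haK, rfl⟩⟩ c2.2
  have u2 : IsConnected (Ha ∪ Vb ∪ He) :=
    u1.union ⟨(e, b), Or.inr ⟨Or.inr heM, rfl⟩, ⟨rfl, Or.inr hbL⟩⟩ c3.2
  have u3 : IsConnected (Ha ∪ Vb ∪ He ∪ Va) :=
    u2.union ⟨(e, a), Or.inr ⟨rfl, Or.inl haK⟩, ⟨Or.inr heM, rfl⟩⟩ c4.2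
  have u4 : IsConnected (Ha ∪ Vb ∪ He ∪ Va ∪ Hb) :=
    u3.union ⟨(b, a), Or.inr ⟨Or.inl hbL, rfl⟩, ⟨rfl, Or.inl haK⟩⟩ c5.2
  have u5 : IsConnected (Ha ∪ Vb ∪ He ∪ Va ∪ Hb ∪ Ve) :=
    u4.union ⟨(b, e), Or.inr ⟨rfl, Or.inr heM⟩, ⟨Or.inr hbL, rfl⟩⟩ c6.2
  have hclosed : IsClosed (Ha ∪ Vb ∪ He ∪ Va ∪ Hb ∪ Ve) :=
    ((((c1.1.union c2.1).union c3.1).union c4.1).union c5.1).union c6.1
  have hproj : Prod.fst '' (Ha ∪ Vb ∪ He ∪ Va ∪ Hb ∪ Ve) =
      Prod.snd '' (Ha ∪ Vb ∪ He ∪ Va ∪ Hb ∪ Ve) := by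
    have p1 : Prod.fst '' (Ha ∪ Vb ∪ He ∪ Va ∪ Hb ∪ Ve) = K ∪ L ∪ M := by
      apply Subset.antisymm
      · rintro _ ⟨⟨p, q⟩, hp, rfl⟩
        simp only [hHa, hHb, hHe, hVa, hVb, hVe, mem_union, mem_prod, mem_singleton_iff] at hp
        simp only [mem_union]
        rcases hp with ((((h | h) | h) | h) | h) | h
        · rw [h.1]; tauto
        · tauto
        · rw [h.1]; tauto
        · tauto
        · rw [h.1]; tauto
        · tauto
      · rintro p ((hp | hp) | hp)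
        · exact ⟨(p, b), by simp only [hHa, hHb, hHe, hVa, hVb, hVe, mem_union, mem_prod, mem_singleton_iff]; tauto, rfl⟩
        · exact ⟨(p, a), by simp only [hHa, hHb, hHe, hVa, hVb, hVe, mem_union, mem_prod, mem_singleton_iff]; tauto, rfl⟩
        · exact ⟨(p, a), by simp only [hHa, hHb, hHe, hVa, hVb, hVe, mem_union, mem_prod, mem_singleton_iff]; tauto, rfl⟩
    have p2 : Prod.snd '' (Ha ∪ Vb ∪ He ∪ Va ∪ Hb ∪ Ve) = K ∪ L ∪ M := by
      apply Subset.antisymm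
      · rintro _ ⟨⟨p, q⟩, hp, rfl⟩
        simp only [hHa, hHb, hHe, hVa, hVb, hVe, mem_union, mem_prod, mem_singleton_iff] at hp
        simp only [mem_union]
        rcases hp with ((((h | h) | h) | h) | h) | h
        · tauto
        · rw [h.2]; tauto
        · tauto
        · rw [h.2]; tauto
        · tauto
        · rw [h.2]; tauto
      · rintro p ((hp | hp) | hp)
        · exact ⟨(b, p), by simp only [hHa, hHb, hHe, hVa, hVb, hVe, mem_union, mem_prod, mem_singleton_iff]; tauto, rfl⟩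
        · exact ⟨(a, p), by simp only [hHa, hHb, hHe, hVa, hVb, hVe, mem_union, mem_prod, mem_singleton_iff]; tauto, rfl⟩
        · exact ⟨(a, p), by simp only [hHa, hHb, hHe, hVa, hVb, hVe, mem_union, mem_prod, mem_singleton_iff]; tauto, rfl⟩
    rw [p1, p2]
  obtain ⟨x, hx⟩ := hX _ hclosed u5 hproj
  simp only [hHa, hHb, hHe, hVa, hVb, hVe, mem_union, mem_prod, mem_singleton_iff] at hx
  simp only [mem_union] at ha hb he
  rcases hx with ((((h | h) | h) | h) | h) | h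
  · rw [h.1] at h; exact ha h.2
  · rw [h.2] at h; exact hb h.1
  · rw [h.1] at h; exact he h.2
  · rw [h.2] at h; exact ha h.1
  · rw [h.1] at h; exact hb h.2
  · rw [h.2] at h; exact he h.1

/-- [C1] -/
theorem wtf_of_confluent {X Y : Type*} [MetricSpace X] [MetricSpace Y] {f : X → Y}
    (hf : Continuous f) (hc : Conf f) (hs : Function.Surjective f) (hX : WTF X) : WTF Y := by
  intro K L M hK hL hM hcom
  obtain ⟨c, hcK, hcL, hcM⟩ := hcom
  obtain ⟨x, rfl⟩ := hs c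
  have iK := hc K hK.1 hK.2 x hcK
  have iL := hc L hL.1 hL.2 x hcL
  have iM := hc M hM.1 hM.2 x hcM
  rcases hX _ _ _ (ctm_cc hf hK.1 hcK) (ctm_cc hf hL.1 hcL) (ctm_cc hf hM.1 hcM)
    ⟨x, mem_cc hcK, mem_cc hcL, mem_cc hcM⟩ with h | h | h
  · left
    rw [← iK, ← iL, ← iM, ← image_union]
    exact image_mono h
  · right; left
    rw [← iK, ← iL, ← iM, ← image_union]
    exact image_mono h
  · right; right
    rw [← iK, ← iL, ← iM, ← image_union]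
    exact image_mono h

end RowC1

end Pool.Agent.MP_a56558_gt
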