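import Pool.Agent.MP_a56558_gt.F.FC

set_option autoImplicit false

namespace Pool.Agent.MP_a56558_gt

open Set Filter Topology

section RowD1

open Set Filter Topology

theorem d1_free {G : Type*} [Group G] [IsMulTorsionFree G] {R : Set G} (hR : R.Finite)
    (hne : R.Nonempty) {g : G} (h : (fun a => a * g) '' R = R) : g = 1 := by
  obtain ⟨s, hs⟩ := hne
  have h1 : ∀ n : ℕ, s * g ^ n ∈ R := by
    intro n
    induction n with
    | zero => simpa using hs
    | succ n ih =>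
      rw [← h]
      refine ⟨s * g ^ n, ih, ?_⟩
      show s * g ^ n * g = s * g ^ (n + 1)
      rw [pow_succ, mul_assoc]
  have h2 : ¬ Function.Injective (fun n : ℕ => s * g ^ n) := by
    intro hinj
    exact Set.infinite_of_injective_forall_mem hinj h1 hR
  rw [Function.not_injective_iff] at h2
  obtain ⟨a, b, hab, hne⟩ := h2
  have h3 : g ^ a = g ^ b := mul_left_cancel hab
  have key : ∀ a b : ℕ, a < b → g ^ a = g ^ b → g = 1 := by
    intro a b hlt h3
    have h4 : g ^ (b - a) = 1 := by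
      have h5 : g ^ b = g ^ a * g ^ (b - a) := by
        rw [← pow_add]
        congr 1
        omega
      rw [h5] at h3
      exact (mul_eq_left.mp h3.symm)
    have h6 : b - a ≠ 0 := by omega
    apply pow_left_injective h6
    show g ^ (b - a) = 1 ^ (b - a)
    rw [h4, one_pow]
  rcases lt_or_gt_of_ne hne with hlt | hlt
  · exact key a b hlt h3
  · exact key b a hlt h3.symm

/-- right translation orbits -/
def d1_rel (G : Type*) [Group G] : Setoid (Set G) where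
  r := fun S T => ∃ g : G, T = (fun a => a * g) '' S
  iseqv :=
    { refl := fun S => ⟨1, by simp⟩
      symm := by
        rintro S T ⟨g, rfl⟩
        refine ⟨g⁻¹, ?_⟩
        rw [image_image]
        simp
      trans := by
        rintro S T U ⟨g, rfl⟩ ⟨g', rfl⟩
        refine ⟨g * g', ?_⟩
        rw [image_image]
        simp only [mul_assoc] }

theorem d1_ex (G : Type*) [Group G] (S : Set G) :
    ∃ g : G, S = (fun a => a * g) '' (Quotient.mk (d1_rel G) S).out :=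
  Quotient.mk_out (s := d1_rel G) S

theorem exists_equivariant (G : Type*) [Group G] [IsMulTorsionFree G] :
    ∃ Φ : Set G → G, ∀ S : Set G, S.Finite → S.Nonempty → ∀ g : G,
      Φ ((fun a => a * g) '' S) = Φ S * g := by
  choose Φ hΦ using d1_ex G
  refine ⟨Φ, fun S hS hne g => ?_⟩
  have h1 : Quotient.mk (d1_rel G) ((fun a => a * g) '' S) = Quotient.mk (d1_rel G) S :=
    Quotient.sound ((d1_rel G).symm' ⟨g, rfl⟩)
  have h2 := hΦ ((fun a => a * g) '' S)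
  rw [h1] at h2
  have h3 := hΦ S
  set R := (Quotient.mk (d1_rel G) S).out with hRdef
  have h4 : (fun a => a * g) '' S = (fun a => a * (Φ S * g)) '' R := by
    conv_lhs => rw [h3]
    rw [image_image]
    simp only [mul_assoc]
  have hRne : R.Nonempty := by
    rw [h3] at hne
    exact hne.of_image
  have hRfin : R.Finite := by
    rw [h3] at hS
    exact Set.Finite.of_finite_image hS (fun a _ b _ hab => mul_right_cancel hab)
  set u := Φ ((fun a => a * g) '' S) with hu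
  have h5 : (fun a => a * (u * (Φ S * g)⁻¹)) '' R = R := by
    have h6 : (fun a => a * u) '' R = (fun a => a * (Φ S * g)) '' R := by rw [← h2, ← h4]
    have h7 : (fun a => a * (Φ S * g)⁻¹) '' ((fun a => a * u) '' R)
        = (fun a => a * (Φ S * g)⁻¹) '' ((fun a => a * (Φ S * g)) '' R) := by rw [h6]
    rw [image_image, image_image] at h7
    have h8 : (fun a : G => a * (Φ S * g) * (Φ S * g)⁻¹) = id := by
      funext a
      exact mul_inv_cancel_right a (Φ S * g)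
    have h9 : (fun a : G => a * u * (Φ S * g)⁻¹) = fun a => a * (u * (Φ S * g)⁻¹) := by
      funext a
      rw [mul_assoc]
    rw [h9, h8, image_id] at h7
    exact h7
  have h10 := d1_free hRfin hRne h5
  exact mul_inv_eq_one.mp h10

end RowD1

section RowD2

open Set Filter Topology

variable {X Y : Type*} [MetricSpace X] [CompactSpace X] [MetricSpace Y] [CompactSpace Y]
  {f : X → Y} {G : Type} [Group G]

/-- [D2] -/
theorem exists_triv_on_comp (hf : Continuous f) (hX : HSC X) {K : Set Y} (hK : IsClosed K)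
    {x₀ : X} (hx₀ : f x₀ ∈ K) {ε : ℝ} (hε : 0 < ε) {T : Y → Y → G} (hT : Coc ε K T) :
    ∃ η : ℝ, 0 < η ∧ ∃ h : X → G, TrivBy η (cc f K x₀) h (fun x x' => T (f x) (f x')) := by
  have huc : UniformContinuous f := CompactSpace.uniformContinuous_of_continuous hf
  obtain ⟨δ, hδ, hd⟩ := Metric.uniformContinuous_iff.mp huc ε hε
  refine hX (cc f K x₀) (ctm_cc hf hK hx₀) G δ hδ (fun x x' => T (f x) (f x')) ?_
  intro x hx y hy z hz h1 h2 h3
  exact hT (f x) (cc_sub f K x₀ hx) (f y) (cc_sub f K x₀ hy) (f z) (cc_sub f K x₀ hz)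
    (hd h1) (hd h2) (hd h3)

/-- [D2] -/
theorem fib_finite (hf : Continuous f) {K : Set Y} {A : Set X} (hA : IsClosed A)
    (hAK : ∀ x ∈ A, f x ∈ K) {ε : ℝ} (hε : 0 < ε) {T : Y → Y → G} (hT : Coc ε K T) {η : ℝ}
    (hη : 0 < η) {h : X → G} (hh : TrivBy η A h (fun x x' => T (f x) (f x'))) (y : Y) :
    (h '' (A ∩ f ⁻¹' {y})).Finite := by
  refine LocC.finite_image (K := A ∩ f ⁻¹' {y}) (g := h) ⟨η, hη, ?_⟩
    (hA.inter (isClosed_singleton.preimage hf))
  rintro x ⟨hx, hxy⟩ x' ⟨hx', hxy'⟩ hd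
  have hxy : f x = y := hxy
  have hxy' : f x' = y := hxy'
  have h1 := hh x hx x' hx' hd
  have hyK : y ∈ K := hxy ▸ hAK x hx
  simp only [hxy, hxy', hT.self hε hyK, mul_one] at h1
  exact h1

/-- [D2] -/
theorem fib_usc (hf : Continuous f) {A : Set X} (hA : IsClosed A) {T : Y → Y → G} {η : ℝ}
    (hη : 0 < η) {h : X → G} (hh : TrivBy η A h (fun x x' => T (f x) (f x'))) (y : Y) :
    ∃ δ : ℝ, 0 < δ ∧ ∀ y' : Y, dist y y' < δ →
      h '' (A ∩ f ⁻¹' {y'}) ⊆ (fun g => g * T y y') '' (h '' (A ∩ f ⁻¹' {y})) := by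
  obtain ⟨δ, hδ, hd⟩ := close_fibre hf hA y hη
  refine ⟨δ, hδ, ?_⟩
  rintro y' hy' _ ⟨x', ⟨hx', hxy'⟩, rfl⟩
  have hxy' : f x' = y' := hxy'
  obtain ⟨x, hx, hxy, hxx⟩ := hd x' hx' (by rw [hxy']; exact hy')
  refine ⟨h x, ⟨x, ⟨hx, hxy⟩, rfl⟩, ?_⟩
  have h1 := hh x hx x' hx' hxx
  simp only [hxy, hxy'] at h1
  exact h1

end RowD2

section RowD3

open Set Filter Topology

variable {X Y : Type*} [MetricSpace X] [CompactSpace X] [MetricSpace Y] [CompactSpace Y]
  {f : X → Y} {G : Type} [Group G]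

/-- [D3] -/
theorem fib_ncard_eq (hf : Continuous f) (hc : Conf f) {K : Set Y} (hK : IsClosed K) {x₀ : X}
    {ε : ℝ} (hε : 0 < ε) {T : Y → Y → G} (hT : Coc ε K T) {η : ℝ} (hη : 0 < η) {h : X → G}
    (hh : TrivBy η (cc f K x₀) h (fun x x' => T (f x) (f x'))) {L : Set Y} (hL : Ctm L)
    (hLK : L ⊆ K) (hLT : Triv L T) :
    ∀ y ∈ L, ∀ y' ∈ L, (h '' (cc f K x₀ ∩ f ⁻¹' {y})).ncard =
      (h '' (cc f K x₀ ∩ f ⁻¹' {y'})).ncard := by
  obtain ⟨η', hη', k, hk⟩ := hLT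
  set A := cc f K x₀ with hA
  have hφ : LocC (A ∩ f ⁻¹' L) (fun x => h x * (k (f x))⁻¹) := by
    obtain ⟨δ, hδ, hδ'⟩ := Metric.uniformContinuous_iff.1
      (CompactSpace.uniformContinuous_of_continuous hf) η' hη'
    refine ⟨min η δ, lt_min hη hδ, ?_⟩
    intro x hx x' hx' hxx'
    have h1 := hh x hx.1 x' hx'.1 (hxx'.trans_le (min_le_left _ _))
    have h2 := hk (f x) hx.2 (f x') hx'.2 (hδ' (hxx'.trans_le (min_le_right _ _)))
    simp only at h1 ⊢
    rw [← h1, ← h2]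
    group
  have key : ∀ y ∈ L, ∀ y' ∈ L, ∀ g ∈ h '' (A ∩ f ⁻¹' {y}),
      g * ((k y)⁻¹ * k y') ∈ h '' (A ∩ f ⁻¹' {y'}) := by
    rintro y hy y' hy' _ ⟨x, ⟨hxA, hxy⟩, rfl⟩
    have hfx : f x = y := hxy
    obtain ⟨x', hx', hfx'⟩ := hc.surj hL (x := x) (by rw [hfx]; exact hy) hy'
    have hsub : cc f L x ⊆ A ∩ f ⁻¹' L := fun z hz => ⟨cc_sub_cc hLK hxA hz, cc_sub f L x hz⟩
    have h3 := (hφ.mono hsub).const (isPreconnected_cc f L x) x
      (mem_cc (by rw [hfx]; exact hy)) x' hx'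
    simp only [hfx, hfx'] at h3
    refine ⟨x', ⟨(hsub hx').1, hfx'⟩, ?_⟩
    rw [← mul_assoc, h3]
    group
  intro y hy y' hy'
  have heq : h '' (A ∩ f ⁻¹' {y'}) = (fun g => g * ((k y)⁻¹ * k y')) '' (h '' (A ∩ f ⁻¹' {y})) := by
    apply subset_antisymm
    · intro g hg
      refine ⟨g * ((k y')⁻¹ * k y), key y' hy' y hy g hg, ?_⟩
      simp only
      group
    · rintro _ ⟨g, hg, rfl⟩
      exact key y hy y' hy' g hg
  rw [heq]
  exact (ncard_image_of_injective _ (mul_left_injective _)).symm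

end RowD3

section RowD4

open Set Filter Topology

variable {X Y : Type*} [MetricSpace X] [CompactSpace X] [MetricSpace Y] [CompactSpace Y]
  {f : X → Y} {G : Type} [Group G]

/-- [D4] -/
theorem triv_of_torsionfree [IsMulTorsionFree G] (hf : Continuous f) (hc : Conf f)
    (hs : Function.Surjective f) (hX : HSC X) {K : Set Y} (hK : IsClosed K) : SCG G K := by
  intro ε hε T hT
  by_contra hn
  obtain ⟨D₀, hDK, hD, hDn, hmin⟩ := exists_min_nontriv hε hK hT hn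
  obtain ⟨y₀, hy₀⟩ := hD.2.nonempty
  obtain ⟨x₀, rfl⟩ := hs y₀
  have hT' : Coc ε D₀ T := hT.mono hDK le_rfl
  obtain ⟨η, hη, h, hh⟩ := exists_triv_on_comp hf hX hD.1 (x₀ := x₀) hy₀ hε hT'
  have hA : IsClosed (cc f D₀ x₀) := isClosed_cc hf hD.1 x₀
  have hAK : ∀ x ∈ cc f D₀ x₀, f x ∈ D₀ := fun x hx => cc_sub f D₀ x₀ hx
  have hfin : ∀ y, (h '' (cc f D₀ x₀ ∩ f ⁻¹' {y})).Finite := fun y =>
    fib_finite hf hA hAK hε hT' hη hh y
  have hne : ∀ y ∈ D₀, (h '' (cc f D₀ x₀ ∩ f ⁻¹' {y})).Nonempty := by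
    intro y hy
    obtain ⟨x, hx, hxy⟩ := hc.surj hD hy₀ hy
    exact ⟨h x, x, ⟨hx, hxy⟩, rfl⟩
  have hle : ∀ y y' : Y, h '' (cc f D₀ x₀ ∩ f ⁻¹' {y'}) ⊆
      (fun g => g * T y y') '' (h '' (cc f D₀ x₀ ∩ f ⁻¹' {y})) →
      (h '' (cc f D₀ x₀ ∩ f ⁻¹' {y'})).ncard ≤ (h '' (cc f D₀ x₀ ∩ f ⁻¹' {y})).ncard := by
    intro y y' hsub
    calc _ ≤ ((fun g => g * T y y') '' (h '' (cc f D₀ x₀ ∩ f ⁻¹' {y}))).ncard :=
          Set.ncard_le_ncard hsub ((hfin y).image _)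
      _ ≤ _ := Set.ncard_image_le (hfin y)
  have hconst := const_of_composant hD (n := fun y => (h '' (cc f D₀ x₀ ∩ f ⁻¹' {y})).ncard)
    (fun L hLD hL hLne => fib_ncard_eq hf hc hD.1 hε hT' hη hh hL hLD (hmin L hLD hL.1 hLne))
    (fun y _ => by
      obtain ⟨δ, hδ, hy⟩ := fib_usc hf hA hη hh y
      exact ⟨δ, hδ, fun y' _ hd => hle y y' (hy y' hd)⟩)
  have heq : ∀ y : Y, ∃ δ : ℝ, 0 < δ ∧ (y ∈ D₀ → ∀ y' ∈ D₀, dist y y' < δ →
      h '' (cc f D₀ x₀ ∩ f ⁻¹' {y'}) =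
        (fun g => g * T y y') '' (h '' (cc f D₀ x₀ ∩ f ⁻¹' {y}))) := by
    intro y
    obtain ⟨δ, hδ, hyδ⟩ := fib_usc hf hA hη hh y
    refine ⟨δ, hδ, fun hy y' hy' hd => ?_⟩
    refine Set.eq_of_subset_of_ncard_le (hyδ y' hd) ?_ ((hfin y).image _)
    calc _ ≤ (h '' (cc f D₀ x₀ ∩ f ⁻¹' {y})).ncard := Set.ncard_image_le (hfin y)
      _ = _ := hconst y hy y' hy'
  choose δ hδ hδeq using heq
  obtain ⟨ρ, hρ, hleb⟩ := lebesgue_number_lemma_of_metric (s := D₀)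
    (c := fun y : D₀ => Metric.ball (y : Y) (min (δ y) ε)) hD.1.isCompact
    (fun y => Metric.isOpen_ball)
    (fun y hy => mem_iUnion.2 ⟨⟨y, hy⟩, Metric.mem_ball_self (lt_min (hδ y) hε)⟩)
  obtain ⟨Φ, hΦ⟩ := exists_equivariant G
  apply hDn
  refine ⟨min ρ ε, lt_min hρ hε, fun y => Φ (h '' (cc f D₀ x₀ ∩ f ⁻¹' {y})), ?_⟩
  intro y hy y' hy' hd
  obtain ⟨⟨z, hz⟩, hzb⟩ := hleb y hy
  have h1 : dist z y < min (δ z) ε := by
    have := hzb (Metric.mem_ball_self hρ)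
    rwa [Metric.mem_ball, dist_comm] at this
  have h2 : dist z y' < min (δ z) ε := by
    have := hzb (show y' ∈ Metric.ball y ρ by
      rw [Metric.mem_ball, dist_comm]; exact hd.trans_le (min_le_left _ _))
    rwa [Metric.mem_ball, dist_comm] at this
  have e1 := hδeq z hz y hy (h1.trans_le (min_le_left _ _))
  have e2 := hδeq z hz y' hy' (h2.trans_le (min_le_left _ _))
  have hcoc : T z y * T y y' = T z y' := hT' z hz y hy y' hy' (h1.trans_le (min_le_right _ _))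
    (hd.trans_le (min_le_right _ _)) (h2.trans_le (min_le_right _ _))
  have e3 : h '' (cc f D₀ x₀ ∩ f ⁻¹' {y'}) =
      (fun g => g * T y y') '' (h '' (cc f D₀ x₀ ∩ f ⁻¹' {y})) := by
    rw [e1, e2, ← hcoc, Set.image_image]
    have : ∀ g : G, g * (T z y * T y y') = g * T z y * T y y' := fun g => (mul_assoc _ _ _).symm
    simp only [this, Set.image_image]
  show Φ (h '' (cc f D₀ x₀ ∩ f ⁻¹' {y})) * T y y' = Φ (h '' (cc f D₀ x₀ ∩ f ⁻¹' {y'}))
  rw [e3, hΦ _ (hfin y) (hne y hy)]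

end RowD4

end Pool.Agent.MP_a56558_gt
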