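import Pool.Agent.MP_a56558_gt.WalkC

set_option autoImplicit false

namespace Pool.Agent.MP_a56558_gt

open Set Filter Topology

/-- Hereditarily unicoherent: the intersection of two subcontinua is empty or connected. -/
def HU (α : Type*) [TopologicalSpace α] : Prop :=
  ∀ K L : Set α, Ctm K → Ctm L → (K ∩ L).Nonempty → IsConnected (K ∩ L)

/-- No weak triods. -/
def WTF (α : Type*) [TopologicalSpace α] : Prop :=
  ∀ K L M : Set α, Ctm K → Ctm L → Ctm M → (∃ c, c ∈ K ∧ c ∈ L ∧ c ∈ M) →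
    K ⊆ L ∪ M ∨ L ⊆ K ∪ M ∨ M ⊆ K ∪ L

/-- Confluence, as in the frozen statement. -/
def Conf {X Y : Type*} [TopologicalSpace X] [TopologicalSpace Y] (f : X → Y) : Prop :=
  ∀ K : Set Y, IsClosed K → IsConnected K →
    ∀ x ∈ f ⁻¹' K, f '' connectedComponentIn (f ⁻¹' K) x = K

/-- The component of `f⁻¹ K` containing `x` (empty if `f x ∉ K`). -/
def cc {X Y : Type*} [TopologicalSpace X] (f : X → Y) (K : Set Y) (x : X) : Set X :=
  connectedComponentIn (f ⁻¹' K) x

section Rips

variable {X : Type*} [PseudoMetricSpace X] {G : Type*} [Group G] {β : Type*}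

/-- Rips cocycle at scale `ε` on `K` (values outside `K` are junk). -/
def Coc (ε : ℝ) (K : Set X) (T : X → X → G) : Prop :=
  ∀ x ∈ K, ∀ y ∈ K, ∀ z ∈ K, dist x y < ε → dist y z < ε → dist x z < ε → T x y * T y z = T x z

/-- `h` trivialises `T` on `K` at scale `η`. -/
def TrivBy (η : ℝ) (K : Set X) (h : X → G) (T : X → X → G) : Prop :=
  ∀ x ∈ K, ∀ y ∈ K, dist x y < η → h x * T x y = h y

/-- `T` is trivial on `K` at some scale. -/
def Triv (K : Set X) (T : X → X → G) : Prop :=
  ∃ η : ℝ, 0 < η ∧ ∃ h : X → G, TrivBy η K h T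

/-- All `G`-valued Rips cocycles on `K` are trivial. -/
def SCG (G : Type*) [Group G] (K : Set X) : Prop :=
  ∀ ε : ℝ, 0 < ε → ∀ T : X → X → G, Coc ε K T → Triv K T

/-- All Rips cocycles on `K` are trivial. -/
def SC (K : Set X) : Prop := ∀ (G : Type) [Group G], SCG G K

/-- Uniformly locally constant on `K`. -/
def LocC (K : Set X) (g : X → β) : Prop :=
  ∃ η : ℝ, 0 < η ∧ ∀ x ∈ K, ∀ y ∈ K, dist x y < η → g x = g y

/-- Two sets are within `η` of each other. -/
def HNear (η : ℝ) (A B : Set X) : Prop :=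
  (∀ a ∈ A, ∃ b ∈ B, dist a b < η) ∧ (∀ b ∈ B, ∃ a ∈ A, dist b a < η)

end Rips

/-- Every subcontinuum satisfies `SC`. -/
def HSC (X : Type*) [PseudoMetricSpace X] : Prop := ∀ K : Set X, Ctm K → SC K

/-! ### trivial lemmas on the definitions -/

section basic

variable {X : Type*} [PseudoMetricSpace X] {G : Type*} [Group G] {β : Type*}

theorem Coc.self {ε : ℝ} {K : Set X} {T : X → X → G} (hT : Coc ε K T) (hε : 0 < ε) {x : X}
    (hx : x ∈ K) : T x x = 1 := by
  have h : dist x x < ε := by rw [dist_self]; exact hε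
  have := hT x hx x hx x hx h h h
  exact mul_eq_left.mp this

theorem Coc.inv {ε : ℝ} {K : Set X} {T : X → X → G} (hT : Coc ε K T) (hε : 0 < ε) {x y : X}
    (hx : x ∈ K) (hy : y ∈ K) (hxy : dist x y < ε) : T x y * T y x = 1 := by
  have h : dist x x < ε := by rw [dist_self]; exact hε
  have := hT x hx y hy x hx hxy (by rwa [dist_comm]) h
  rw [this, hT.self hε hx]

theorem Coc.mono {ε ε' : ℝ} {K L : Set X} {T : X → X → G} (hT : Coc ε K T) (h : L ⊆ K)
    (he : ε' ≤ ε) : Coc ε' L T := fun x hx y hy z hz h1 h2 h3 =>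
  hT x (h hx) y (h hy) z (h hz) (h1.trans_le he) (h2.trans_le he) (h3.trans_le he)

theorem TrivBy.mono {η η' : ℝ} {K L : Set X} {h : X → G} {T : X → X → G} (hT : TrivBy η K h T)
    (hL : L ⊆ K) (he : η' ≤ η) : TrivBy η' L h T := fun x hx y hy h1 =>
  hT x (hL hx) y (hL hy) (h1.trans_le he)

theorem Triv.mono {K L : Set X} {T : X → X → G} (hT : Triv K T) (hL : L ⊆ K) : Triv L T := by
  obtain ⟨η, hη, h, hh⟩ := hT
  exact ⟨η, hη, h, hh.mono hL le_rfl⟩

theorem LocC.mono {K L : Set X} {g : X → β} (hg : LocC K g) (hL : L ⊆ K) : LocC L g := by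
  obtain ⟨η, hη, h⟩ := hg
  exact ⟨η, hη, fun x hx y hy => h x (hL hx) y (hL hy)⟩

theorem LocC.comp {γ : Type*} {K : Set X} {g : X → β} (hg : LocC K g) (φ : β → γ) :
    LocC K (fun x => φ (g x)) := by
  obtain ⟨η, hη, h⟩ := hg
  exact ⟨η, hη, fun x hx y hy hxy => congrArg φ (h x hx y hy hxy)⟩

theorem LocC.comp₂ {γ δ : Type*} {K : Set X} {g : X → β} {g' : X → γ} (hg : LocC K g)
    (hg' : LocC K g') (φ : β → γ → δ) : LocC K (fun x => φ (g x) (g' x)) := by
  obtain ⟨η, hη, h⟩ := hg
  obtain ⟨η', hη', h'⟩ := hg'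
  exact ⟨min η η', lt_min hη hη', fun x hx y hy hxy => congrArg₂ φ
    (h x hx y hy (hxy.trans_le (min_le_left _ _))) (h' x hx y hy (hxy.trans_le (min_le_right _ _)))⟩

end basic

/-! ### components -/

section components

variable {X Y : Type*} [TopologicalSpace X]

theorem cc_sub (f : X → Y) (K : Set Y) (x : X) : cc f K x ⊆ f ⁻¹' K :=
  connectedComponentIn_subset _ _

theorem mem_cc {f : X → Y} {K : Set Y} {x : X} (hx : f x ∈ K) : x ∈ cc f K x :=
  mem_connectedComponentIn hx

theorem isConnected_cc {f : X → Y} {K : Set Y} {x : X} (hx : f x ∈ K) : IsConnected (cc f K x) :=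
  isConnected_connectedComponentIn_iff.mpr hx

theorem isPreconnected_cc (f : X → Y) (K : Set Y) (x : X) : IsPreconnected (cc f K x) :=
  isPreconnected_connectedComponentIn

theorem sub_cc {f : X → Y} {K : Set Y} {x : X} {C : Set X} (hC : IsPreconnected C) (hx : x ∈ C)
    (hCK : C ⊆ f ⁻¹' K) : C ⊆ cc f K x :=
  hC.subset_connectedComponentIn hx hCK

theorem cc_eq {f : X → Y} {K : Set Y} {x x' : X} (h : x' ∈ cc f K x) : cc f K x' = cc f K x :=
  (connectedComponentIn_eq h).symm

theorem cc_mono (f : X → Y) {K L : Set Y} (h : L ⊆ K) (x : X) : cc f L x ⊆ cc f K x :=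
  connectedComponentIn_mono x (preimage_mono h)

/-- a component over a smaller set, through a point of a component over a bigger set, is contained
in it -/
theorem cc_sub_cc {f : X → Y} {K L : Set Y} (h : L ⊆ K) {x x' : X} (hx' : x' ∈ cc f K x) :
    cc f L x' ⊆ cc f K x := by
  rw [← cc_eq hx']; exact cc_mono f h x'

theorem isClosed_cc [TopologicalSpace Y] {f : X → Y} (hf : Continuous f) {K : Set Y}
    (hK : IsClosed K) (x : X) : IsClosed (cc f K x) := by
  by_cases hx : f x ∈ K
  · have h := (isPreconnected_cc f K x).closure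
    have h2 : closure (cc f K x) ⊆ f ⁻¹' K :=
      closure_minimal (cc_sub f K x) (hK.preimage hf)
    have h3 := sub_cc h (subset_closure (mem_cc hx)) h2
    exact closure_subset_iff_isClosed.mp h3
  · have : cc f K x = ∅ := connectedComponentIn_eq_empty hx
    rw [this]; exact isClosed_empty

theorem ctm_cc [TopologicalSpace Y] {f : X → Y} (hf : Continuous f) {K : Set Y}
    (hK : IsClosed K) {x : X} (hx : f x ∈ K) : Ctm (cc f K x) :=
  ⟨isClosed_cc hf hK x, isConnected_cc hx⟩

theorem Conf.surj [TopologicalSpace Y] {f : X → Y} (hf : Conf f) {K : Set Y} (hK : Ctm K) {x : X}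
    (hx : f x ∈ K) {y : Y} (hy : y ∈ K) : ∃ x' ∈ cc f K x, f x' = y := by
  have h := hf K hK.1 hK.2 x hx
  rw [← h] at hy
  exact hy

end components

end Pool.Agent.MP_a56558_gt
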