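import Pool.Agent.MP_a56558_gt.F.FD

set_option autoImplicit false

namespace Pool.Agent.MP_a56558_gt

open Set Filter Topology

section RowF1

open Set Filter Topology

open scoped Classical in
/-- extension of `g` to the `ρ`-neighbourhood of `C` -/
noncomputable def f1_ext {Y : Type*} [MetricSpace Y] {G : Type*} [Group G] (C : Set Y) (ρ : ℝ)
    (g : Y → G) (x : Y) : G :=
  if h : ∃ z ∈ C, dist x z < ρ then g h.choose else 1

theorem f1_ext_eq {Y : Type*} [MetricSpace Y] {G : Type*} [Group G] {C : Set Y} {ρ δ : ℝ}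
    {g : Y → G} (hg : ∀ x ∈ C, ∀ y ∈ C, dist x y < δ → g x = g y) (hρ : 3 * ρ ≤ δ) {x z : Y}
    (hz : z ∈ C) {r : ℝ} (hr : r ≤ 2 * ρ) (hxz : dist x z < r) (hx : ∃ z ∈ C, dist x z < ρ) :
    f1_ext C ρ g x = g z := by
  unfold f1_ext
  rw [dif_pos hx]
  obtain ⟨h1, h2⟩ := hx.choose_spec
  refine hg _ h1 _ hz ?_
  calc dist hx.choose z ≤ dist hx.choose x + dist x z := dist_triangle _ _ _
    _ < ρ + r := by rw [dist_comm hx.choose x]; exact add_lt_add h2 hxz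
    _ ≤ δ := by linarith

theorem f1_ext_congr {Y : Type*} [MetricSpace Y] {G : Type*} [Group G] {C : Set Y} {ρ δ : ℝ}
    {g : Y → G} (hg : ∀ x ∈ C, ∀ y ∈ C, dist x y < δ → g x = g y) (hρ : 3 * ρ ≤ δ) {x x' : Y}
    (hx : ∃ z ∈ C, dist x z < ρ) (hx' : ∃ z ∈ C, dist x' z < ρ) (hxx : dist x x' < ρ) :
    f1_ext C ρ g x = f1_ext C ρ g x' := by
  obtain ⟨z, hz, hxz⟩ := hx
  have h1 : f1_ext C ρ g x' = g z := by
    refine f1_ext_eq hg hρ hz (r := 2 * ρ) le_rfl ?_ hx'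
    calc dist x' z ≤ dist x' x + dist x z := dist_triangle _ _ _
      _ < 2 * ρ := by rw [dist_comm x' x]; linarith
  have h2 : f1_ext C ρ g x = g z :=
    f1_ext_eq hg hρ hz (r := ρ) (by linarith [dist_nonneg.trans_lt hxz]) hxz ⟨z, hz, hxz⟩
  rw [h1, h2]

section

variable {Y : Type*} [MetricSpace Y] [CompactSpace Y]

open scoped Classical in
/-- [F1] -/
theorem mayer_vietoris {G : Type*} [Group G] {C₁ C₂ : Set Y} (h1 : IsClosed C₁) (h2 : IsClosed C₂)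
    (hS : SCG G (C₁ ∪ C₂)) {g : Y → G} (hg : LocC (C₁ ∩ C₂) g) :
    ∃ a₁ a₂ : Y → G, LocC C₁ a₁ ∧ LocC C₂ a₂ ∧ ∀ y ∈ C₁ ∩ C₂, a₁ y * g y = a₂ y := by
  obtain ⟨δ, hδ, hg⟩ := hg
  set ρ : ℝ := δ / 3 with hρ
  have hρ0 : 0 < ρ := by positivity
  have hρδ : 3 * ρ ≤ δ := by rw [hρ]; linarith
  obtain ⟨δ₁, hδ₁, hnear⟩ := near_both h1 h2 hρ0
  set ε : ℝ := min δ₁ ρ with hε
  have hε0 : 0 < ε := lt_min hδ₁ hρ0
  set e : Y → G := f1_ext (C₁ ∩ C₂) ρ g with he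
  have hcongr : ∀ x x', (∃ z ∈ C₁ ∩ C₂, dist x z < ρ) → (∃ z ∈ C₁ ∩ C₂, dist x' z < ρ) →
      dist x x' < ε → e x = e x' := fun x x' hx hx' hxx =>
    f1_ext_congr hg hρδ hx hx' (hxx.trans_le (min_le_right _ _))
  have hnl : ∀ x ∈ C₁, ∀ y ∈ C₂, dist x y < ε → ∃ z ∈ C₁ ∩ C₂, dist x z < ρ := by
    intro x hx y hy hxy
    obtain ⟨z, hz, h3, -⟩ := hnear x hx y hy (hxy.trans_le (min_le_left _ _))
    exact ⟨z, hz, h3⟩
  have hself : ∀ x ∈ C₁ ∩ C₂, e x = g x := by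
    intro x hx
    refine f1_ext_eq hg hρδ hx (r := ρ) (by linarith) (by rw [dist_self]; exact hρ0)
      ⟨x, hx, by rw [dist_self]; exact hρ0⟩
  let T : Y → Y → G := fun x y =>
    if x ∈ C₁ then (if y ∈ C₁ then 1 else e x) else (if y ∈ C₁ then (e y)⁻¹ else 1)
  have hT : Coc ε (C₁ ∪ C₂) T := by
    intro x hx y hy z hz hxy hyz hxz
    by_cases cx : x ∈ C₁ <;> by_cases cy : y ∈ C₁ <;> by_cases cz : z ∈ C₁ <;>
      simp only [T, if_pos, if_neg, cx, cy, cz, not_false_eq_true, mul_one, one_mul,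
        inv_mul_cancel]
    · -- in in out
      have hz2 : z ∈ C₂ := hz.resolve_left cz
      exact (hcongr x y (hnl x cx z hz2 hxz) (hnl y cy z hz2 hyz) hxy).symm
    · -- in out in
      have hy2 : y ∈ C₂ := hy.resolve_left cy
      have := hcongr x z (hnl x cx y hy2 hxy) (hnl z cz y hy2 (by rw [dist_comm]; exact hyz)) hxz
      rw [this, mul_inv_cancel]
    · -- out in in
      have hx2 : x ∈ C₂ := hx.resolve_left cx
      have := hcongr y z (hnl y cy x hx2 (by rw [dist_comm]; exact hxy))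
        (hnl z cz x hx2 (by rw [dist_comm]; exact hxz)) hyz
      rw [this]
  obtain ⟨η, hη, h, hh⟩ := hS ε hε0 T hT
  refine ⟨h, fun y => if y ∈ C₁ then h y * e y else h y, ⟨η, hη, ?_⟩, ⟨min η ε, lt_min hη hε0, ?_⟩,
    ?_⟩
  · intro x hx y hy hxy
    have := hh x (Or.inl hx) y (Or.inl hy) hxy
    simp only [T, if_pos hx, if_pos hy, mul_one] at this
    exact this
  · intro x hx y hy hxy
    have hη' := hxy.trans_le (min_le_left _ _)
    have hε' := hxy.trans_le (min_le_right η ε)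
    have := hh x (Or.inr hx) y (Or.inr hy) hη'
    by_cases cx : x ∈ C₁ <;> by_cases cy : y ∈ C₁
    · simp only [T, if_pos cx, if_pos cy, mul_one] at this ⊢
      rw [this, hcongr x y ⟨x, ⟨cx, hx⟩, by rw [dist_self]; exact hρ0⟩
        ⟨y, ⟨cy, hy⟩, by rw [dist_self]; exact hρ0⟩ hε']
    · simp only [T, if_pos cx, if_neg cy] at this ⊢
      exact this
    · simp only [T, if_neg cx, if_pos cy] at this ⊢
      rw [← this, inv_mul_cancel_right]
    · simp only [T, if_neg cx, if_neg cy, mul_one] at this ⊢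
      exact this
  · intro y hy
    simp only [if_pos hy.1]
    rw [hself y hy]

end

end RowF1

section RowF2

open Set Filter Topology

/-- [F2] -/
theorem hu_of_hsc {Y : Type*} [MetricSpace Y] [CompactSpace Y] (hY : HSC Y) : HU Y := by
  classical
  intro K L hK hL hne
  refine ⟨hne, ?_⟩
  rw [isPreconnected_closed_iff]
  intro t t' ht ht' hcov ⟨y₁, hy₁, hy₁t⟩ ⟨y₂, hy₂, hy₂t⟩
  by_contra hemp
  set P : Set Y := K ∩ L ∩ t with hP
  set Q : Set Y := K ∩ L ∩ t' with hQ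
  have hPc : IsClosed P := (hK.1.inter hL.1).inter ht
  have hQc : IsClosed Q := (hK.1.inter hL.1).inter ht'
  have hPQ : ∀ y ∈ Q, y ∉ P := fun y hy hy' => hemp ⟨y, hy.1, hy'.2, hy.2⟩
  have hun : P ∪ Q = K ∩ L := by
    apply Subset.antisymm
    · exact union_subset inter_subset_left inter_subset_left
    · intro y hy
      rcases hcov hy with h | h
      · exact Or.inl ⟨hy, h⟩
      · exact Or.inr ⟨hy, h⟩
  set g : Y → Multiplicative ℤ := fun y => if y ∈ P then 1 else Multiplicative.ofAdd 1 with hg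
  have hgP : LocC P g := ⟨1, one_pos, fun x hx y hy _ => by simp only [hg, if_pos hx, if_pos hy]⟩
  have hgQ : LocC Q g := ⟨1, one_pos, fun x hx y hy _ => by
    simp only [hg, if_neg (hPQ x hx), if_neg (hPQ y hy)]⟩
  have hgL : LocC (K ∩ L) g := by
    rw [← hun]
    exact LocC.union hPc hQc hgP hgQ
  have hKL : Ctm (K ∪ L) := ⟨hK.1.union hL.1, hK.2.union hne hL.2⟩
  obtain ⟨a₁, a₂, h1, h2, h3⟩ := mayer_vietoris hK.1 hL.1 (hY _ hKL (Multiplicative ℤ)) hgL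
  have e1 := h3 y₁ hy₁
  have e2 := h3 y₂ hy₂
  have c1 := LocC.const h1 hK.2.isPreconnected y₁ hy₁.1 y₂ hy₂.1
  have c2 := LocC.const h2 hL.2.isPreconnected y₁ hy₁.2 y₂ hy₂.2
  have g1 : g y₁ = 1 := if_pos ⟨hy₁, hy₁t⟩
  have g2 : g y₂ = Multiplicative.ofAdd 1 := if_neg (hPQ y₂ ⟨hy₂, hy₂t⟩)
  rw [g1, mul_one] at e1
  rw [g2, ← c1, ← c2, e1] at e2
  have e3 : (Multiplicative.ofAdd (1 : ℤ)) = 1 := by
    rw [← e1] at e2
    exact mul_eq_left.mp e2
  exact absurd (congrArg Multiplicative.toAdd e3) (by norm_num)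

end RowF2

section RowE1

open Set Filter Topology

theorem e1_locC {Y : Type*} [PseudoMetricSpace Y] {G : Type*} [Group G] {C₁ C₂ : Set Y}
    {T : Y → Y → G} {η₁ η₂ : ℝ} {h₁ h₂ : Y → G} (hη₁ : 0 < η₁) (hη₂ : 0 < η₂)
    (ht₁ : TrivBy η₁ C₁ h₁ T) (ht₂ : TrivBy η₂ C₂ h₂ T) :
    LocC (C₁ ∩ C₂) (fun x => h₁ x * (h₂ x)⁻¹) := by
  refine ⟨min η₁ η₂, lt_min hη₁ hη₂, ?_⟩
  intro x hx y hy hxy
  have e1 := ht₁ x hx.1 y hy.1 (hxy.trans_le (min_le_left _ _))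
  have e2 := ht₂ x hx.2 y hy.2 (hxy.trans_le (min_le_right _ _))
  simp only
  rw [← e1, ← e2]
  group

theorem e1_half {Y : Type*} [PseudoMetricSpace Y] {G H : Type*} [Group G] [Group H] {C : Set Y}
    {T : Y → Y → G} {η : ℝ} {h : Y → G} (hη : 0 < η) (ht : TrivBy η C h T) {a : Y → H}
    (ha : LocC C a) (π : H →* G) {h' : Y → G} (hh' : ∀ y ∈ C, h' y = π (a y) * h y) :
    ∃ ρ : ℝ, 0 < ρ ∧ TrivBy ρ C h' T := by
  obtain ⟨η', hη', ha'⟩ := ha
  refine ⟨min η η', lt_min hη hη', ?_⟩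
  intro x hx y hy hxy
  have e1 := ht x hx y hy (hxy.trans_le (min_le_left _ _))
  have e2 := ha' x hx y hy (hxy.trans_le (min_le_right _ _))
  rw [hh' x hx, hh' y hy, mul_assoc, e1, e2]

/-- [E1] -/
theorem hsc_of_confluent {X Y : Type*} [MetricSpace X] [CompactSpace X] [MetricSpace Y]
    [CompactSpace Y] {f : X → Y} (hf : Continuous f) (hc : Conf f)
    (hs : Function.Surjective f) (hX : HSC X) : HSC Y := by
  classical
  intro K hK G _ ε hε T hT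
  by_contra hn
  obtain ⟨D, hDK, hDc, hDn, hDmin⟩ := exists_min_nontriv hε hK.1 hT hn
  have hTD : Coc ε D T := hT.mono hDK le_rfl
  have hnsub : ¬ D.Subsingleton := by
    intro hsub
    apply hDn
    refine ⟨1, one_pos, fun _ => 1, ?_⟩
    intro x hx y hy _
    rw [hsub hx hy, hTD.self hε hy, mul_one]
  obtain ⟨p₁, hp₁, p₂, hp₂, hne⟩ := Set.not_subsingleton_iff.1 hnsub
  set C₁ : Set Y := D ∩ {y | dist y p₁ ≤ dist y p₂} with hC₁
  set C₂ : Set Y := D ∩ {y | dist y p₂ ≤ dist y p₁} with hC₂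
  have hc1 : IsClosed C₁ := hDc.1.inter
    (isClosed_le (continuous_id.dist continuous_const) (continuous_id.dist continuous_const))
  have hc2 : IsClosed C₂ := hDc.1.inter
    (isClosed_le (continuous_id.dist continuous_const) (continuous_id.dist continuous_const))
  have hun : C₁ ∪ C₂ = D := by
    ext y
    constructor
    · rintro (h | h)
      · exact h.1
      · exact h.1
    · intro h
      rcases le_total (dist y p₁) (dist y p₂) with h' | h'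
      · exact Or.inl ⟨h, h'⟩
      · exact Or.inr ⟨h, h'⟩
  have hne1 : C₁ ≠ D := by
    intro h
    have h2 : p₂ ∈ C₁ := by rw [h]; exact hp₂
    have h3 : dist p₂ p₁ ≤ dist p₂ p₂ := h2.2
    rw [dist_self] at h3
    exact hne (dist_le_zero.1 h3).symm
  have hne2 : C₂ ≠ D := by
    intro h
    have h2 : p₁ ∈ C₂ := by rw [h]; exact hp₁
    have h3 : dist p₁ p₂ ≤ dist p₁ p₁ := h2.2
    rw [dist_self] at h3
    exact hne (dist_le_zero.1 h3)
  obtain ⟨η₁, hη₁, h₁, ht₁⟩ := hDmin C₁ inter_subset_left hc1 hne1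
  obtain ⟨η₂, hη₂, h₂, ht₂⟩ := hDmin C₂ inter_subset_left hc2 hne2
  have hk := e1_locC hη₁ hη₂ ht₁ ht₂
  have hS : SCG (FreeGroup G) (C₁ ∪ C₂) :=
    triv_of_torsionfree hf hc hs hX (hc1.union hc2)
  obtain ⟨a₁, a₂, ha₁, ha₂, ha⟩ := mayer_vietoris hc1 hc2 hS (hk.comp FreeGroup.of)
  set π : FreeGroup G →* G := FreeGroup.lift id with hπ
  set h : Y → G := fun y => if y ∈ C₁ then π (a₁ y) * h₁ y else π (a₂ y) * h₂ y with hh
  have hh1 : ∀ y ∈ C₁, h y = π (a₁ y) * h₁ y := by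
    intro y hy
    simp only [hh, if_pos hy]
  have hh2 : ∀ y ∈ C₂, h y = π (a₂ y) * h₂ y := by
    intro y hy
    by_cases hy1 : y ∈ C₁
    · rw [hh1 y hy1, ← ha y ⟨hy1, hy⟩, map_mul]
      have : π (FreeGroup.of (h₁ y * (h₂ y)⁻¹)) = h₁ y * (h₂ y)⁻¹ := by
        rw [hπ, FreeGroup.lift_apply_of]; rfl
      rw [this]
      group
    · simp only [hh, if_neg hy1]
  obtain ⟨ρ₁, hρ₁, hr₁⟩ := e1_half hη₁ ht₁ ha₁ π hh1
  obtain ⟨ρ₂, hρ₂, hr₂⟩ := e1_half hη₂ ht₂ ha₂ π hh2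
  have hTu : Coc ε (C₁ ∪ C₂) T := by rw [hun]; exact hTD
  obtain ⟨η', hη', ht'⟩ := trivBy_glue hc1 hc2 hε hTu (lt_min hρ₁ hρ₂)
    (hr₁.mono Subset.rfl (min_le_left _ _)) (hr₂.mono Subset.rfl (min_le_right _ _))
  apply hDn
  rw [← hun]
  exact ⟨η', hη', h, ht'⟩

end RowE1

end Pool.Agent.MP_a56558_gt
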