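import Pool.Agent.MP_a56558_gt.F.FE

set_option autoImplicit false

namespace Pool.Agent.MP_a56558_gt

open Set Filter Topology

/-- Limits (along `U`) of images of subcontinua of the `N j`. -/
def LimC {Y : Type*} [PseudoMetricSpace Y] {N : ℕ → Type} [∀ j, TopologicalSpace (N j)]
    (U : Ultrafilter ℕ) (α : ∀ j, N j → Y) (G : Set Y) : Prop :=
  ∀ η : ℝ, 0 < η → ∀ᶠ j in (U : Filter ℕ), ∃ D : Set (N j), Ctm D ∧ HNear η (α j '' D) G


section RowG1

open Set Filter Topology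

variable {Y : Type*} [MetricSpace Y] [CompactSpace Y]

theorem g1_infDist_zero {A : Set Y} (hA : IsClosed A) (hne : A.Nonempty) {y : Y}
    (h : Metric.infDist y A = 0) : y ∈ A :=
  (hA.mem_iff_infDist_zero hne).2 h

theorem g1_closed_le (A B : Set Y) : IsClosed {y : Y | Metric.infDist y A ≤ Metric.infDist y B} :=
  isClosed_le (Metric.continuous_infDist_pt A) (Metric.continuous_infDist_pt B)

theorem g1_congr {β : Type*} {K : Set Y} {g g' : Y → β} (h : LocC K g)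
    (he : ∀ y ∈ K, g' y = g y) : LocC K g' := by
  obtain ⟨η, hη, h1⟩ := h
  exact ⟨η, hη, fun x hx y hy hxy => by rw [he x hx, he y hy, h1 x hx y hy hxy]⟩

/-- [G1] the functions `u`, `v` cutting a neighbourhood `W` of the component `C` -/
theorem cut_functions {K L Ml Mr C : Set Y} (hK : Ctm K)
    (hSC : SCG (Multiplicative ℤ) K) (hL : Ctm L) (hMl : Ctm Ml) (hMr : Ctm Mr) (hMlK : Ml ⊆ K)
    (hMrK : Mr ⊆ K) (hint : Ml ∩ Mr = L) {η : ℝ} (hη : 0 < η) {c : ℝ} (hc : 0 < c) {p : Y}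
    (hp : p ∈ L) (hC : C = connectedComponentIn (K ∩ {y | Metric.infDist y L ≤ η}) p)
    (hCM : C ⊆ Ml ∪ Mr) :
    ∃ (W V : Set Y) (u v : Y → ℤ), IsClosed W ∧ IsClosed V ∧ W ∪ V = K ∧
      (∀ y ∈ W, Metric.infDist y L ≤ η ∧ Metric.infDist y C ≤ c) ∧
      (∀ y ∈ W ∩ V, Metric.infDist y L = η ∧ Metric.infDist y Ml ≠ Metric.infDist y Mr) ∧
      LocC W u ∧ LocC V v ∧
      (∀ y ∈ W ∩ V, Metric.infDist y Ml < Metric.infDist y Mr → v y = u y) ∧
      (∀ y ∈ W ∩ V, Metric.infDist y Mr < Metric.infDist y Ml → v y = u y + 1) ∧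
      (∀ y ∈ Ml ∩ V, v y = 0) ∧ (∀ y ∈ Mr ∩ V, v y = 1) := by
  classical
  have hpMl : p ∈ Ml := by rw [← hint] at hp; exact hp.1
  have hpMr : p ∈ Mr := by rw [← hint] at hp; exact hp.2
  have hpK : p ∈ K := hMlK hpMl
  have hLne : L.Nonempty := ⟨p, hp⟩
  have hMlne : Ml.Nonempty := ⟨p, hpMl⟩
  have hMrne : Mr.Nonempty := ⟨p, hpMr⟩
  have hpL0 : Metric.infDist p L = 0 := Metric.infDist_zero_of_mem hp
  set S : Set Y := K ∩ {y | Metric.infDist y L ≤ η} with hS
  have hScl : IsClosed S := hK.1.inter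
    (isClosed_le (Metric.continuous_infDist_pt L) continuous_const)
  have hpS : p ∈ S := ⟨hpK, by simp only [mem_setOf_eq]; rw [hpL0]; exact hη.le⟩
  have hpC : p ∈ C := by rw [hC]; exact mem_connectedComponentIn hpS
  set Q : Set Y := S ∩ ({y | Metric.infDist y L = η ∧ Metric.infDist y Ml = Metric.infDist y Mr} ∪
    {y | c ≤ Metric.infDist y C}) with hQ
  have hQcl : IsClosed Q := by
    refine hScl.inter (IsClosed.union ?_ ?_)
    · exact (isClosed_eq (Metric.continuous_infDist_pt L) continuous_const).inter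
        (isClosed_eq (Metric.continuous_infDist_pt Ml) (Metric.continuous_infDist_pt Mr))
    · exact isClosed_le continuous_const (Metric.continuous_infDist_pt C)
  have hCQ : ∀ y ∈ C, y ∉ Q := by
    rintro y hy ⟨hyS, h1 | h1⟩
    · obtain ⟨h2, h3⟩ := h1
      have hz : y ∈ L := by
        rw [← hint]
        rcases hCM hy with h4 | h4
        · have h5 : Metric.infDist y Mr = 0 := by
            rw [← h3]; exact Metric.infDist_zero_of_mem h4
          exact ⟨h4, g1_infDist_zero hMr.1 hMrne h5⟩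
        · have h5 : Metric.infDist y Ml = 0 := by
            rw [h3]; exact Metric.infDist_zero_of_mem h4
          exact ⟨g1_infDist_zero hMl.1 hMlne h5, h4⟩
      rw [Metric.infDist_zero_of_mem hz] at h2
      exact hη.ne h2
    · have h1' : c ≤ Metric.infDist y C := h1
      rw [Metric.infDist_zero_of_mem hy] at h1'
      exact absurd hc (not_lt.2 h1')
  obtain ⟨S₁, S₂, hS₁, hS₂, hdis, hcov, hPS, hQS⟩ := exists_separation (S := S) (P := {p}) (Q := Q)
    hScl.isCompact isClosed_singleton hQcl (singleton_subset_iff.2 hpS) inter_subset_left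
    (by
      rintro D hD hDc hDS ⟨a, haD, hap⟩ ⟨b, hbD, hbQ⟩
      rw [mem_singleton_iff] at hap
      subst hap
      have h1 : D ⊆ C := by
        rw [hC]; exact hDc.2.subset_connectedComponentIn haD hDS
      exact hCQ b (h1 hbD) hbQ)
  have hpS₁ : p ∈ S₁ := hPS rfl
  set V : Set Y := (K ∩ {y | η ≤ Metric.infDist y L}) ∪ S₂ with hV
  have hVcl : IsClosed V := (hK.1.inter
    (isClosed_le continuous_const (Metric.continuous_infDist_pt L))).union hS₂
  have hS₁S : S₁ ⊆ S := by rw [← hcov]; exact subset_union_left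
  have hS₂S : S₂ ⊆ S := by rw [← hcov]; exact subset_union_right
  have hWV : S₁ ∪ V = K := by
    apply Subset.antisymm
    · rintro y (hy | hy | hy)
      · exact (hS₁S hy).1
      · exact hy.1
      · exact (hS₂S hy).1
    · intro y hy
      by_cases h1 : Metric.infDist y L ≤ η
      · have h2 : y ∈ S₁ ∪ S₂ := by rw [hcov]; exact ⟨hy, h1⟩
        rcases h2 with h2 | h2
        · exact Or.inl h2
        · exact Or.inr (Or.inr h2)
      · exact Or.inr (Or.inl ⟨hy, (not_le.1 h1).le⟩)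
  have hW1 : ∀ y ∈ S₁, y ∉ Q := fun y hy hyQ => hdis.le_bot ⟨hy, hQS hyQ⟩
  have hWprop : ∀ y ∈ S₁, Metric.infDist y L ≤ η ∧ Metric.infDist y C ≤ c := by
    intro y hy
    refine ⟨(hS₁S hy).2, ?_⟩
    by_contra h1
    exact hW1 y hy ⟨hS₁S hy, Or.inr (not_le.1 h1).le⟩
  have hWVprop : ∀ y ∈ S₁ ∩ V, Metric.infDist y L = η ∧
      Metric.infDist y Ml ≠ Metric.infDist y Mr := by
    rintro y ⟨hy, hy2 | hy2⟩
    · have h1 : Metric.infDist y L = η := le_antisymm (hS₁S hy).2 hy2.2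
      exact ⟨h1, fun h2 => hW1 y hy ⟨hS₁S hy, Or.inl ⟨h1, h2⟩⟩⟩
    · exact absurd ⟨hy, hy2⟩ (fun h => hdis.le_bot h)
  -- the cocycle
  set g : Y → Multiplicative ℤ := fun y =>
    if Metric.infDist y Ml < Metric.infDist y Mr then 1 else Multiplicative.ofAdd 1 with hg
  have hgl : LocC (S₁ ∩ V) g := by
    have h1 : LocC ((S₁ ∩ V) ∩ {y | Metric.infDist y Ml ≤ Metric.infDist y Mr}) g := by
      refine ⟨1, one_pos, fun x hx y hy _ => ?_⟩
      have hx' : Metric.infDist x Ml < Metric.infDist x Mr :=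
        lt_of_le_of_ne hx.2 (hWVprop x hx.1).2
      have hy' : Metric.infDist y Ml < Metric.infDist y Mr :=
        lt_of_le_of_ne hy.2 (hWVprop y hy.1).2
      simp only [hg, if_pos hx', if_pos hy']
    have h2 : LocC ((S₁ ∩ V) ∩ {y | Metric.infDist y Mr ≤ Metric.infDist y Ml}) g := by
      refine ⟨1, one_pos, fun x hx y hy _ => ?_⟩
      have hx' : ¬ Metric.infDist x Ml < Metric.infDist x Mr := not_lt.2 hx.2
      have hy' : ¬ Metric.infDist y Ml < Metric.infDist y Mr := not_lt.2 hy.2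
      simp only [hg, if_neg hx', if_neg hy']
    refine (LocC.union ((hS₁.inter hVcl).inter (g1_closed_le Ml Mr))
      ((hS₁.inter hVcl).inter (g1_closed_le Mr Ml)) h1 h2).mono ?_
    intro y hy
    rcases le_total (Metric.infDist y Ml) (Metric.infDist y Mr) with h3 | h3
    · exact Or.inl ⟨hy, h3⟩
    · exact Or.inr ⟨hy, h3⟩
  obtain ⟨a₁, a₂, ha₁, ha₂, hag⟩ := mayer_vietoris hS₁ hVcl (by rw [hWV]; exact hSC) hgl
  set u : Y → ℤ := fun y => Multiplicative.toAdd (a₁ y) - Multiplicative.toAdd (a₁ p) with hu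
  set v : Y → ℤ := fun y => Multiplicative.toAdd (a₂ y) - Multiplicative.toAdd (a₁ p) with hv
  have hul : LocC S₁ u := ha₁.comp fun z => Multiplicative.toAdd z - Multiplicative.toAdd (a₁ p)
  have hvl : LocC V v := ha₂.comp fun z => Multiplicative.toAdd z - Multiplicative.toAdd (a₁ p)
  have huv1 : ∀ y ∈ S₁ ∩ V, Metric.infDist y Ml < Metric.infDist y Mr → v y = u y := by
    intro y hy h1
    have h2 := hag y hy
    simp only [hg, if_pos h1, mul_one] at h2
    simp only [hu, hv, h2]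
  have huv2 : ∀ y ∈ S₁ ∩ V, Metric.infDist y Mr < Metric.infDist y Ml → v y = u y + 1 := by
    intro y hy h1
    have h2 := hag y hy
    simp only [hg, if_neg (not_lt.2 h1.le)] at h2
    have h3 : Multiplicative.toAdd (a₂ y) = Multiplicative.toAdd (a₁ y) + 1 := by
      rw [← h2, toAdd_mul]; rfl
    simp only [hu, hv, h3]
    ring
  have hup : u p = 0 := by simp only [hu, sub_self]
  refine ⟨S₁, V, u, v, hS₁, hVcl, hWV, hWprop, hWVprop, hul, hvl, huv1, huv2, ?_, ?_⟩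
  · -- on `Ml`
    set φ : Y → ℤ := fun y => if y ∈ S₁ then u y else v y with hφ
    have hφV : ∀ y ∈ Ml ∩ V, φ y = v y := by
      intro y hy
      by_cases h1 : y ∈ S₁
      · have h2 : Metric.infDist y Ml < Metric.infDist y Mr := by
          have h3 := (hWVprop y ⟨h1, hy.2⟩).2
          rw [Metric.infDist_zero_of_mem hy.1] at h3 ⊢
          exact lt_of_le_of_ne Metric.infDist_nonneg h3
        simp only [hφ, if_pos h1]
        exact (huv1 y ⟨h1, hy.2⟩ h2).symm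
      · simp only [hφ, if_neg h1]
    have h1 : LocC (Ml ∩ S₁) φ := g1_congr (hul.mono inter_subset_right)
      (fun y hy => by simp only [hφ, if_pos hy.2])
    have h2 : LocC (Ml ∩ V) φ := g1_congr (hvl.mono inter_subset_right) hφV
    have h3 : LocC Ml φ := by
      refine (LocC.union (hMl.1.inter hS₁) (hMl.1.inter hVcl) h1 h2).mono ?_
      intro y hy
      have h4 : y ∈ S₁ ∪ V := by rw [hWV]; exact hMlK hy
      rcases h4 with h4 | h4
      · exact Or.inl ⟨hy, h4⟩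
      · exact Or.inr ⟨hy, h4⟩
    intro y hy
    rw [← hφV y hy, h3.const hMl.2.2 y hy.1 p hpMl]
    simp only [hφ, if_pos hpS₁, hup]
  · -- on `Mr`
    set φ : Y → ℤ := fun y => if y ∈ S₁ then u y + 1 else v y with hφ
    have hφV : ∀ y ∈ Mr ∩ V, φ y = v y := by
      intro y hy
      by_cases h1 : y ∈ S₁
      · have h2 : Metric.infDist y Mr < Metric.infDist y Ml := by
          have h3 := (hWVprop y ⟨h1, hy.2⟩).2
          rw [Metric.infDist_zero_of_mem hy.1] at h3 ⊢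
          exact lt_of_le_of_ne Metric.infDist_nonneg (Ne.symm h3)
        simp only [hφ, if_pos h1]
        exact (huv2 y ⟨h1, hy.2⟩ h2).symm
      · simp only [hφ, if_neg h1]
    have h1 : LocC (Mr ∩ S₁) φ := g1_congr ((hul.mono inter_subset_right).comp fun z => z + 1)
      (fun y hy => by simp only [hφ, if_pos hy.2])
    have h2 : LocC (Mr ∩ V) φ := g1_congr (hvl.mono inter_subset_right) hφV
    have h3 : LocC Mr φ := by
      refine (LocC.union (hMr.1.inter hS₁) (hMr.1.inter hVcl) h1 h2).mono ?_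
      intro y hy
      have h4 : y ∈ S₁ ∪ V := by rw [hWV]; exact hMrK hy
      rcases h4 with h4 | h4
      · exact Or.inl ⟨hy, h4⟩
      · exact Or.inr ⟨hy, h4⟩
    intro y hy
    rw [← hφV y hy, h3.const hMr.2.2 y hy.1 p hpMr]
    simp only [hφ, if_pos hpS₁, hup, zero_add]

end RowG1

section RowG2

open Set Filter Topology

theorem g2_closed {Y : Type*} [MetricSpace Y] {V : Set Y} (hV : IsClosed V) {v : Y → ℤ}
    (hv : LocC V v) (S : Set ℤ) : IsClosed {y | y ∈ V ∧ v y ∈ S} := by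
  obtain ⟨η, hη, h⟩ := hv
  refine isClosed_of_closure_subset fun y hy => ?_
  have hyV : y ∈ V := hV.closure_subset_iff.2 (fun z hz => hz.1) hy
  obtain ⟨y', hy', hd⟩ := Metric.mem_closure_iff.1 hy η hη
  refine ⟨hyV, ?_⟩
  rw [h y hyV y' hy'.1 hd]
  exact hy'.2

variable {Y : Type*} [MetricSpace Y] [CompactSpace Y]

/-- [G2] -/
theorem crossing {W V Pl Pr : Set Y} (hW : IsClosed W) (hV : IsClosed V) (hPl : IsClosed Pl)
    (hPr : IsClosed Pr) {u v : Y → ℤ} (hu : LocC W u) (hv : LocC V v)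
    (hWV : W ∩ V ⊆ Pl ∪ Pr) (hl : ∀ y ∈ W ∩ V, y ∈ Pl → v y = u y)
    (hr : ∀ y ∈ W ∩ V, y ∈ Pr → v y = u y + 1) {N : Type*} [TopologicalSpace N] [CompactSpace N]
    [T2Space N] [ConnectedSpace N] {α : N → Y} (hα : Continuous α) (hcov : ∀ q, α q ∈ W ∪ V)
    {q₀ q₁ : N} (h0 : α q₀ ∈ V) (h1 : α q₁ ∈ V) (hv0 : v (α q₀) = 0) (hv1 : v (α q₁) = 1) :
    ∃ D : Set N, Ctm D ∧ (∀ q ∈ D, α q ∈ W) ∧ (∃ q ∈ D, α q ∈ W ∩ V ∧ α q ∈ Pl) ∧
      (∃ q ∈ D, α q ∈ W ∩ V ∧ α q ∈ Pr) := by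
  by_contra hcon
  push Not at hcon
  obtain ⟨S₁, S₂, c1, c2, hd, hS, hP, hQ⟩ := exists_separation (S := α ⁻¹' W)
    (P := α ⁻¹' (W ∩ V ∩ Pl)) (Q := α ⁻¹' (W ∩ V ∩ Pr)) (hW.preimage hα).isCompact
    (((hW.inter hV).inter hPl).preimage hα) (((hW.inter hV).inter hPr).preimage hα)
    (fun q hq => hq.1.1) (fun q hq => hq.1.1) (by
      intro C hC hCc hCS ⟨q, hqC, hqP⟩ ⟨q', hqC', hqQ⟩
      exact hcon C ⟨hC, hCc⟩ (fun q hq => hCS hq) ⟨q, hqC, hqP.1, hqP.2⟩ q' hqC' hqQ.1 hqQ.2)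
  have s1W : ∀ q ∈ S₁, α q ∈ W := fun q hq => by
    have : q ∈ α ⁻¹' W := hS ▸ Or.inl hq
    exact this
  have s2W : ∀ q ∈ S₂, α q ∈ W := fun q hq => by
    have : q ∈ α ⁻¹' W := hS ▸ Or.inr hq
    exact this
  let VV : N → ℤ → Prop := fun q c => (α q ∈ V ∧ v (α q) = c) ∨ (q ∈ S₁ ∧ u (α q) = c) ∨
    (q ∈ S₂ ∧ u (α q) + 1 = c)
  have k1 : ∀ q ∈ S₁, α q ∈ V → v (α q) = u (α q) := by
    intro q hq hqV
    have hw := s1W q hq
    rcases hWV ⟨hw, hqV⟩ with h | h
    · exact hl _ ⟨hw, hqV⟩ h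
    · exact absurd (hQ (show q ∈ α ⁻¹' (W ∩ V ∩ Pr) from ⟨⟨hw, hqV⟩, h⟩))
        (Set.disjoint_left.1 hd hq)
  have k2 : ∀ q ∈ S₂, α q ∈ V → v (α q) = u (α q) + 1 := by
    intro q hq hqV
    have hw := s2W q hq
    rcases hWV ⟨hw, hqV⟩ with h | h
    · exact absurd hq (Set.disjoint_left.1 hd
        (hP (show q ∈ α ⁻¹' (W ∩ V ∩ Pl) from ⟨⟨hw, hqV⟩, h⟩)))
    · exact hr _ ⟨hw, hqV⟩ h
  have huniq : ∀ q c c', VV q c → VV q c' → c = c' := by
    rintro q c c' (⟨a, b⟩ | ⟨a, b⟩ | ⟨a, b⟩) (⟨a', b'⟩ | ⟨a', b'⟩ | ⟨a', b'⟩)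
    · rw [← b, ← b']
    · rw [← b, ← b', k1 q a' a]
    · rw [← b, ← b', k2 q a' a]
    · rw [← b, ← b', k1 q a a']
    · rw [← b, ← b']
    · exact absurd a' (Set.disjoint_left.1 hd a)
    · rw [← b, ← b', k2 q a a']
    · exact absurd a (Set.disjoint_left.1 hd a')
    · rw [← b, ← b']
  have hex : ∀ q, ∃ c, VV q c := by
    intro q
    rcases hcov q with h | h
    · have : q ∈ S₁ ∪ S₂ := by rw [hS]; exact h
      rcases this with h | h
      · exact ⟨_, Or.inr (Or.inl ⟨h, rfl⟩)⟩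
      · exact ⟨_, Or.inr (Or.inr ⟨h, rfl⟩)⟩
    · exact ⟨_, Or.inl ⟨h, rfl⟩⟩
  have hclosed : ∀ S : Set ℤ, IsClosed {q | ∃ c ∈ S, VV q c} := by
    intro S
    have e : {q | ∃ c ∈ S, VV q c} = (α ⁻¹' {y | y ∈ V ∧ v y ∈ S}) ∪
        ((S₁ ∩ α ⁻¹' {y | y ∈ W ∧ u y ∈ S}) ∪
          (S₂ ∩ α ⁻¹' {y | y ∈ W ∧ u y ∈ {c | c + 1 ∈ S}})) := by
      ext q
      constructor
      · rintro ⟨c, hc, (⟨a, b⟩ | ⟨a, b⟩ | ⟨a, b⟩)⟩
        · exact Or.inl ⟨a, by rw [b]; exact hc⟩
        · exact Or.inr (Or.inl ⟨a, s1W q a, by rw [b]; exact hc⟩)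
        · exact Or.inr (Or.inr ⟨a, s2W q a, by
            show u (α q) + 1 ∈ S
            rw [b]; exact hc⟩)
      · rintro (⟨a, b⟩ | ⟨a, _, b⟩ | ⟨a, _, b⟩)
        · exact ⟨_, b, Or.inl ⟨a, rfl⟩⟩
        · exact ⟨_, b, Or.inr (Or.inl ⟨a, rfl⟩)⟩
        · exact ⟨_, b, Or.inr (Or.inr ⟨a, rfl⟩)⟩
    rw [e]
    exact ((g2_closed hV hv S).preimage hα).union
      ((c1.inter ((g2_closed hW hu S).preimage hα)).union
        (c2.inter ((g2_closed hW hu _).preimage hα)))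
  have hpre : IsPreconnected (univ : Set N) := isPreconnected_univ
  rw [isPreconnected_closed_iff] at hpre
  obtain ⟨q, -, ⟨c, hc, hq⟩, ⟨c', hc', hq'⟩⟩ := hpre {q | ∃ c ∈ {c : ℤ | c ≤ 0}, VV q c}
    {q | ∃ c ∈ {c : ℤ | 1 ≤ c}, VV q c} (hclosed _) (hclosed _) (by
      intro q _
      obtain ⟨c, hc⟩ := hex q
      rcases le_or_gt c 0 with h | h
      · exact Or.inl ⟨c, h, hc⟩
      · exact Or.inr ⟨c, h, hc⟩)
    ⟨q₀, mem_univ _, 0, le_refl (0 : ℤ), Or.inl ⟨h0, hv0⟩⟩ ⟨q₁, mem_univ _, 1, le_refl (1 : ℤ), Or.inl ⟨h1, hv1⟩⟩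
  have h3 := huniq q c c' hq hq'
  have h4 : c ≤ 0 := hc
  have h5 : 1 ≤ c' := hc'
  omega

end RowG2

section RowG3

open Set Filter Topology

variable {Y : Type*} [MetricSpace Y] [CompactSpace Y]

/-- [G3] -/
theorem exists_crossing_ctm {K L Ml Mr C : Set Y} (hK : Ctm K)
    (hSC : SCG (Multiplicative ℤ) K) (hL : Ctm L) (hMl : Ctm Ml) (hMr : Ctm Mr) (hMlK : Ml ⊆ K)
    (hMrK : Mr ⊆ K) (hint : Ml ∩ Mr = L) {η : ℝ} (hη : 0 < η) {c : ℝ} (hc : 0 < c) {p : Y}
    (hp : p ∈ L) (hC : C = connectedComponentIn (K ∩ {y | Metric.infDist y L ≤ η}) p)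
    (hCM : C ⊆ Ml ∪ Mr) {el er : Y} (hel : el ∈ Ml) (hel' : η < Metric.infDist el L)
    (her : er ∈ Mr) (her' : η < Metric.infDist er L) :
    ∃ ρ : ℝ, 0 < ρ ∧ ∀ (N : Type) [TopologicalSpace N] [CompactSpace N] [T2Space N]
      [ConnectedSpace N] (α : N → Y), Continuous α → (∀ q, α q ∈ K) →
      (∃ q, dist el (α q) < ρ) → (∃ q, dist er (α q) < ρ) →
      ∃ D : Set N, Ctm D ∧
        (∀ q ∈ D, Metric.infDist (α q) L ≤ η ∧ Metric.infDist (α q) C ≤ c) ∧
        (∃ q ∈ D, Metric.infDist (α q) L = η ∧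
          Metric.infDist (α q) Ml ≤ Metric.infDist (α q) Mr) ∧
        (∃ q ∈ D, Metric.infDist (α q) L = η ∧
          Metric.infDist (α q) Mr ≤ Metric.infDist (α q) Ml) := by
  obtain ⟨W, V, u, v, hW, hV, hWV, hW1, hWV1, hu, hv, hl, hr, hvl, hvr⟩ :=
    cut_functions hK hSC hL hMl hMr hMlK hMrK hint hη hc hp hC hCM
  have hVof : ∀ y ∈ K, η < Metric.infDist y L → y ∈ V := by
    intro y hy h1
    have h2 : y ∈ W ∪ V := by rw [hWV]; exact hy
    rcases h2 with h2 | h2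
    · exact absurd (hW1 y h2).1 (not_le.2 h1)
    · exact h2
  have helV : el ∈ V := hVof el (hMlK hel) hel'
  have herV : er ∈ V := hVof er (hMrK her) her'
  have hvel : v el = 0 := hvl el ⟨hel, helV⟩
  have hver : v er = 1 := hvr er ⟨her, herV⟩
  obtain ⟨ρ₀, hρ₀, hv0⟩ := hv
  have hv' : LocC V v := ⟨ρ₀, hρ₀, hv0⟩
  refine ⟨min ρ₀ (min (Metric.infDist el L - η) (Metric.infDist er L - η)),
    lt_min hρ₀ (lt_min (sub_pos.2 hel') (sub_pos.2 her')), ?_⟩
  intro N _ _ _ _ α hα hαK hq₀ hq₁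
  obtain ⟨q₀, hq₀⟩ := hq₀
  obtain ⟨q₁, hq₁⟩ := hq₁
  have h0V : α q₀ ∈ V := by
    refine hVof _ (hαK q₀) ?_
    have h1 := Metric.infDist_le_infDist_add_dist (s := L) (x := el) (y := α q₀)
    have h2 : dist el (α q₀) < Metric.infDist el L - η :=
      hq₀.trans_le ((min_le_right _ _).trans (min_le_left _ _))
    linarith
  have h1V : α q₁ ∈ V := by
    refine hVof _ (hαK q₁) ?_
    have h1 := Metric.infDist_le_infDist_add_dist (s := L) (x := er) (y := α q₁)
    have h2 : dist er (α q₁) < Metric.infDist er L - η :=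
      hq₁.trans_le ((min_le_right _ _).trans (min_le_right _ _))
    linarith
  have h0v : v (α q₀) = 0 := by
    rw [← hv0 el helV (α q₀) h0V (hq₀.trans_le (min_le_left _ _)), hvel]
  have h1v : v (α q₁) = 1 := by
    rw [← hv0 er herV (α q₁) h1V (hq₁.trans_le (min_le_left _ _)), hver]
  obtain ⟨D, hD, hDW, ⟨a, haD, haWV, haP⟩, ⟨b, hbD, hbWV, hbP⟩⟩ := crossing (W := W) (V := V)
    (Pl := {y | Metric.infDist y Ml ≤ Metric.infDist y Mr})
    (Pr := {y | Metric.infDist y Mr ≤ Metric.infDist y Ml}) hW hV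
    (isClosed_le (Metric.continuous_infDist_pt Ml) (Metric.continuous_infDist_pt Mr))
    (isClosed_le (Metric.continuous_infDist_pt Mr) (Metric.continuous_infDist_pt Ml)) hu hv'
    (fun y _ => le_total (Metric.infDist y Ml) (Metric.infDist y Mr))
    (fun y hy h1 => hl y hy (lt_of_le_of_ne h1 (hWV1 y hy).2))
    (fun y hy h1 => hr y hy (lt_of_le_of_ne h1 (hWV1 y hy).2.symm))
    hα (fun q => by rw [hWV]; exact hαK q) h0V h1V h0v h1v
  exact ⟨D, hD, fun q hq => hW1 _ (hDW q hq), ⟨a, haD, (hWV1 _ haWV).1, haP⟩,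
    ⟨b, hbD, (hWV1 _ hbWV).1, hbP⟩⟩

end RowG3

section RowG4

open Set Filter Topology

variable {Y : Type*} [MetricSpace Y] [CompactSpace Y]

/-- [G4] -/
theorem limC_ulim {N : ℕ → Type} [∀ j, TopologicalSpace (N j)] {U : Ultrafilter ℕ}
    {α : ∀ j, N j → Y} {D : ∀ j, Set (N j)}
    (hD : ∀ᶠ j in (U : Filter ℕ), Ctm (D j)) : LimC U α (ulim U fun j => α j '' D j) := by
  intro η hη
  filter_upwards [hD, hnear_ulim (U := U) (A := fun j => α j '' D j) hη] with j h1 h2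
  exact ⟨D j, h1, h2⟩

/-- [G4] -/
theorem limC_closed {N : ℕ → Type} [∀ j, TopologicalSpace (N j)] {U : Ultrafilter ℕ}
    {α : ∀ j, N j → Y} {G : Set Y}
    (h : ∀ η : ℝ, 0 < η → ∃ G', LimC U α G' ∧ HNear η G' G) : LimC U α G := by
  intro η hη
  obtain ⟨G', h1, h2, h3⟩ := h (η / 2) (by positivity)
  filter_upwards [h1 (η / 2) (by positivity)] with j hj
  obtain ⟨D, hD, h4, h5⟩ := hj
  refine ⟨D, hD, ?_, ?_⟩
  · intro a ha
    obtain ⟨b, hb, hab⟩ := h4 a ha
    obtain ⟨c, hc, hbc⟩ := h2 b hb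
    exact ⟨c, hc, by linarith [dist_triangle a b c]⟩
  · intro b hb
    obtain ⟨c, hc, hbc⟩ := h3 b hb
    obtain ⟨a, ha, hca⟩ := h5 c hc
    exact ⟨a, ha, by linarith [dist_triangle b c a]⟩

end RowG4

section RowG5

open Set Filter Topology

/-- choice of members of an eventually true family -/
theorem g5_choice {ι : Type*} {β : ι → Type*} (U : Ultrafilter ι) {P : ∀ i, β i → Prop}
    (hne : ∀ i, Nonempty (β i))
    (h : ∀ᶠ i in (U : Filter ι), ∃ b, P i b) :
    ∃ b : ∀ i, β i, ∀ᶠ i in (U : Filter ι), P i (b i) := by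
  classical
  refine ⟨fun i => if h : ∃ b, P i b then h.choose else (hne i).some, ?_⟩
  filter_upwards [h] with i hi
  rw [dif_pos hi]
  exact hi.choose_spec

/-- a limit of sets that meet a closed set meets it -/
theorem g5_meets {Y : Type*} [MetricSpace Y] [CompactSpace Y] {U : Ultrafilter ℕ} {A : ℕ → Set Y}
    {F : Set Y} (hF : IsClosed F) (h : ∀ᶠ i in (U : Filter ℕ), ∃ a, a ∈ A i ∧ a ∈ F) :
    ∃ p ∈ F, p ∈ ulim U A := by
  obtain ⟨i₀, hi₀⟩ := h.exists
  obtain ⟨a₀, -⟩ := hi₀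
  obtain ⟨a, ha⟩ := g5_choice (β := fun _ => Y) (P := fun i a => a ∈ A i ∧ a ∈ F) U
    (fun _ => ⟨a₀⟩) h
  obtain ⟨p, hp, -, hp'⟩ := lim_mem_ulim (U := U) (A := A) hF.isCompact
    (ha.mono fun i hi => hi.1) (ha.mono fun i hi => hi.2)
  exact ⟨p, hp, hp'⟩

/-- [G5] two sided case -/
theorem wstar_case2 {Y : Type*} [MetricSpace Y] [CompactSpace Y]
    (hWT : WTF Y) (hHU : HU Y) {K L Ml Mr : Set Y} (hK : Ctm K)
    (hSC : SCG (Multiplicative ℤ) K) (hL : Ctm L) (hMl : Ctm Ml) (hMr : Ctm Mr) (hMlK : Ml ⊆ K)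
    (hMrK : Mr ⊆ K) (hint : Ml ∩ Mr = L) (hl : Ml ≠ L) (hr : Mr ≠ L)
    {N : ℕ → Type} [∀ j, MetricSpace (N j)] [∀ j, CompactSpace (N j)] [∀ j, ConnectedSpace (N j)]
    {U : Ultrafilter ℕ} {α : ∀ j, N j → Y} (hα : ∀ j, Continuous (α j)) (hαK : ∀ j q, α j q ∈ K)
    (hdense : ∀ y ∈ K, ∀ δ : ℝ, 0 < δ → ∀ᶠ j in (U : Filter ℕ), ∃ q, dist y (α j q) < δ)
    {η : ℝ} (hη : 0 < η) :
    ∃ G, LimC U α G ∧ L ⊆ G ∧ ∀ y ∈ G, Metric.infDist y L ≤ η := by
  obtain ⟨p, hp⟩ := hL.2.nonempty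
  have hLMl : L ⊆ Ml := by rw [← hint]; exact inter_subset_left
  have hLMr : L ⊆ Mr := by rw [← hint]; exact inter_subset_right
  have hLne : L.Nonempty := ⟨p, hp⟩
  obtain ⟨el, hel, helL⟩ : ∃ y ∈ Ml, y ∉ L := by
    by_contra h
    push Not at h
    exact hl (Subset.antisymm h hLMl)
  obtain ⟨er, her, herL⟩ : ∃ y ∈ Mr, y ∉ L := by
    by_contra h
    push Not at h
    exact hr (Subset.antisymm h hLMr)
  have helpos : 0 < Metric.infDist el L := (hL.1.notMem_iff_infDist_pos hLne).mp helL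
  have herpos : 0 < Metric.infDist er L := (hL.1.notMem_iff_infDist_pos hLne).mp herL
  set η' : ℝ := min η (min (Metric.infDist el L / 2) (Metric.infDist er L / 2)) with hη'
  have hη'0 : 0 < η' := lt_min hη (lt_min (half_pos helpos) (half_pos herpos))
  have hη'η : η' ≤ η := min_le_left _ _
  have hel' : η' < Metric.infDist el L :=
    lt_of_le_of_lt ((min_le_right _ _).trans (min_le_left _ _)) (half_lt_self helpos)
  have her' : η' < Metric.infDist er L :=
    lt_of_le_of_lt ((min_le_right _ _).trans (min_le_right _ _)) (half_lt_self herpos)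
  set F : Set Y := K ∩ {y | Metric.infDist y L ≤ η'} with hFdef
  have hFc : IsClosed F :=
    hK.1.inter (isClosed_le (Metric.continuous_infDist_pt L) continuous_const)
  have hpF : p ∈ F := by
    refine ⟨hMlK (hLMl hp), ?_⟩
    show Metric.infDist p L ≤ η'
    rw [Metric.infDist_zero_of_mem hp]; exact hη'0.le
  set C : Set Y := connectedComponentIn F p with hCdef
  have hCctm : Ctm C := by
    have := ctm_cc (f := (id : Y → Y)) continuous_id hFc (x := p) hpF
    exact this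
  have hCF : C ⊆ F := connectedComponentIn_subset _ _
  have hpC : p ∈ C := mem_connectedComponentIn hpF
  have helC : el ∉ C := fun h => not_le.mpr hel' (hCF h).2
  have herC : er ∉ C := fun h => not_le.mpr her' (hCF h).2
  have helMr : el ∉ Mr := fun h => helL (by rw [← hint]; exact ⟨hel, h⟩)
  have herMl : er ∉ Ml := fun h => herL (by rw [← hint]; exact ⟨h, her⟩)
  have hCM : C ⊆ Ml ∪ Mr := by
    rcases hWT C Ml Mr hCctm hMl hMr ⟨p, hpC, hLMl hp, hLMr hp⟩ with h | h | h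
    · exact h
    · rcases h hel with h1 | h1
      · exact absurd h1 helC
      · exact absurd h1 helMr
    · rcases h her with h1 | h1
      · exact absurd h1 herC
      · exact absurd h1 herMl
  -- the two target sets
  set Tl : Set Y := {y | Metric.infDist y L = η'} ∩ {y | Metric.infDist y Ml ≤ Metric.infDist y Mr}
    with hTl
  set Tr : Set Y := {y | Metric.infDist y L = η'} ∩ {y | Metric.infDist y Mr ≤ Metric.infDist y Ml}
    with hTr
  have hTlc : IsClosed Tl :=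
    (isClosed_eq (Metric.continuous_infDist_pt L) continuous_const).inter
      (isClosed_le (Metric.continuous_infDist_pt Ml) (Metric.continuous_infDist_pt Mr))
  have hTrc : IsClosed Tr :=
    (isClosed_eq (Metric.continuous_infDist_pt L) continuous_const).inter
      (isClosed_le (Metric.continuous_infDist_pt Mr) (Metric.continuous_infDist_pt Ml))
  have step : ∀ m : ℕ, ∃ Gm : Set Y, LimC U α Gm ∧ Ctm Gm ∧ Gm ⊆ F ∧
      (∀ y ∈ Gm, Metric.infDist y C ≤ 1 / ((m : ℝ) + 1)) ∧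
      (∃ y, y ∈ Gm ∧ y ∈ Tl) ∧ (∃ y, y ∈ Gm ∧ y ∈ Tr) := by
    intro m
    have hc : (0 : ℝ) < 1 / ((m : ℝ) + 1) := by positivity
    obtain ⟨ρ, hρ, hN⟩ := exists_crossing_ctm hK hSC hL hMl hMr hMlK hMrK hint hη'0 hc hp
      (C := C) rfl hCM hel hel' her her'
    have hev : ∀ᶠ j in (U : Filter ℕ), ∃ D : Set (N j), Ctm D ∧
        (∀ q ∈ D, Metric.infDist (α j q) L ≤ η' ∧ Metric.infDist (α j q) C ≤ 1 / ((m : ℝ) + 1)) ∧
        (∃ q ∈ D, Metric.infDist (α j q) L = η' ∧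
          Metric.infDist (α j q) Ml ≤ Metric.infDist (α j q) Mr) ∧
        (∃ q ∈ D, Metric.infDist (α j q) L = η' ∧
          Metric.infDist (α j q) Mr ≤ Metric.infDist (α j q) Ml) := by
      filter_upwards [hdense el (hMlK hel) ρ hρ, hdense er (hMrK her) ρ hρ] with j h1 h2
      exact hN (N j) (α j) (hα j) (hαK j) h1 h2
    obtain ⟨D, hD⟩ := g5_choice (β := fun j => Set (N j)) U (fun _ => ⟨∅⟩) hev
    refine ⟨ulim U fun j => α j '' D j, limC_ulim (hD.mono fun j hj => hj.1), ?_, ?_, ?_, ?_, ?_⟩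
    · exact ctm_ulim (hD.mono fun j hj => hj.1.2.image _ (hα j).continuousOn)
    · apply ulim_subset_of_closed hFc
      filter_upwards [hD] with j hj
      rintro _ ⟨q, hq, rfl⟩
      exact ⟨hαK j q, (hj.2.1 q hq).1⟩
    · have hcl : IsClosed {y : Y | Metric.infDist y C ≤ 1 / ((m : ℝ) + 1)} :=
        isClosed_le (Metric.continuous_infDist_pt C) continuous_const
      have : (ulim U fun j => α j '' D j) ⊆ {y : Y | Metric.infDist y C ≤ 1 / ((m : ℝ) + 1)} := by
        apply ulim_subset_of_closed hcl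
        filter_upwards [hD] with j hj
        rintro _ ⟨q, hq, rfl⟩
        exact (hj.2.1 q hq).2
      exact fun y hy => this hy
    · obtain ⟨y, hy1, hy2⟩ := g5_meets (U := U) (A := fun j => α j '' D j) hTlc (by
        filter_upwards [hD] with j hj
        obtain ⟨q, hq, hq1, hq2⟩ := hj.2.2.1
        exact ⟨α j q, ⟨q, hq, rfl⟩, hq1, hq2⟩)
      exact ⟨y, hy2, hy1⟩
    · obtain ⟨y, hy1, hy2⟩ := g5_meets (U := U) (A := fun j => α j '' D j) hTrc (by
        filter_upwards [hD] with j hj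
        obtain ⟨q, hq, hq1, hq2⟩ := hj.2.2.2
        exact ⟨α j q, ⟨q, hq, rfl⟩, hq1, hq2⟩)
      exact ⟨y, hy2, hy1⟩
  choose Gm hG1 hG2 hG3 hG4 hG5 hG6 using step
  set V : Ultrafilter ℕ := hyperfilter ℕ with hV
  set G : Set Y := ulim V Gm with hG
  have hGctm : Ctm G := ctm_ulim (Eventually.of_forall fun m => (hG2 m).2)
  have hGlim : LimC U α G := by
    apply limC_closed
    intro ε hε
    have h1 : ∀ᶠ m in (V : Filter ℕ), HNear ε (Gm m) G := hnear_ulim hε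
    obtain ⟨m, hm⟩ := h1.exists
    exact ⟨Gm m, hG1 m, hm⟩
  have hGF : G ⊆ F := ulim_subset_of_closed hFc (Eventually.of_forall hG3)
  have hGC : G ⊆ C := by
    intro y hy
    have h0 : Metric.infDist y C ≤ 0 := by
      apply ge_of_tendsto' tendsto_one_div_add_atTop_nhds_zero_nat
      intro n
      have hcl : IsClosed {y : Y | Metric.infDist y C ≤ 1 / ((n : ℝ) + 1)} :=
        isClosed_le (Metric.continuous_infDist_pt C) continuous_const
      have hsub : G ⊆ {y : Y | Metric.infDist y C ≤ 1 / ((n : ℝ) + 1)} := by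
        apply ulim_subset_of_closed hcl
        have hge : ∀ᶠ m : ℕ in (V : Filter ℕ), n ≤ m :=
          (Nat.hyperfilter_le_atTop) (eventually_ge_atTop n)
        filter_upwards [hge] with m hm
        intro z hz
        refine (hG4 m z hz).trans ?_
        apply one_div_le_one_div_of_le (by positivity)
        have : (n : ℝ) ≤ m := by exact_mod_cast hm
        linarith
      exact hsub hy
    have h1 : Metric.infDist y C = 0 := le_antisymm h0 Metric.infDist_nonneg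
    exact (hCctm.1.mem_iff_infDist_zero ⟨p, hpC⟩).mpr h1
  obtain ⟨al, halT, halG⟩ := g5_meets (U := V) (A := Gm) hTlc (Eventually.of_forall hG5)
  obtain ⟨ar, harT, harG⟩ := g5_meets (U := V) (A := Gm) hTrc (Eventually.of_forall hG6)
  have halL : al ∉ L := fun h => by
    have h1 : Metric.infDist al L = η' := halT.1
    rw [Metric.infDist_zero_of_mem h] at h1
    exact hη'0.ne h1
  have harL : ar ∉ L := fun h => by
    have h1 : Metric.infDist ar L = η' := harT.1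
    rw [Metric.infDist_zero_of_mem h] at h1
    exact hη'0.ne h1
  have halMr : al ∉ Mr := by
    intro h
    have h1 : Metric.infDist al Ml ≤ Metric.infDist al Mr := halT.2
    rw [Metric.infDist_zero_of_mem h] at h1
    have h2 : al ∈ Ml :=
      (hMl.1.mem_iff_infDist_zero ⟨p, hLMl hp⟩).mpr (le_antisymm h1 Metric.infDist_nonneg)
    exact halL (by rw [← hint]; exact ⟨h2, h⟩)
  have harMl : ar ∉ Ml := by
    intro h
    have h1 : Metric.infDist ar Mr ≤ Metric.infDist ar Ml := harT.2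
    rw [Metric.infDist_zero_of_mem h] at h1
    have h2 : ar ∈ Mr :=
      (hMr.1.mem_iff_infDist_zero ⟨p, hLMr hp⟩).mpr (le_antisymm h1 Metric.infDist_nonneg)
    exact harL (by rw [← hint]; exact ⟨h, h2⟩)
  have halMl : al ∈ Ml := (hCM (hGC halG)).resolve_right halMr
  have harMr : ar ∈ Mr := (hCM (hGC harG)).resolve_left harMl
  obtain ⟨s, hsG, hsl, hsr⟩ := isPreconnected_closed_iff.1 hGctm.2.isPreconnected Ml Mr hMl.1
    hMr.1 (hGC.trans hCM) ⟨al, halG, halMl⟩ ⟨ar, harG, harMr⟩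
  have hsL : s ∈ L := by rw [← hint]; exact ⟨hsl, hsr⟩
  have hGMl : Ctm (G ∩ Ml) := ⟨hGctm.1.inter hMl.1, hHU G Ml hGctm hMl ⟨s, hsG, hsl⟩⟩
  have hGMr : Ctm (G ∩ Mr) := ⟨hGctm.1.inter hMr.1, hHU G Mr hGctm hMr ⟨s, hsG, hsr⟩⟩
  refine ⟨G, hGlim, ?_, fun y hy => (hGF hy).2.trans hη'η⟩
  rcases hWT (G ∩ Ml) (G ∩ Mr) L hGMl hGMr hL ⟨s, ⟨hsG, hsl⟩, ⟨hsG, hsr⟩, hsL⟩ with h | h | h
  · rcases h ⟨halG, halMl⟩ with h1 | h1
    · exact absurd h1.2 halMr
    · exact absurd h1 halL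
  · rcases h ⟨harG, harMr⟩ with h1 | h1
    · exact absurd h1.2 harMl
    · exact absurd h1 harL
  · intro z hz
    rcases h hz with h1 | h1
    · exact h1.1
    · exact h1.1

end RowG5

end Pool.Agent.MP_a56558_gt
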