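import Pool.Agent.MP_a56558_gt.F.FG1

set_option autoImplicit false

namespace Pool.Agent.MP_a56558_gt

open Set Filter Topology

section RowG6

open Set Filter Topology

theorem g6_ctm_union {Y : Type*} [TopologicalSpace Y] {A B : Set Y} (hA : Ctm A) (hB : Ctm B)
    (h : (A ∩ B).Nonempty) : Ctm (A ∪ B) :=
  ⟨hA.1.union hB.1, IsConnected.union h hA.2 hB.2⟩

variable {Y : Type*} [MetricSpace Y] [CompactSpace Y]

omit [CompactSpace Y] in
/-- [G6] -/
theorem g6_aux {K L : Set Y} (hL : Ctm L) (hLK : L ⊆ K)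
    (hbig : ∀ M₁ M₂ : Set Y, Ctm M₁ → Ctm M₂ → M₁ ⊆ K → M₂ ⊆ K → L ⊆ M₁ → L ⊆ M₂ → M₁ ≠ L →
      M₂ ≠ L → M₁ ∩ M₂ ≠ L) {A B : Set Y} (hA : Ctm A) (hB : Ctm B) (hAK : A ⊆ K) (hBK : B ⊆ K)
    (hAL : (A ∩ L).Nonempty) (hBL : (B ∩ L).Nonempty) (hoA : ¬ A ⊆ L) (hoB : ¬ B ⊆ L) :
    ∃ z, z ∈ A ∧ z ∈ B ∧ z ∉ L := by
  have h := hbig (L ∪ A) (L ∪ B) (g6_ctm_union hL hA (by rwa [inter_comm]))
    (g6_ctm_union hL hB (by rwa [inter_comm])) (union_subset hLK hAK) (union_subset hLK hBK)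
    subset_union_left subset_union_left
    (fun h1 => hoA (by rw [← h1]; exact subset_union_right))
    (fun h1 => hoB (by rw [← h1]; exact subset_union_right))
  by_contra h2
  push Not at h2
  refine h (Subset.antisymm ?_ (subset_inter subset_union_left subset_union_left))
  rintro z ⟨hz1 | hz1, hz2 | hz2⟩
  · exact hz1
  · exact hz1
  · exact hz2
  · exact h2 z hz1 hz2

/-- [G6] -/
theorem nested_of_case1 (hWT : WTF Y) (hHU : HU Y) {K L : Set Y} (hL : Ctm L) (hLK : L ⊆ K)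
    (hbig : ∀ M₁ M₂ : Set Y, Ctm M₁ → Ctm M₂ → M₁ ⊆ K → M₂ ⊆ K → L ⊆ M₁ → L ⊆ M₂ → M₁ ≠ L →
      M₂ ≠ L → M₁ ∩ M₂ ≠ L) {G G' : ℕ → Set Y} (hG : ∀ n, Ctm (G n)) (hG' : ∀ n, Ctm (G' n))
    (ha : Antitone G) (ha' : Antitone G') (hGK : ∀ n, G n ⊆ K) (hGK' : ∀ n, G' n ⊆ K)
    (hGL : ∀ n, (G n ∩ L).Nonempty) (hGL' : ∀ n, (G' n ∩ L).Nonempty)
    (hW : ∀ η : ℝ, 0 < η → ∃ n, ∀ y ∈ G n, Metric.infDist y L ≤ η)
    (hW' : ∀ η : ℝ, 0 < η → ∃ n, ∀ y ∈ G' n, Metric.infDist y L ≤ η)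
    (ho : ∀ n, ¬ G n ⊆ L) (ho' : ∀ n, ¬ G' n ⊆ L) :
    (⋂ n, G n) ⊆ (⋂ n, G' n) ∨ (⋂ n, G' n) ⊆ (⋂ n, G n) := by
  by_contra hcon
  push Not at hcon
  obtain ⟨h1, h2⟩ := hcon
  obtain ⟨e, heG, heG'⟩ := not_subset.1 h1
  obtain ⟨e', he'G', he'G⟩ := not_subset.1 h2
  rw [mem_iInter] at heG heG' he'G' he'G
  push Not at heG' he'G
  obtain ⟨n₁, hn₁⟩ := heG'
  obtain ⟨n₂, hn₂⟩ := he'G
  set n := max n₁ n₂ with hn
  have hen : e ∉ G' n := fun h => hn₁ (ha' (le_max_left _ _) h)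
  have he'n : e' ∉ G n := fun h => hn₂ (ha (le_max_right _ _) h)
  obtain ⟨z, hz1, hz2, hzL⟩ := g6_aux hL hLK hbig (hG n) (hG' n) (hGK n) (hGK' n) (hGL n) (hGL' n)
    (ho n) (ho' n)
  have hpos : 0 < Metric.infDist z L := (hL.1.notMem_iff_infDist_pos hL.2.1).1 hzL
  obtain ⟨m₁, hm₁⟩ := hW (Metric.infDist z L / 2) (by positivity)
  obtain ⟨m₂, hm₂⟩ := hW' (Metric.infDist z L / 2) (by positivity)
  set m := max n (max m₁ m₂) with hm
  have hmn : n ≤ m := le_max_left _ _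
  have hmm₁ : m₁ ≤ m := (le_max_left _ _).trans (le_max_right _ _)
  have hmm₂ : m₂ ≤ m := (le_max_right _ _).trans (le_max_right _ _)
  obtain ⟨z', hz'1, hz'2, _⟩ := g6_aux hL hLK hbig (hG m) (hG' m) (hGK m) (hGK' m) (hGL m)
    (hGL' m) (ho m) (ho' m)
  have hJ : Ctm (G n ∩ G' n) := ⟨(hG n).1.inter (hG' n).1, hHU _ _ (hG n) (hG' n) ⟨z, hz1, hz2⟩⟩
  rcases hWT (G m) (G' m) (G n ∩ G' n) (hG m) (hG' m) hJ
    ⟨z', hz'1, hz'2, ha hmn hz'1, ha' hmn hz'2⟩ with h3 | h3 | h3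
  · rcases h3 (heG m) with h4 | h4
    · exact hen (ha' hmn h4)
    · exact hen h4.2
  · rcases h3 (he'G' m) with h4 | h4
    · exact he'n (ha hmn h4)
    · exact he'n h4.1
  · rcases h3 ⟨hz1, hz2⟩ with h4 | h4
    · have := hm₁ z (ha hmm₁ h4); linarith
    · have := hm₂ z (ha' hmm₂ h4); linarith

end RowG6

section RowG7

open Set Filter Topology

theorem g7_ulim_mono {ι α : Type*} [PseudoMetricSpace α] {U : Ultrafilter ι} {A B : ι → Set α}
    (h : ∀ i, A i ⊆ B i) : ulim U A ⊆ ulim U B := by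
  intro p hp η hη
  filter_upwards [hp η hη] with i hi
  obtain ⟨a, ha, hpa⟩ := hi
  exact ⟨a, h i ha, hpa⟩

variable {Y : Type*} [MetricSpace Y] [CompactSpace Y]

/-- [G7] exit continua of a sequence `q j` -/
theorem exit_continua {K L : Set Y} (hK : Ctm K) (hL : Ctm L) (hLK : L ⊆ K) (hne : L ≠ K)
    {N : ℕ → Type} [∀ j, MetricSpace (N j)] [∀ j, CompactSpace (N j)] [∀ j, ConnectedSpace (N j)]
    {U : Ultrafilter ℕ} {α : ∀ j, N j → Y} (hα : ∀ j, Continuous (α j)) (hαK : ∀ j q, α j q ∈ K)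
    (hdense : ∀ y ∈ K, ∀ δ : ℝ, 0 < δ → ∀ᶠ j in (U : Filter ℕ), ∃ q, dist y (α j q) < δ)
    {y : Y} (hy : y ∈ L) :
    ∃ G : ℕ → Set Y, (∀ n, Ctm (G n)) ∧ Antitone G ∧ (∀ n, G n ⊆ K) ∧ (∀ n, y ∈ G n) ∧
      (∀ η : ℝ, 0 < η → ∃ n, ∀ z ∈ G n, Metric.infDist z L ≤ η) ∧ (∀ n, ¬ G n ⊆ L) ∧
      ∀ n, LimC U α (G n) := by
  classical
  have hLne : L.Nonempty := ⟨y, hy⟩
  -- a point of `K` outside `L`
  obtain ⟨z₀, hz₀K, hz₀L⟩ : ∃ z₀ ∈ K, z₀ ∉ L := by
    by_contra hcon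
    push Not at hcon
    exact hne (Subset.antisymm hLK hcon)
  have hpos : 0 < Metric.infDist z₀ L := (hL.1.notMem_iff_infDist_pos hLne).mp hz₀L
  obtain ⟨n₀, hn₀⟩ := exists_nat_one_div_lt hpos
  -- radii
  let c : ℕ → ℝ := fun n => 1 / ((n₀ : ℝ) + n + 1)
  have hc0 : ∀ n, 0 < c n := fun n => by positivity
  have hcanti : Antitone c := by
    intro m n hmn
    apply one_div_le_one_div_of_le (by positivity)
    have : (m : ℝ) ≤ n := by exact_mod_cast hmn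
    linarith
  have hclt : ∀ n, c n < Metric.infDist z₀ L := by
    intro n
    refine lt_of_le_of_lt ?_ hn₀
    apply one_div_le_one_div_of_le (by positivity)
    have : (0 : ℝ) ≤ n := by positivity
    linarith
  -- the nearest points
  have hq : ∀ j, ∃ q : N j, ∀ q' : N j, dist y (α j q) ≤ dist y (α j q') := by
    intro j
    have hcont : Continuous fun q : N j => dist y (α j q) := continuous_const.dist (hα j)
    obtain ⟨q, -, hq⟩ := isCompact_univ.exists_isMinOn (univ_nonempty (α := N j))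
      hcont.continuousOn
    exact ⟨q, fun q' => hq (mem_univ q')⟩
  choose q hq using hq
  have hqlim : ∀ δ : ℝ, 0 < δ → ∀ᶠ j in (U : Filter ℕ), dist y (α j (q j)) < δ := by
    intro δ hδ
    filter_upwards [hdense y (hLK hy) δ hδ] with j hj
    obtain ⟨q', hq'⟩ := hj
    exact (hq j q').trans_lt hq'
  -- closed sets and components
  let W : ℕ → ∀ j, Set (N j) := fun n j => α j ⁻¹' {z | Metric.infDist z L ≤ c n}
  have hWcl : ∀ n j, IsClosed (W n j) := fun n j =>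
    (isClosed_le (Metric.continuous_infDist_pt L) continuous_const).preimage (hα j)
  let C : ℕ → ∀ j, Set (N j) := fun n j => connectedComponentIn (W n j) (q j)
  have hmem : ∀ n, ∀ᶠ j in (U : Filter ℕ), q j ∈ W n j := by
    intro n
    filter_upwards [hqlim (c n) (hc0 n)] with j hj
    show Metric.infDist (α j (q j)) L ≤ c n
    exact (Metric.infDist_le_dist_of_mem hy).trans (by rw [dist_comm]; exact hj.le)
  have hbump : ∀ n, ∀ᶠ j in (U : Filter ℕ), Ctm (C n j) ∧ ∃ p ∈ C n j,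
      c n ≤ Metric.infDist (α j p) L := by
    intro n
    filter_upwards [hmem n, hdense z₀ hz₀K (Metric.infDist z₀ L - c n)
      (by linarith [hclt n])] with j hj hj'
    have hO : IsOpen (α j ⁻¹' {z | Metric.infDist z L < c n}) :=
      (isOpen_lt (Metric.continuous_infDist_pt L) continuous_const).preimage (hα j)
    have hOW : α j ⁻¹' {z | Metric.infDist z L < c n} ⊆ W n j := by
      intro p hp
      have hp' : Metric.infDist (α j p) L < c n := hp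
      show Metric.infDist (α j p) L ≤ c n
      exact hp'.le
    have hWne : W n j ≠ univ := by
      intro h
      obtain ⟨p, hp⟩ := hj'
      have hpW : p ∈ W n j := by rw [h]; exact mem_univ p
      have h1 : Metric.infDist (α j p) L ≤ c n := hpW
      have h2 : Metric.infDist z₀ L ≤ Metric.infDist (α j p) L + dist z₀ (α j p) :=
        Metric.infDist_le_infDist_add_dist
      linarith
    obtain ⟨h1, p, hp, hpO⟩ := bump_component (hWcl n j) hO hOW hWne hj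
    exact ⟨h1, p, hp, not_lt.mp hpO⟩
  have hCconn : ∀ n, ∀ᶠ j in (U : Filter ℕ), IsConnected (α j '' C n j) := by
    intro n
    filter_upwards [hbump n] with j hj
    exact hj.1.2.image _ (hα j).continuousOn
  refine ⟨fun n => ulim U fun j => α j '' C n j, fun n => ctm_ulim (hCconn n), ?_, ?_, ?_, ?_, ?_,
    ?_⟩
  · intro m n hmn
    apply g7_ulim_mono
    intro j
    apply image_mono
    apply connectedComponentIn_mono
    intro p hp
    exact le_trans hp (hcanti hmn)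
  · intro n
    apply ulim_subset_of_closed hK.1
    refine Eventually.of_forall fun j => ?_
    rintro _ ⟨p, -, rfl⟩
    exact hαK j p
  · intro n η hη
    filter_upwards [hmem n, hqlim η hη] with j hj hj'
    exact ⟨α j (q j), mem_image_of_mem _ (mem_connectedComponentIn hj), hj'⟩
  · intro η hη
    obtain ⟨n, hn⟩ := exists_nat_one_div_lt hη
    have hcn : c n ≤ η := by
      refine le_trans ?_ hn.le
      apply one_div_le_one_div_of_le (by positivity)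
      have : (0 : ℝ) ≤ n₀ := by positivity
      linarith
    refine ⟨n, fun z hz => ?_⟩
    have hsub : (ulim U fun j => α j '' C n j) ⊆ {z | Metric.infDist z L ≤ c n} := by
      apply ulim_subset_of_closed
        (isClosed_le (Metric.continuous_infDist_pt L) continuous_const)
      refine Eventually.of_forall fun j => ?_
      rintro _ ⟨p, hp, rfl⟩
      have hp' : p ∈ W n j := connectedComponentIn_subset _ _ hp
      exact hp'
    exact (hsub hz : Metric.infDist z L ≤ c n).trans hcn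
  · intro n hsub
    have hex : ∀ j, ∃ a : Y, (∃ p ∈ C n j, c n ≤ Metric.infDist (α j p) L) →
        a ∈ α j '' C n j ∧ c n ≤ Metric.infDist a L := by
      intro j
      by_cases h : ∃ p ∈ C n j, c n ≤ Metric.infDist (α j p) L
      · obtain ⟨p, hp, hp'⟩ := h
        exact ⟨α j p, fun _ => ⟨mem_image_of_mem _ hp, hp'⟩⟩
      · exact ⟨y, fun h' => absurd h' h⟩
    choose a ha using hex
    obtain ⟨p, -, hpl, hpu⟩ := lim_mem_ulim (U := U) (A := fun j => α j '' C n j)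
      (isCompact_univ (X := Y)) (a := a)
      ((hbump n).mono fun j hj => (ha j hj.2).1) (Eventually.of_forall fun _ => mem_univ _)
    have hge : c n ≤ Metric.infDist p L := by
      have hcont : Tendsto (fun j => Metric.infDist (a j) L) (U : Filter ℕ)
          (𝓝 (Metric.infDist p L)) :=
        ((Metric.continuous_infDist_pt L).tendsto p).comp hpl
      exact ge_of_tendsto hcont ((hbump n).mono fun j hj => (ha j hj.2).2)
    have h0 : Metric.infDist p L = 0 := Metric.infDist_zero_of_mem (hsub hpu)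
    linarith [hc0 n]
  · intro n
    exact limC_ulim ((hbump n).mono fun j hj => hj.1)

end RowG7

section RowG8

open Set Filter Topology

variable {Y : Type*} [MetricSpace Y] [CompactSpace Y]

/-- the family of sequences obtained by induction on a finite subset of `L` -/
theorem g8_finite (hWT : WTF Y) (hHU : HU Y) {K L : Set Y} (hK : Ctm K) (hL : Ctm L)
    (hLK : L ⊆ K) (hne : L ≠ K)
    (hbig : ∀ M₁ M₂ : Set Y, Ctm M₁ → Ctm M₂ → M₁ ⊆ K → M₂ ⊆ K → L ⊆ M₁ → L ⊆ M₂ → M₁ ≠ L →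
      M₂ ≠ L → M₁ ∩ M₂ ≠ L)
    {N : ℕ → Type} [∀ j, MetricSpace (N j)] [∀ j, CompactSpace (N j)] [∀ j, ConnectedSpace (N j)]
    {U : Ultrafilter ℕ} {α : ∀ j, N j → Y} (hα : ∀ j, Continuous (α j)) (hαK : ∀ j q, α j q ∈ K)
    (hdense : ∀ y ∈ K, ∀ δ : ℝ, 0 < δ → ∀ᶠ j in (U : Filter ℕ), ∃ q, dist y (α j q) < δ)
    {F : Set Y} (hF : F.Finite) : F ⊆ L →
    ∃ G : ℕ → Set Y, (∀ n, Ctm (G n)) ∧ Antitone G ∧ (∀ n, G n ⊆ K) ∧ (F ⊆ ⋂ n, G n) ∧
      (∀ n, (G n ∩ L).Nonempty) ∧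
      (∀ η : ℝ, 0 < η → ∃ n, ∀ z ∈ G n, Metric.infDist z L ≤ η) ∧ (∀ n, ¬ G n ⊆ L) ∧
      ∀ n, LimC U α (G n) := by
  induction F, hF using Set.Finite.induction_on with
  | empty =>
    intro _
    obtain ⟨y, hy⟩ := hL.2.nonempty
    obtain ⟨G, h1, h2, h3, h4, h5, h6, h7⟩ := exit_continua hK hL hLK hne hα hαK hdense hy
    exact ⟨G, h1, h2, h3, empty_subset _, fun n => ⟨y, h4 n, hy⟩, h5, h6, h7⟩
  | @insert y F _ _ ih =>
    intro hFL
    have hy : y ∈ L := hFL (mem_insert _ _)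
    obtain ⟨G, h1, h2, h3, h4, h4', h5, h6, h7⟩ := ih ((subset_insert _ _).trans hFL)
    obtain ⟨G', k1, k2, k3, k4, k5, k6, k7⟩ := exit_continua hK hL hLK hne hα hαK hdense hy
    have k4' : ∀ n, (G' n ∩ L).Nonempty := fun n => ⟨y, k4 n, hy⟩
    have ky : y ∈ ⋂ n, G' n := mem_iInter.2 k4
    rcases nested_of_case1 hWT hHU hL hLK hbig h1 k1 h2 k2 h3 k3 h4' k4' h5 k5 h6 k6 with h | h
    · exact ⟨G', k1, k2, k3, insert_subset ky (h4.trans h), k4', k5, k6, k7⟩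
    · exact ⟨G, h1, h2, h3, insert_subset (h ky) h4, h4', h5, h6, h7⟩

/-- [G8] one sided case -/
theorem wstar_case1 (hWT : WTF Y) (hHU : HU Y) {K L : Set Y} (hK : Ctm K) (hL : Ctm L)
    (hLK : L ⊆ K) (hne : L ≠ K)
    (hbig : ∀ M₁ M₂ : Set Y, Ctm M₁ → Ctm M₂ → M₁ ⊆ K → M₂ ⊆ K → L ⊆ M₁ → L ⊆ M₂ → M₁ ≠ L →
      M₂ ≠ L → M₁ ∩ M₂ ≠ L)
    {N : ℕ → Type} [∀ j, MetricSpace (N j)] [∀ j, CompactSpace (N j)] [∀ j, ConnectedSpace (N j)]
    {U : Ultrafilter ℕ} {α : ∀ j, N j → Y} (hα : ∀ j, Continuous (α j)) (hαK : ∀ j q, α j q ∈ K)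
    (hdense : ∀ y ∈ K, ∀ δ : ℝ, 0 < δ → ∀ᶠ j in (U : Filter ℕ), ∃ q, dist y (α j q) < δ)
    {η : ℝ} (hη : 0 < η) :
    ∃ G, LimC U α G ∧ HNear η G L := by
  obtain ⟨F, hFL, hF, hcov⟩ := hL.1.isCompact.finite_cover_balls hη
  obtain ⟨G, h1, _, _, h4, _, h5, _, h7⟩ :=
    g8_finite hWT hHU hK hL hLK hne hbig hα hαK hdense hF hFL
  obtain ⟨n, hn⟩ := h5 (η / 2) (half_pos hη)
  refine ⟨G n, h7 n, fun a ha => ?_, fun b hb => ?_⟩
  · exact (Metric.infDist_lt_iff hL.2.nonempty).1 ((hn a ha).trans_lt (half_lt_self hη))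
  · obtain ⟨x, hx, hbx⟩ := mem_iUnion₂.1 (hcov hb)
    exact ⟨x, mem_iInter.1 (h4 hx) n, hbx⟩

end RowG8

section RowG9

open Set Filter Topology

variable {Y : Type*} [MetricSpace Y] [CompactSpace Y]

omit [CompactSpace Y] in
theorem g9_hnear_trans {A B C : Set Y} {η η' : ℝ} (h : HNear η A B) (h' : HNear η' B C) :
    HNear (η + η') A C := by
  constructor
  · intro a ha
    obtain ⟨b, hb, hab⟩ := h.1 a ha
    obtain ⟨c, hc, hbc⟩ := h'.1 b hb
    exact ⟨c, hc, (dist_triangle a b c).trans_lt (add_lt_add hab hbc)⟩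
  · intro c hc
    obtain ⟨b, hb, hcb⟩ := h'.2 c hc
    obtain ⟨a, ha, hba⟩ := h.2 b hb
    refine ⟨a, ha, (dist_triangle c b a).trans_lt ?_⟩
    linarith

omit [CompactSpace Y] in
theorem g9_hnear_of_sub {G L : Set Y} (hL : L.Nonempty) {η η' : ℝ} (hη : η < η') (h0 : 0 < η')
    (hLG : L ⊆ G) (hG : ∀ y ∈ G, Metric.infDist y L ≤ η) : HNear η' G L := by
  constructor
  · intro a ha
    have := (Metric.infDist_lt_iff hL).1 ((hG a ha).trans_lt hη)
    exact this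
  · intro b hb
    exact ⟨b, hLG hb, by rw [dist_self]; exact h0⟩

/-- [G9] (W*) -/
theorem wstar (hWT : WTF Y) (hHU : HU Y) {K L : Set Y} (hK : Ctm K)
    (hSC : SCG (Multiplicative ℤ) K) (hL : Ctm L) (hLK : L ⊆ K) {ε : ℝ} (hε : 0 < ε) :
    ∃ δ : ℝ, 0 < δ ∧ ∀ (N : Type) [MetricSpace N] [CompactSpace N] [ConnectedSpace N] (α : N → Y),
      Continuous α → (∀ q, α q ∈ K) → (∀ y ∈ K, ∃ q, dist y (α q) < δ) →
      ∃ D : Set N, Ctm D ∧ HNear ε (α '' D) L := by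
  by_cases hne : L = K
  · subst hne
    refine ⟨ε, hε, ?_⟩
    intro N _ _ _ α hα hαK hd
    refine ⟨univ, ⟨isClosed_univ, isConnected_univ⟩, ?_, ?_⟩
    · rintro _ ⟨q, _, rfl⟩
      exact ⟨α q, hαK q, by rw [dist_self]; exact hε⟩
    · intro b hb
      obtain ⟨q, hq⟩ := hd b hb
      exact ⟨α q, mem_image_of_mem _ (mem_univ q), hq⟩
  · by_contra hcon
    have hcon' : ∀ j : ℕ, ∃ (N : Type) (_ : MetricSpace N) (_ : CompactSpace N)
        (_ : ConnectedSpace N) (α : N → Y), Continuous α ∧ (∀ q, α q ∈ K) ∧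
        (∀ y ∈ K, ∃ q, dist y (α q) < 1 / ((j : ℝ) + 1)) ∧
        ∀ D : Set N, Ctm D → ¬ HNear ε (α '' D) L := by
      intro j
      by_contra hj
      apply hcon
      refine ⟨1 / ((j : ℝ) + 1), by positivity, ?_⟩
      intro N i1 i2 i3 α hα hαK hd
      by_contra hD
      apply hj
      refine ⟨N, i1, i2, i3, α, hα, hαK, hd, ?_⟩
      intro D hD1 hD2
      exact hD ⟨D, hD1, hD2⟩
    choose N i1 i2 i3 α hα hαK hd hD using hcon'
    have hU : ((hyperfilter ℕ : Ultrafilter ℕ) : Filter ℕ) ≤ atTop := Nat.hyperfilter_le_atTop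
    have hdense : ∀ y ∈ K, ∀ δ : ℝ, 0 < δ →
        ∀ᶠ j in ((hyperfilter ℕ : Ultrafilter ℕ) : Filter ℕ), ∃ q, dist y (α j q) < δ := by
      intro y hy δ hδ
      apply hU
      have h1 : ∀ᶠ j : ℕ in atTop, 1 / ((j : ℝ) + 1) < δ :=
        tendsto_one_div_add_atTop_nhds_zero_nat.eventually (gt_mem_nhds hδ)
      filter_upwards [h1] with j hj
      obtain ⟨q, hq⟩ := hd j y hy
      exact ⟨q, hq.trans hj⟩
    obtain ⟨G, hG1, hG2⟩ : ∃ G, LimC (hyperfilter ℕ) α G ∧ HNear (ε / 2) G L := by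
      by_cases hc : ∃ Ml Mr : Set Y, Ctm Ml ∧ Ctm Mr ∧ Ml ⊆ K ∧ Mr ⊆ K ∧ Ml ∩ Mr = L ∧
          Ml ≠ L ∧ Mr ≠ L
      · obtain ⟨Ml, Mr, hMl, hMr, hMlK, hMrK, hint, hl, hr⟩ := hc
        obtain ⟨G, hG1, hG2, hG3⟩ := wstar_case2 hWT hHU hK hSC hL hMl hMr hMlK hMrK hint hl hr
          hα hαK hdense (η := ε / 4) (by positivity)
        exact ⟨G, hG1, g9_hnear_of_sub hL.2.nonempty (by linarith) (by positivity) hG2 hG3⟩
      · exact wstar_case1 hWT hHU hK hL hLK hne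
          (fun M₁ M₂ h1 h2 h3 h4 _ _ h7 h8 h9 => hc ⟨M₁, M₂, h1, h2, h3, h4, h9, h7, h8⟩)
          hα hαK hdense (by positivity)
    obtain ⟨j, D, hD1, hD2⟩ := (hG1 (ε / 2) (by positivity)).exists
    have h3 := g9_hnear_trans hD2 hG2
    rw [add_halves] at h3
    exact hD j D hD1 h3

end RowG9

section RowG10

open Set Filter Topology

section

variable {Y : Type*} [MetricSpace Y] [CompactSpace Y]

/-- [G10] (W*) for subcontinua of a fixed space -/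
theorem wstar_sub (hWT : WTF Y) (hHU : HU Y) (hSC : HSC Y) {N : Type} [MetricSpace N]
    [CompactSpace N] {α : N → Y} (hα : Continuous α) {K L : Set Y} (hK : Ctm K) (hL : Ctm L)
    (hLK : L ⊆ K) {ε : ℝ} (hε : 0 < ε) :
    ∃ δ : ℝ, 0 < δ ∧ ∀ N₁ : Set N, Ctm N₁ → α '' N₁ ⊆ K →
      (∀ y ∈ K, ∃ q ∈ N₁, dist y (α q) < δ) →
      ∃ D ⊆ N₁, Ctm D ∧ HNear ε (α '' D) L := by
  obtain ⟨δ, hδ, h⟩ := wstar hWT hHU hK (hSC K hK (Multiplicative ℤ)) hL hLK hε
  refine ⟨δ, hδ, fun N₁ hN₁ hsub hd => ?_⟩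
  have : CompactSpace N₁ := isCompact_iff_compactSpace.1 hN₁.1.isCompact
  have : ConnectedSpace N₁ := isConnected_iff_connectedSpace.1 hN₁.2
  obtain ⟨D, hD, hn⟩ := h N₁ (fun q => α q) (hα.comp continuous_subtype_val)
    (fun q => hsub ⟨q, q.2, rfl⟩) (fun y hy => by
      obtain ⟨q, hq, hq'⟩ := hd y hy
      exact ⟨⟨q, hq⟩, hq'⟩)
  refine ⟨Subtype.val '' D, ?_, ⟨hN₁.1.isClosedEmbedding_subtypeVal.isClosedMap _ hD.1,
    hD.2.image _ continuous_subtype_val.continuousOn⟩, ?_⟩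
  · rintro _ ⟨q, -, rfl⟩
    exact q.2
  · rw [image_image]
    exact hn

/-- [G10] class W -/
theorem classW (hWT : WTF Y) (hHU : HU Y) (hSC : HSC Y) {N : Type} [MetricSpace N]
    [CompactSpace N] {α : N → Y} (hα : Continuous α) {N₁ : Set N} (hN₁ : Ctm N₁) {L : Set Y}
    (hL : Ctm L) (hLN : L ⊆ α '' N₁) : ∃ N' ⊆ N₁, Ctm N' ∧ α '' N' = L := by
  have hK : Ctm (α '' N₁) := ⟨(hN₁.1.isCompact.image hα).isClosed,
    hN₁.2.image _ hα.continuousOn⟩
  have key : ∀ i : ℕ, ∃ D ⊆ N₁, Ctm D ∧ HNear (1 / ((i : ℝ) + 1)) (α '' D) L := by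
    intro i
    obtain ⟨δ, hδ, h⟩ := wstar_sub hWT hHU hSC hα hK hL hLN
      (show (0 : ℝ) < 1 / ((i : ℝ) + 1) by positivity)
    refine h N₁ hN₁ Subset.rfl fun y hy => ?_
    obtain ⟨q, hq, rfl⟩ := hy
    exact ⟨q, hq, by rw [dist_self]; exact hδ⟩
  choose D hDN hD hn using key
  set U : Ultrafilter ℕ := hyperfilter ℕ with hU
  refine ⟨ulim U D, ulim_subset_of_closed hN₁.1 (Eventually.of_forall hDN),
    ctm_ulim (Eventually.of_forall fun i => (hD i).2), ?_⟩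
  rw [image_ulim hN₁.1.isCompact (Eventually.of_forall hDN) hα]
  refine ulim_eq_of_hnear hL.1 fun η hη => ?_
  have h1 : ∀ᶠ i : ℕ in atTop, 1 / ((i : ℝ) + 1) < η := by
    have := tendsto_one_div_add_atTop_nhds_zero_nat (𝕜 := ℝ)
    exact this.eventually_lt_const hη
  have h2 : ∀ᶠ i : ℕ in (U : Filter ℕ), 1 / ((i : ℝ) + 1) < η := by
    rw [hU]
    exact Nat.hyperfilter_le_atTop h1
  filter_upwards [h2] with i hi
  obtain ⟨h3, h4⟩ := hn i
  exact ⟨fun a ha => (h3 a ha).imp fun b hb => ⟨hb.1, hb.2.trans hi⟩,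
    fun b hb => (h4 b hb).imp fun a ha => ⟨ha.1, ha.2.trans hi⟩⟩

end

end RowG10

end Pool.Agent.MP_a56558_gt
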