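import Pool.Agent.MP_a56558_gt.F.FG2

set_option autoImplicit false

namespace Pool.Agent.MP_a56558_gt

open Set Filter Topology

/-- `χ` takes both values on the part of the fibre product over the component of `x`. -/
def MixedAt {X Y N : Type*} [TopologicalSpace X] (f : X → Y) (α : N → Y) (E₀ E₁ : Set (X × N))
    (N' : Set N) (x : X) : Prop :=
  (∃ p ∈ E₀, p.1 ∈ cc f (α '' N') x ∧ p.2 ∈ N' ∧ f p.1 = α p.2) ∧
  (∃ p ∈ E₁, p.1 ∈ cc f (α '' N') x ∧ p.2 ∈ N' ∧ f p.1 = α p.2)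

/-- A minimal mixed pair: `A` is a component over `range α`, `χ` is a uniformly locally constant
predicate on the fibre product, takes both values, and is constant on all smaller pairs. -/
structure Core {X Y N : Type*} [MetricSpace X] [MetricSpace Y] [MetricSpace N] (f : X → Y)
    (α : N → Y) (A : Set X) (χ : X → N → Prop) (ε₀ : ℝ) : Prop where
  hα : Continuous α
  hA : ∃ x₀, f x₀ ∈ range α ∧ A = cc f (range α) x₀
  hε₀ : 0 < ε₀
  close : ∀ x ∈ A, ∀ x' ∈ A, ∀ q q', f x = α q → f x' = α q' → dist x x' < ε₀ →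
    dist q q' < ε₀ → (χ x q ↔ χ x' q')
  pos : ∃ x ∈ A, ∃ q, f x = α q ∧ χ x q
  neg : ∃ x ∈ A, ∃ q, f x = α q ∧ ¬ χ x q
  unif : ∀ N' : Set N, Ctm N' → N' ≠ univ → ∀ x ∈ A, f x ∈ α '' N' →
    ∀ x' ∈ cc f (α '' N') x, ∀ q ∈ N', ∀ q' ∈ N', f x = α q → f x' = α q' → (χ x q ↔ χ x' q')


section RowH1

open Set Filter Topology

/-- an ultrafilter converging down a chain -/
theorem h1_ultrafilter {N : Type*} {c : Set (Set N)} (hc : IsChain (· ⊆ ·) c) (hne : c.Nonempty) :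
    ∃ U : Ultrafilter c, ∀ M₀ : c, ∀ᶠ M : c in (U : Filter c), (M : Set N) ⊆ (M₀ : Set N) := by
  have hne' : Nonempty c := hne.to_subtype
  have hdir : Directed (· ≥ ·) (fun M₀ : c => (𝓟 {M : c | (M : Set N) ⊆ M₀} : Filter c)) := by
    intro K L
    rcases hc.total K.2 L.2 with h1 | h1
    · exact ⟨K, le_rfl, by
        simp only [ge_iff_le, le_principal_iff, mem_principal]
        intro M hM
        exact hM.trans h1⟩
    · exact ⟨L, by
        simp only [ge_iff_le, le_principal_iff, mem_principal]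
        intro M hM
        exact hM.trans h1, le_rfl⟩
  have hnb : NeBot (⨅ M₀ : c, (𝓟 {M : c | (M : Set N) ⊆ M₀} : Filter c)) := by
    apply iInf_neBot_of_directed hdir
    intro M₀
    rw [principal_neBot_iff]
    exact ⟨M₀, show (M₀ : Set N) ⊆ M₀ from subset_rfl⟩
  refine ⟨@Ultrafilter.of _ _ hnb, fun M₀ => ?_⟩
  have h1 : ((@Ultrafilter.of _ _ hnb : Ultrafilter c) : Filter c) ≤
      𝓟 {M : c | (M : Set N) ⊆ M₀} :=
    (@Ultrafilter.of_le _ _ hnb).trans (iInf_le _ M₀)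
  exact h1 (mem_principal_self _)

variable {X Y : Type*} [MetricSpace X] [CompactSpace X] [MetricSpace Y] [CompactSpace Y]
  {f : X → Y} {N : Type} [MetricSpace N] [CompactSpace N] {α : N → Y}

theorem h1_chain (hf : Continuous f) (hα : Continuous α) {E₀ E₁ : Set (X × N)}
    (h0 : IsClosed E₀) (h1 : IsClosed E₁) {N₁ : Set N} {x₁ : X}
    {c : Set (Set N)} (hc : IsChain (· ⊆ ·) c) (hne : c.Nonempty)
    (h : ∀ M ∈ c, M ⊆ N₁ ∧ Ctm M ∧ ∃ x ∈ cc f (α '' N₁) x₁, f x ∈ α '' M ∧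
      MixedAt f α E₀ E₁ M x) (hN₁ : Ctm N₁) :
    Ctm (⋂₀ c) ∧ ∃ x ∈ cc f (α '' N₁) x₁, f x ∈ α '' (⋂₀ c) ∧ MixedAt f α E₀ E₁ (⋂₀ c) x := by
  have hM := isConnected_sInter_chain hne hc (fun K hK => (h K hK).2.1)
  refine ⟨hM, ?_⟩
  obtain ⟨U, hU⟩ := h1_ultrafilter hc hne
  have hch : ∀ M : c, ∃ (x : X) (p p' : X × N), x ∈ cc f (α '' N₁) x₁ ∧ f x ∈ α '' (M : Set N) ∧
      (p ∈ E₀ ∧ p.1 ∈ cc f (α '' M) x ∧ p.2 ∈ (M : Set N) ∧ f p.1 = α p.2) ∧
      (p' ∈ E₁ ∧ p'.1 ∈ cc f (α '' M) x ∧ p'.2 ∈ (M : Set N) ∧ f p'.1 = α p'.2) := by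
    intro M
    obtain ⟨-, -, x, hx, hfx, ⟨p, hp⟩, ⟨p', hp'⟩⟩ := h M.1 M.2
    exact ⟨x, p, p', hx, hfx, hp, hp'⟩
  choose x p p' hx hfx hp hp' using hch
  set C : c → Set X := fun M => cc f (α '' (M : Set N)) (x M) with hC
  have hCtm : Ctm (ulim U C) := ctm_ulim (Eventually.of_forall fun M => isConnected_cc (hfx M))
  have hαc : ∀ S : Set N, IsClosed S → IsClosed (α '' S) := fun S hS =>
    (hS.isCompact.image hα).isClosed
  -- limits
  have hlimX : ∀ a : c → X, (∀ M : c, a M ∈ C M) → ∃ b, Tendsto a (U : Filter c) (𝓝 b) ∧ b ∈ ulim U C :=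
    fun a ha => by
      obtain ⟨b, -, hb, hb'⟩ := lim_mem_ulim (U := U) (A := C) isCompact_univ
        (Eventually.of_forall ha) (Eventually.of_forall fun _ => mem_univ _)
      exact ⟨b, hb, hb'⟩
  have hlimN : ∀ a : c → N, (∀ M : c, a M ∈ (M : Set N)) → ∃ b, Tendsto a (U : Filter c) (𝓝 b) ∧
      b ∈ ⋂₀ c := fun a ha => by
      obtain ⟨b, -, hb, -⟩ := lim_mem_ulim (U := U) (A := fun _ => univ) (a := a) isCompact_univ
        (Eventually.of_forall fun _ => mem_univ _) (Eventually.of_forall fun _ => mem_univ _)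
      refine ⟨b, hb, ?_⟩
      rintro M₀ hM₀
      exact (h M₀ hM₀).2.1.1.mem_of_tendsto hb
        ((hU ⟨M₀, hM₀⟩).mono fun M hM => hM (ha M))
  obtain ⟨a, ha, haC⟩ := hlimX (fun M => (p M).1) (fun M => (hp M).2.1)
  obtain ⟨a', ha', haC'⟩ := hlimX (fun M => (p' M).1) (fun M => (hp' M).2.1)
  obtain ⟨q, hq, hqM⟩ := hlimN (fun M => (p M).2) (fun M => (hp M).2.2.1)
  obtain ⟨q', hq', hqM'⟩ := hlimN (fun M => (p' M).2) (fun M => (hp' M).2.2.1)
  have hE0 : (a, q) ∈ E₀ := h0.mem_of_tendsto (ha.prodMk_nhds hq)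
    (Eventually.of_forall fun M => (hp M).1)
  have hE1 : (a', q') ∈ E₁ := h1.mem_of_tendsto (ha'.prodMk_nhds hq')
    (Eventually.of_forall fun M => (hp' M).1)
  have hfa : f a = α q := by
    have h2 : Tendsto (fun M => f (p M).1) (U : Filter c) (𝓝 (f a)) :=
      (hf.tendsto a).comp ha
    have h3 : Tendsto (fun M => α (p M).2) (U : Filter c) (𝓝 (α q)) :=
      (hα.tendsto q).comp hq
    refine tendsto_nhds_unique h2 (h3.congr fun M => ((hp M).2.2.2).symm)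
  have hfa' : f a' = α q' := by
    have h2 : Tendsto (fun M => f (p' M).1) (U : Filter c) (𝓝 (f a')) :=
      (hf.tendsto a').comp ha'
    have h3 : Tendsto (fun M => α (p' M).2) (U : Filter c) (𝓝 (α q')) :=
      (hα.tendsto q').comp hq'
    refine tendsto_nhds_unique h2 (h3.congr fun M => ((hp' M).2.2.2).symm)
  -- the limit component lies over the intersection
  have hsub : ulim U C ⊆ f ⁻¹' (α '' ⋂₀ c) := by
    intro z hz
    have hz' : ∀ M : c, ∃ w ∈ (M : Set N), α w = f z := by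
      intro M₀
      have h2 : ulim U C ⊆ f ⁻¹' (α '' (M₀ : Set N)) := by
        apply ulim_subset_of_closed ((hαc _ (h M₀.1 M₀.2).2.1.1).preimage hf)
        filter_upwards [hU M₀] with M hM
        exact (cc_sub f _ _).trans (preimage_mono (image_mono hM))
      exact h2 hz
    choose w hw hwz using hz'
    obtain ⟨b, hb, hbM⟩ := hlimN w hw
    refine ⟨b, hbM, ?_⟩
    have h3 : Tendsto (fun M => α (w M)) (U : Filter c) (𝓝 (α b)) :=
      (hα.tendsto b).comp hb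
    exact tendsto_nhds_unique h3 (tendsto_const_nhds.congr fun M => (hwz M).symm)
  have hsub2 : ulim U C ⊆ cc f (α '' ⋂₀ c) a := sub_cc hCtm.2.isPreconnected haC hsub
  have hsub3 : ulim U C ⊆ cc f (α '' N₁) x₁ := by
    apply ulim_subset_of_closed (isClosed_cc hf (hαc _ hN₁.1) x₁)
    refine Eventually.of_forall fun M => ?_
    exact cc_sub_cc (image_mono (h M.1 M.2).1) (hx M)
  exact ⟨a, hsub3 haC, hsub haC, ⟨(a, q), hE0, hsub2 haC, hqM, hfa⟩,
    ⟨(a', q'), hE1, hsub2 haC', hqM', hfa'⟩⟩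

/-- [H1] Zorn -/
theorem exists_min_pair (hf : Continuous f) (hα : Continuous α) {E₀ E₁ : Set (X × N)}
    (h0 : IsClosed E₀) (h1 : IsClosed E₁) {N₁ : Set N} (hN₁ : Ctm N₁) {x₁ : X}
    (hx₁ : f x₁ ∈ α '' N₁) (hm : MixedAt f α E₀ E₁ N₁ x₁) :
    ∃ N₂ ⊆ N₁, Ctm N₂ ∧ ∃ x₂ ∈ cc f (α '' N₁) x₁, f x₂ ∈ α '' N₂ ∧ MixedAt f α E₀ E₁ N₂ x₂ ∧
      ∀ N' ⊆ N₂, Ctm N' → N' ≠ N₂ → ∀ x ∈ cc f (α '' N₂) x₂, f x ∈ α '' N' →
        ¬ MixedAt f α E₀ E₁ N' x := by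
  set S : Set (Set N) := {M | M ⊆ N₁ ∧ Ctm M ∧ ∃ x ∈ cc f (α '' N₁) x₁, f x ∈ α '' M ∧
      MixedAt f α E₀ E₁ M x} with hS
  have hN₁S : N₁ ∈ S := ⟨subset_rfl, hN₁, x₁, mem_cc hx₁, hx₁, hm⟩
  obtain ⟨N₂, hN₂, hmin⟩ := zorn_superset_nonempty S (fun c hcS hc hne => by
    obtain ⟨h2, h3⟩ := h1_chain hf hα h0 h1 hc hne (fun M hM => hcS hM) hN₁
    refine ⟨⋂₀ c, ⟨?_, h2, h3⟩, fun s hs => sInter_subset_of_mem hs⟩
    obtain ⟨M, hM⟩ := hne
    exact (sInter_subset_of_mem hM).trans (hcS hM).1) N₁ hN₁S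
  obtain ⟨-, hctm, x₂, hx₂, hfx₂, hmix⟩ := hmin.prop
  refine ⟨N₂, hN₂, hctm, x₂, hx₂, hfx₂, hmix, ?_⟩
  intro N' hN' hctm' hne x hx hfx hmix'
  have hN'S : N' ∈ S := ⟨hN'.trans hN₂, hctm', x, cc_sub_cc (image_mono hN₂) hx₂ hx, hfx, hmix'⟩
  exact hne (subset_antisymm hN' (hmin.le_of_le hN'S hN'))

end RowH1

section RowH2

open Set Filter Topology

/-- disjoint compact sets have a positive distance -/
theorem h2_sep {Z : Type*} [MetricSpace Z] {E₀ E₁ : Set Z} (h0 : IsCompact E₀) (h1 : IsClosed E₁)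
    (hd : Disjoint E₀ E₁) : ∃ ε : ℝ, 0 < ε ∧ ∀ p ∈ E₀, ∀ p' ∈ E₁, ε ≤ dist p p' := by
  rcases E₀.eq_empty_or_nonempty with rfl | hne0
  · exact ⟨1, one_pos, fun p hp => absurd hp (Set.notMem_empty p)⟩
  rcases E₁.eq_empty_or_nonempty with rfl | hne1
  · exact ⟨1, one_pos, fun p _ p' hp' => absurd hp' (Set.notMem_empty p')⟩
  obtain ⟨p₀, hp₀, hmin⟩ := h0.exists_isMinOn hne0
    (Metric.continuous_infDist_pt E₁).continuousOn
  refine ⟨Metric.infDist p₀ E₁, ?_, ?_⟩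
  · exact (h1.notMem_iff_infDist_pos hne1).1 (Set.disjoint_left.1 hd hp₀)
  · intro p hp p' hp'
    exact (hmin hp).trans (Metric.infDist_le_dist_of_mem hp')

section H

variable {X Y : Type*} [MetricSpace X] [CompactSpace X] [MetricSpace Y] [CompactSpace Y]
  {f : X → Y} {N : Type} [MetricSpace N] [CompactSpace N] {α : N → Y} {A : Set X}
  {χ : X → N → Prop} {ε₀ : ℝ}

/-- [H2] a disconnected fibre product yields a core -/
theorem exists_core (hf : Continuous f) (hc : Conf f) [ConnectedSpace N] (hα : Continuous α)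
    {x₀ : X} (hx₀ : f x₀ ∈ range α)
    (hn : ¬ IsConnected {p : X × N | p.1 ∈ cc f (range α) x₀ ∧ f p.1 = α p.2}) :
    ∃ (N' : Type) (_ : MetricSpace N') (_ : CompactSpace N') (_ : ConnectedSpace N')
      (α' : N' → Y) (A' : Set X) (χ' : X → N' → Prop) (ε' : ℝ), Core f α' A' χ' ε' := by
  have hrc : IsClosed (range α) := (isCompact_range hα).isClosed
  set R : Set (X × N) := {p : X × N | p.1 ∈ cc f (range α) x₀ ∧ f p.1 = α p.2} with hR
  have hRc : IsClosed R := by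
    apply IsClosed.inter
    · exact (isClosed_cc hf hrc x₀).preimage continuous_fst
    · exact isClosed_eq (hf.comp continuous_fst) (hα.comp continuous_snd)
  have hRne : R.Nonempty := by
    obtain ⟨q₀, hq₀⟩ := hx₀
    exact ⟨(x₀, q₀), mem_cc (by exact ⟨q₀, hq₀⟩), hq₀.symm⟩
  have hnp : ¬ IsPreconnected R := fun h => hn ⟨hRne, h⟩
  rw [isPreconnected_closed_iff] at hnp
  push Not at hnp
  obtain ⟨t, t', ht, ht', hcov, hrt, hrt', hemp⟩ := hnp
  set E₀ : Set (X × N) := R ∩ t with hE₀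
  set E₁ : Set (X × N) := R ∩ t' with hE₁
  have hE₀c : IsClosed E₀ := hRc.inter ht
  have hE₁c : IsClosed E₁ := hRc.inter ht'
  have hRE : ∀ p ∈ R, p ∈ E₀ ∨ p ∈ E₁ := fun p hp => (hcov hp).imp (fun h => ⟨hp, h⟩)
    fun h => ⟨hp, h⟩
  have hdisj : ∀ p, p ∈ E₀ → p ∈ E₁ → False := by
    intro p h0 h1
    have : p ∈ R ∩ (t ∩ t') := ⟨h0.1, h0.2, h1.2⟩
    rw [hemp] at this
    exact this
  obtain ⟨ε', hε', hsep⟩ := h2_sep hE₀c.isCompact hE₁c (Set.disjoint_left.2 fun p h h' => hdisj p h h')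
  have hu : α '' univ = range α := image_univ
  have hm : MixedAt f α E₀ E₁ univ x₀ := by
    obtain ⟨p, hp, hpt⟩ := hrt
    obtain ⟨p', hp', hpt'⟩ := hrt'
    refine ⟨⟨p, ⟨hp, hpt⟩, ?_, mem_univ _, hp.2⟩, ⟨p', ⟨hp', hpt'⟩, ?_, mem_univ _, hp'.2⟩⟩
    · rw [hu]; exact hp.1
    · rw [hu]; exact hp'.1
  obtain ⟨N₂, -, hN₂, x₂, hx₂, hfx₂, hmix, hmin⟩ := exists_min_pair hf hα hE₀c hE₁c
    (N₁ := univ) ⟨isClosed_univ, isConnected_univ⟩ (x₁ := x₀) (by rw [hu]; exact hx₀) hm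
  rw [hu] at hx₂
  have : CompactSpace N₂ := isCompact_iff_compactSpace.1 hN₂.1.isCompact
  have : ConnectedSpace N₂ := isConnected_iff_connectedSpace.1 hN₂.2
  set α' : N₂ → Y := fun q => α q.1 with hα'
  have hr' : range α' = α '' N₂ := by
    ext y; constructor
    · rintro ⟨q, rfl⟩; exact ⟨q.1, q.2, rfl⟩
    · rintro ⟨q, hq, rfl⟩; exact ⟨⟨q, hq⟩, rfl⟩
  have hsub : α '' N₂ ⊆ range α := image_subset_range _ _
  have hAR : ∀ x ∈ cc f (range α') x₂, ∀ q : N₂, f x = α' q → (x, q.1) ∈ R := by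
    intro x hx q hq
    rw [hr'] at hx
    exact ⟨cc_sub_cc hsub hx₂ hx, hq⟩
  refine ⟨N₂, inferInstance, inferInstance, inferInstance, α', cc f (range α') x₂,
    fun x q => (x, q.1) ∈ E₁, ε', ?_⟩
  refine ⟨hα.comp continuous_subtype_val, ⟨x₂, by rw [hr']; exact hfx₂, rfl⟩, hε', ?_, ?_, ?_, ?_⟩
  · intro x hx x' hx' q q' hq hq' hxx' hqq'
    have h1 := hAR x hx q hq
    have h2 := hAR x' hx' q' hq'
    have hd : dist (x, q.1) (x', q'.1) < ε' := by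
      rw [Prod.dist_eq]
      exact max_lt hxx' hqq'
    constructor
    · intro h
      rcases hRE _ h2 with h3 | h3
      · have := hsep _ h3 _ h
        rw [dist_comm] at this
        exact absurd hd (not_lt.2 this)
      · exact h3
    · intro h
      rcases hRE _ h1 with h3 | h3
      · exact absurd hd (not_lt.2 (hsep _ h3 _ h))
      · exact h3
  · obtain ⟨-, p, hp, hp1, hp2, hp3⟩ := hmix
    exact ⟨p.1, by rw [hr']; exact hp1, ⟨p.2, hp2⟩, hp3, hp⟩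
  · obtain ⟨⟨p, hp, hp1, hp2, hp3⟩, -⟩ := hmix
    exact ⟨p.1, by rw [hr']; exact hp1, ⟨p.2, hp2⟩, hp3, fun h => hdisj _ hp h⟩
  · intro N' hN' hne x hx hfx x' hx' q hq q' hq' hxq hxq'
    set N'' : Set N := Subtype.val '' N' with hN''
    have himg : α' '' N' = α '' N'' := by rw [hN'', image_image]
    have hN''s : N'' ⊆ N₂ := by
      rintro _ ⟨q, _, rfl⟩; exact q.2
    have hN''c : Ctm N'' := ⟨(hN'.1.isCompact.image continuous_subtype_val).isClosed,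
      hN'.2.image _ continuous_subtype_val.continuousOn⟩
    have hN''ne : N'' ≠ N₂ := by
      intro h
      apply hne
      rw [eq_univ_iff_forall]
      intro q
      have : q.1 ∈ N'' := by rw [h]; exact q.2
      obtain ⟨q', hq', he⟩ := this
      rwa [← Subtype.ext he]
    have hx2 : x ∈ cc f (α '' N₂) x₂ := by rwa [hr'] at hx
    have hfx2 : f x ∈ α '' N'' := by rwa [himg] at hfx
    have hx'2 : x' ∈ cc f (α '' N'') x := by rwa [himg] at hx'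
    have hno := hmin N'' hN''s hN''c hN''ne x hx2 hfx2
    have hx'A : x' ∈ cc f (range α') x₂ := by
      rw [hr']
      exact cc_sub_cc (image_mono hN''s) hx2 hx'2
    have h1 := hAR x hx q hxq
    have h2 := hAR x' hx'A q' hxq'
    constructor
    · intro h
      by_contra h'
      have h3 : (x', q'.1) ∈ E₀ := (hRE _ h2).resolve_right h'
      exact hno ⟨⟨_, h3, hx'2, ⟨q', hq', rfl⟩, hxq'⟩, ⟨_, h, mem_cc hfx2, ⟨q, hq, rfl⟩, hxq⟩⟩
    · intro h
      by_contra h'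
      have h3 : (x, q.1) ∈ E₀ := (hRE _ h1).resolve_right h'
      exact hno ⟨⟨_, h3, mem_cc hfx2, ⟨q, hq, rfl⟩, hxq⟩, ⟨_, h, hx'2, ⟨q', hq', rfl⟩, hxq'⟩⟩

end H

end RowH2

section RowH3

open Set Filter Topology

variable {X Y : Type*} [MetricSpace X] [CompactSpace X] [MetricSpace Y] [CompactSpace Y]
  {f : X → Y} {N : Type} [MetricSpace N] [CompactSpace N] {α : N → Y} {A : Set X}
  {χ : X → N → Prop} {ε₀ : ℝ}

theorem h3_ctm_range [ConnectedSpace N] (hα : Continuous α) : Ctm (range α) := by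
  rw [← image_univ]
  exact ⟨(isCompact_univ.image hα).isClosed, isConnected_univ.image α hα.continuousOn⟩

theorem h3_closed (hα : Continuous α) (hf : Continuous f) (hA : IsClosed A) (hε₀ : 0 < ε₀)
    (P : X → N → Prop)
    (close : ∀ x ∈ A, ∀ x' ∈ A, ∀ q q', f x = α q → f x' = α q' → dist x x' < ε₀ →
      dist q q' < ε₀ → (P x q ↔ P x' q')) :
    IsClosed {q : N | ∃ x ∈ A, f x = α q ∧ P x q} := by
  have hE : IsClosed {p : X × N | p.1 ∈ A ∧ f p.1 = α p.2 ∧ P p.1 p.2} := by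
    apply isClosed_of_closure_subset
    intro p hp
    rw [Metric.mem_closure_iff] at hp
    have hS : IsClosed {p : X × N | p.1 ∈ A ∧ f p.1 = α p.2} :=
      (hA.preimage continuous_fst).inter
        (isClosed_eq (hf.comp continuous_fst) (hα.comp continuous_snd))
    have hpS : p ∈ {p : X × N | p.1 ∈ A ∧ f p.1 = α p.2} := by
      rw [← hS.closure_eq, Metric.mem_closure_iff]
      intro e he
      obtain ⟨b, hb, hd⟩ := hp e he
      exact ⟨b, ⟨hb.1, hb.2.1⟩, hd⟩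
    obtain ⟨b, hb, hd⟩ := hp ε₀ hε₀
    rw [Prod.dist_eq, max_lt_iff] at hd
    exact ⟨hpS.1, hpS.2, (close p.1 hpS.1 b.1 hb.1 p.2 b.2 hpS.2 hb.2.1 hd.1 hd.2).2 hb.2.2⟩
  have := (hE.isCompact.image continuous_snd).isClosed
  convert this using 1
  ext q
  constructor
  · rintro ⟨x, hx, hxq, hP⟩
    exact ⟨(x, q), ⟨hx, hxq, hP⟩, rfl⟩
  · rintro ⟨⟨x, q'⟩, ⟨hx, hxq, hP⟩, rfl⟩
    exact ⟨x, hx, hxq, hP⟩

theorem h3_all [ConnectedSpace N] (h : Core f α A χ ε₀) (hf : Continuous f) (hc : Conf f)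
    (P : X → N → Prop)
    (close : ∀ x ∈ A, ∀ x' ∈ A, ∀ q q', f x = α q → f x' = α q' → dist x x' < ε₀ →
      dist q q' < ε₀ → (P x q ↔ P x' q'))
    (unif : ∀ N' : Set N, Ctm N' → N' ≠ univ → ∀ x ∈ A, f x ∈ α '' N' →
      ∀ x' ∈ cc f (α '' N') x, ∀ q ∈ N', ∀ q' ∈ N', f x = α q → f x' = α q' → (P x q ↔ P x' q'))
    {z : N} (hne : (univ : Set N) ≠ {z}) (hz : ∃ x ∈ A, f x = α z ∧ P x z) (q : N) :
    ∃ x ∈ A, f x = α q ∧ P x q := by
  obtain ⟨x₀, hx₀, hAeq⟩ := h.hA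
  have hAcl : IsClosed A := by
    rw [hAeq]; exact isClosed_cc hf (h3_ctm_range h.hα).1 x₀
  have hcl := h3_closed h.hα hf hAcl h.hε₀ P close
  have key : (univ : Set N) ⊆ {q : N | ∃ x ∈ A, f x = α q ∧ P x q} := by
    apply dense_composant ⟨isClosed_univ, isConnected_univ⟩ (mem_univ z) hne hcl
    intro L _ hL hLne hzL q' hq'
    obtain ⟨x, hxA, hxz, hPx⟩ := hz
    have hLc : Ctm (α '' L) :=
      ⟨(hL.1.isCompact.image h.hα).isClosed, hL.2.image α h.hα.continuousOn⟩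
    have hxL : f x ∈ α '' L := ⟨z, hzL, hxz.symm⟩
    obtain ⟨x', hx', hfx'⟩ := hc.surj hLc hxL (mem_image_of_mem α hq')
    have hx'A : x' ∈ A := by
      rw [hAeq] at hxA ⊢
      exact cc_sub_cc (image_subset_range α L) hxA hx'
    exact ⟨x', hx'A, hfx', (unif L hL hLne x hxA hxL x' hx' z hzL q' hq' hxz hfx').1 hPx⟩
  exact key (mem_univ q)

/-- [H3] -/
theorem Core.both [ConnectedSpace N] (h : Core f α A χ ε₀) (hf : Continuous f) (hc : Conf f)
    (q : N) :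
    (∃ x ∈ A, f x = α q ∧ χ x q) ∧ (∃ x ∈ A, f x = α q ∧ ¬ χ x q) := by
  have hcl' : ∀ x ∈ A, ∀ x' ∈ A, ∀ q q', f x = α q → f x' = α q' → dist x x' < ε₀ →
      dist q q' < ε₀ → (¬ χ x q ↔ ¬ χ x' q') := fun x hx x' hx' q q' h1 h2 h3 h4 =>
    not_congr (h.close x hx x' hx' q q' h1 h2 h3 h4)
  have hun' : ∀ N' : Set N, Ctm N' → N' ≠ univ → ∀ x ∈ A, f x ∈ α '' N' →
      ∀ x' ∈ cc f (α '' N') x, ∀ q ∈ N', ∀ q' ∈ N', f x = α q → f x' = α q' →
        (¬ χ x q ↔ ¬ χ x' q') := fun N' h1 h2 x hx h3 x' hx' q hq q' hq' h4 h5 =>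
    not_congr (h.unif N' h1 h2 x hx h3 x' hx' q hq q' hq' h4 h5)
  obtain ⟨xp, hxp, qp, hqp, hP⟩ := h.pos
  obtain ⟨xn, hxn, qn, hqn, hN⟩ := h.neg
  by_cases hsub : ∃ z : N, (univ : Set N) = {z}
  · exfalso
    obtain ⟨z, hz⟩ := hsub
    have hall : ∀ w : N, w = z := fun w => by
      have : w ∈ (univ : Set N) := mem_univ w
      rw [hz] at this; exact this
    obtain ⟨x₀, hx₀, hAeq⟩ := h.hA
    have hApre : IsPreconnected A := by rw [hAeq]; exact isPreconnected_cc _ _ _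
    have hAz : ∀ x ∈ A, f x = α z := by
      intro x hx
      rw [hAeq] at hx
      obtain ⟨w, hw⟩ := cc_sub f (range α) x₀ hx
      rw [← hw, hall w]
    have hloc : LocC A (fun x => χ x z) := by
      refine ⟨ε₀, h.hε₀, fun x hx y hy hxy => propext ?_⟩
      exact h.close x hx y hy z z (hAz x hx) (hAz y hy) hxy (by rw [dist_self]; exact h.hε₀)
    have hconst := LocC.const hloc hApre xp hxp xn hxn
    rw [hall qp] at hP
    rw [hall qn] at hN
    exact hN (hconst ▸ hP)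
  · push Not at hsub
    exact ⟨h3_all h hf hc χ h.close h.unif (hsub qp) ⟨xp, hxp, hqp, hP⟩ q,
      h3_all h hf hc (fun x q => ¬ χ x q) hcl' hun' (hsub qn) ⟨xn, hxn, hqn, hN⟩ q⟩

/-- [H3] -/
theorem Core.proper_image [ConnectedSpace N] (h : Core f α A χ ε₀) (hf : Continuous f)
    (hc : Conf f) {N' : Set N}
    (hN' : Ctm N') (hne : N' ≠ univ) : α '' N' ≠ range α := by
  intro heq
  obtain ⟨q, hq⟩ := hN'.2.nonempty
  obtain ⟨⟨x, hx, hxq, hP⟩, x', hx', hx'q, hN⟩ := Core.both h hf hc q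
  obtain ⟨x₀, hx₀, hAeq⟩ := h.hA
  have hxx' : x' ∈ cc f (α '' N') x := by
    rw [heq]
    rw [hAeq] at hx hx'
    rw [cc_eq hx]; exact hx'
  exact hN ((h.unif N' hN' hne x hx ⟨q, hq, hxq.symm⟩ x' hxx' q hq q hq hxq hx'q).1 hP)

end RowH3

section RowH4

open Set Filter Topology

variable {X Y : Type*} [MetricSpace X] [CompactSpace X] [MetricSpace Y] [CompactSpace Y]
  {f : X → Y} {N : Type} [MetricSpace N] [CompactSpace N] {α : N → Y} {A : Set X}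
  {χ : X → N → Prop} {ε₀ : ℝ} [ConnectedSpace N]

/-- [H4] -/
theorem Core.not_dep (h : Core f α A χ ε₀) (hf : Continuous f) (hc : Conf f)
    (hdep : ∀ q q' : N, α q = α q' → ∀ x ∈ A, f x = α q → (χ x q ↔ χ x q')) : False := by
  have hAr : ∀ x ∈ A, f x ∈ range α := by
    obtain ⟨x₀, hx₀, rfl⟩ := h.hA
    exact fun x hx => cc_sub f (range α) x₀ hx
  have hApre : IsPreconnected A := by
    obtain ⟨x₀, hx₀, rfl⟩ := h.hA
    exact isPreconnected_cc f (range α) x₀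
  set g : X → Prop := fun x => ∃ q, f x = α q ∧ χ x q with hg
  have hgq : ∀ x ∈ A, ∀ q, f x = α q → (g x ↔ χ x q) := by
    intro x hx q hq
    constructor
    · rintro ⟨q', hq', hχ⟩
      exact (hdep q' q (by rw [← hq', hq]) x hx hq').mp hχ
    · intro hχ
      exact ⟨q, hq, hχ⟩
  have hloc : ∀ x ∈ A, ∀ᶠ x' in 𝓝[A] x, (g x ↔ g x') := by
    intro x hx
    obtain ⟨δ₁, hδ₁, H1⟩ := close_fibre h.hα isClosed_univ (f x) h.hε₀
    obtain ⟨δ₂, hδ₂, H2⟩ := Metric.continuousAt_iff.mp (hf.continuousAt (x := x)) δ₁ hδ₁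
    filter_upwards [self_mem_nhdsWithin,
      mem_nhdsWithin_of_mem_nhds (Metric.ball_mem_nhds x (lt_min hδ₂ h.hε₀))] with x' hx' hxx'
    have hd : dist x' x < min δ₂ ε₀ := hxx'
    obtain ⟨q', hq'⟩ := hAr x' hx'
    obtain ⟨q, -, hq, hqq'⟩ := H1 q' (mem_univ _) (by
      rw [hq', dist_comm]; exact H2 (hd.trans_le (min_le_left _ _)))
    rw [hgq x hx q hq.symm, hgq x' hx' q' hq'.symm]
    exact h.close x hx x' hx' q q' hq.symm hq'.symm
      (by rw [dist_comm]; exact hd.trans_le (min_le_right _ _)) hqq'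
  obtain ⟨x, hx, q, hfx, hχ⟩ := h.pos
  obtain ⟨x', hx', q', hfx', hχ'⟩ := h.neg
  have hxx' : g x ↔ g x' := by
    refine hApre.induction₂' (fun x y => (g x ↔ g y)) ?_ ?_ hx hx'
    · intro y hy
      filter_upwards [hloc y hy] with z hz
      exact ⟨hz, hz.symm⟩
    · intro a b c _ _ _ h1 h2
      exact h1.trans h2
  rw [hgq x hx q hfx, hgq x' hx' q' hfx'] at hxx'
  exact hχ' (hxx'.mp hχ)

end RowH4

section RowH5

open Set Filter Topology

variable {X Y : Type*} [MetricSpace X] [CompactSpace X] [MetricSpace Y] [CompactSpace Y]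
  {f : X → Y} {N : Type} [MetricSpace N] [CompactSpace N] {α : N → Y} {A : Set X}
  {χ : X → N → Prop} {ε₀ : ℝ}

/-- two sequences of lifts of the same points, one in a proper subcontinuum, agree eventually -/
theorem h5_agree (h : Core f α A χ ε₀) (hf : Continuous f) {N₁ : Set N} (hN₁ : Ctm N₁)
    (hne : N₁ ≠ univ) {q₀ : N} (hq₀ : q₀ ∈ N₁) (q q' : ℕ → N)
    (hq : Tendsto q atTop (𝓝 q₀)) (hq' : ∀ j, q' j ∈ N₁) (hqq : ∀ j, α (q j) = α (q' j)) :
    ∃ j, ∀ x ∈ A, f x = α (q j) → (χ x (q j) ↔ χ x (q' j)) := by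
  by_contra hcon
  push Not at hcon
  choose x hxA hfx hx using hcon
  have hAc : IsClosed A := by
    obtain ⟨x₀, hx₀, rfl⟩ := h.hA
    exact isClosed_cc hf (isCompact_range h.hα).isClosed x₀
  obtain ⟨⟨a, b⟩, -, φ, hφ, hlim⟩ := (isCompact_univ (X := X × N)).tendsto_subseq
    (x := fun j => (x j, q' j)) (fun _ => mem_univ _)
  have hlim1 : Tendsto (fun j => x (φ j)) atTop (𝓝 a) :=
    (continuous_fst.tendsto (a, b)).comp hlim
  have hlim2 : Tendsto (fun j => q' (φ j)) atTop (𝓝 b) :=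
    (continuous_snd.tendsto (a, b)).comp hlim
  have hlim3 : Tendsto (fun j => q (φ j)) atTop (𝓝 q₀) := hq.comp hφ.tendsto_atTop
  have haA : a ∈ A := hAc.mem_of_tendsto hlim1 (Eventually.of_forall fun j => hxA _)
  have hbN : b ∈ N₁ := hN₁.1.mem_of_tendsto hlim2 (Eventually.of_forall fun j => hq' _)
  have e1 : f a = α q₀ := by
    have t1 : Tendsto (fun j => f (x (φ j))) atTop (𝓝 (f a)) := (hf.tendsto a).comp hlim1
    have t2 : Tendsto (fun j => α (q (φ j))) atTop (𝓝 (α q₀)) := (h.hα.tendsto q₀).comp hlim3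
    have : (fun j => f (x (φ j))) = fun j => α (q (φ j)) := funext fun j => hfx _
    rw [this] at t1
    exact tendsto_nhds_unique t1 t2
  have e2 : α b = α q₀ := by
    have t1 : Tendsto (fun j => α (q' (φ j))) atTop (𝓝 (α b)) := (h.hα.tendsto b).comp hlim2
    have t2 : Tendsto (fun j => α (q (φ j))) atTop (𝓝 (α q₀)) := (h.hα.tendsto q₀).comp hlim3
    have : (fun j => α (q' (φ j))) = fun j => α (q (φ j)) := funext fun j => (hqq _).symm
    rw [this] at t1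
    exact tendsto_nhds_unique t1 t2
  have hu : χ a q₀ ↔ χ a b := by
    have hm : f a ∈ α '' N₁ := ⟨q₀, hq₀, e1.symm⟩
    exact h.unif N₁ hN₁ hne a haA hm a (mem_cc hm) q₀ hq₀ b hbN e1 (e1.trans e2.symm)
  have c1 : ∀ᶠ j in atTop, dist (x (φ j)) a < ε₀ := (Metric.tendsto_nhds.1 hlim1) _ h.hε₀
  have c2 : ∀ᶠ j in atTop, dist (q' (φ j)) b < ε₀ := (Metric.tendsto_nhds.1 hlim2) _ h.hε₀
  have c3 : ∀ᶠ j in atTop, dist (q (φ j)) q₀ < ε₀ := (Metric.tendsto_nhds.1 hlim3) _ h.hε₀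
  obtain ⟨j, d1, d2, d3⟩ := (c1.and (c2.and c3)).exists
  have k1 := h.close (x (φ j)) (hxA _) a haA (q (φ j)) q₀ (hfx _) e1 d1 d3
  have k2 := h.close (x (φ j)) (hxA _) a haA (q' (φ j)) b ((hfx _).trans (hqq _))
    (e1.trans e2.symm) d1 d2
  have k3 : χ (x (φ j)) (q (φ j)) ↔ χ (x (φ j)) (q' (φ j)) := k1.trans (hu.trans k2.symm)
  rcases hx (φ j) with ⟨p1, p2⟩ | ⟨p1, p2⟩
  · exact p2 (k3.1 p1)
  · exact p1 (k3.2 p2)

theorem h5_claim (h : Core f α A χ ε₀) [ConnectedSpace N] (hf : Continuous f) (hc : Conf f)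
    (hHU : HU Y)
    (hW : ∀ L : Set Y, Ctm L → L ⊆ range α → ∃ N' : Set N, Ctm N' ∧ α '' N' = L)
    {K₁ K₂ : Set Y} (hK₁ : Ctm K₁) (hK₂ : Ctm K₂) (hK : K₁ ∪ K₂ = range α)
    (h1 : K₁ ≠ range α) (h2 : K₂ ≠ range α) {y : Y} (hy : y ∈ K₁) :
    ∃ q₁ : N, α q₁ = y ∧ ∀ q' : N, α q' = y → ∀ x ∈ A, f x = y → (χ x q' ↔ χ x q₁) := by
  have hs1 : K₁ ⊆ range α := hK ▸ subset_union_left
  have hs2 : K₂ ⊆ range α := hK ▸ subset_union_right
  obtain ⟨N₁, hN₁, hN₁K⟩ := hW K₁ hK₁ hs1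
  have hne : N₁ ≠ univ := by
    rintro rfl
    rw [image_univ] at hN₁K
    exact h1 hN₁K.symm
  obtain ⟨q₁, hq₁, hq₁y⟩ : y ∈ α '' N₁ := hN₁K ▸ hy
  refine ⟨q₁, hq₁y, fun q' hq' x hx hfx => ?_⟩
  obtain ⟨y₀, hy₀, hy₀2⟩ : ∃ y₀ ∈ range α, y₀ ∉ K₂ := by
    by_contra hcon
    push Not at hcon
    exact h2 (Subset.antisymm hs2 hcon)
  have hy₀1 : y₀ ∈ K₁ := by
    rcases (hK ▸ hy₀ : y₀ ∈ K₁ ∪ K₂) with h' | h'
    · exact h'
    · exact absurd h' hy₀2
  obtain ⟨q₀, hq₀, hq₀y⟩ : y₀ ∈ α '' N₁ := hN₁K ▸ hy₀1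
  have huniv : (univ : Set N) ≠ {q'} := by
    intro he
    apply hne
    obtain ⟨z, hz⟩ := hN₁.2.nonempty
    have hz' : z = q' := by
      have : z ∈ (univ : Set N) := mem_univ _
      rw [he] at this
      exact this
    refine eq_univ_of_forall fun w => ?_
    have : w ∈ (univ : Set N) := mem_univ _
    rw [he] at this
    have hw : w = q' := this
    rw [hw, ← hz']
    exact hz
  have hd : ∀ j : ℕ, ∃ L : Set N, Ctm L ∧ L ≠ univ ∧ q' ∈ L ∧ ∃ q ∈ L,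
      dist q₀ q < 1 / ((j : ℝ) + 1) := by
    intro j
    obtain ⟨L, -, hL, hL', hz, hdn⟩ := exists_dense_proper (K := (univ : Set N))
      ⟨isClosed_univ, isConnected_univ⟩ (mem_univ q') huniv
      (δ := 1 / ((j : ℝ) + 1)) (by positivity)
    exact ⟨L, hL, hL', hz, hdn q₀ (mem_univ _)⟩
  choose L hL hLne hLq' q hqL hqd using hd
  have hqlim : Tendsto q atTop (𝓝 q₀) := by
    rw [tendsto_iff_dist_tendsto_zero]
    refine squeeze_zero (fun _ => dist_nonneg) (fun j => ?_)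
      tendsto_one_div_add_atTop_nhds_zero_nat
    rw [dist_comm]
    exact (hqd j).le
  have hev : ∀ᶠ j in atTop, α (q j) ∉ K₂ := by
    have ht : Tendsto (fun j => α (q j)) atTop (𝓝 (α q₀)) := (h.hα.tendsto q₀).comp hqlim
    have ho : K₂ᶜ ∈ 𝓝 (α q₀) := hK₂.1.isOpen_compl.mem_nhds (by rw [hq₀y]; exact hy₀2)
    exact ht ho
  obtain ⟨m, hm⟩ := eventually_atTop.1 hev
  have hK1 : ∀ j, α (q (j + m)) ∈ α '' N₁ := by
    intro j
    have h' : α (q (j + m)) ∈ K₁ ∪ K₂ := hK ▸ mem_range_self _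
    rcases h' with h' | h'
    · rw [hN₁K]; exact h'
    · exact absurd h' (hm _ (by omega))
  choose qt hqt hqt' using hK1
  obtain ⟨j, hj⟩ := h5_agree h hf hN₁ hne hq₀ (fun j => q (j + m)) qt
    (hqlim.comp (tendsto_add_atTop_nat m)) hqt (fun j => (hqt' j).symm)
  have hjj : ∀ x ∈ A, f x = α (q (j + m)) → (χ x (q (j + m)) ↔ χ x (qt j)) := hj
  clear hj
  have hLK : Ctm (α '' (L (j + m))) :=
    ⟨((hL (j + m)).1.isCompact.image h.hα).isClosed,
      (hL (j + m)).2.image α h.hα.continuousOn⟩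
  have hyH : y ∈ K₁ ∩ α '' L (j + m) := ⟨hy, q', hLq' _, hq'⟩
  have hqH : α (q (j + m)) ∈ K₁ ∩ α '' L (j + m) :=
    ⟨hN₁K ▸ ⟨qt j, hqt j, hqt' j⟩, q (j + m), hqL _, rfl⟩
  have hH : Ctm (K₁ ∩ α '' L (j + m)) :=
    ⟨hK₁.1.inter hLK.1, hHU _ _ hK₁ hLK ⟨y, hyH⟩⟩
  have hxH : f x ∈ K₁ ∩ α '' L (j + m) := by rw [hfx]; exact hyH
  obtain ⟨x', hx', hfx'⟩ := hc.surj hH hxH hqH
  have hx'A : x' ∈ A := by
    obtain ⟨x₀, hx₀, hAe⟩ := h.hA
    rw [hAe] at hx ⊢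
    exact cc_sub_cc (inter_subset_left.trans hs1) hx hx'
  have u1 : χ x q₁ ↔ χ x' (qt j) := by
    refine h.unif N₁ hN₁ hne x hx ?_ x' ?_ q₁ hq₁ (qt j) (hqt j) (hfx.trans hq₁y.symm)
      (hfx'.trans (hqt' j).symm)
    · rw [hN₁K]; exact hxH.1
    · rw [hN₁K]; exact cc_mono f inter_subset_left x hx'
  have u2 : χ x q' ↔ χ x' (q (j + m)) := by
    refine h.unif (L (j + m)) (hL _) (hLne _) x hx ?_ x' ?_ q' (hLq' _) (q (j + m)) (hqL _)
      (hfx.trans hq'.symm) hfx'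
    · exact hxH.2
    · exact cc_mono f inter_subset_right x hx'
  exact u2.trans ((hjj x' hx'A hfx').trans u1.symm)

/-- [H5] the decomposable case -/
theorem Core.decomposable_false [ConnectedSpace N] (h : Core f α A χ ε₀) (hf : Continuous f)
    (hc : Conf f) (hHU : HU Y)
    (hW : ∀ L : Set Y, Ctm L → L ⊆ range α → ∃ N' : Set N, Ctm N' ∧ α '' N' = L)
    {K₁ K₂ : Set Y} (hK₁ : Ctm K₁) (hK₂ : Ctm K₂) (hK : K₁ ∪ K₂ = range α)
    (h1 : K₁ ≠ range α) (h2 : K₂ ≠ range α) : False := by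
  refine h.not_dep hf hc fun q q' hqq x hx hfx => ?_
  have hy : α q ∈ K₁ ∪ K₂ := hK ▸ mem_range_self _
  rcases hy with hy | hy
  · obtain ⟨q₁, -, hq₁⟩ := h5_claim h hf hc hHU hW hK₁ hK₂ hK h1 h2 hy
    exact (hq₁ q rfl x hx hfx).trans (hq₁ q' hqq.symm x hx hfx).symm
  · obtain ⟨q₁, -, hq₁⟩ := h5_claim h hf hc hHU hW hK₂ hK₁ (by rw [union_comm]; exact hK) h2 h1 hy
    exact (hq₁ q rfl x hx hfx).trans (hq₁ q' hqq.symm x hx hfx).symm

end RowH5

end Pool.Agent.MP_a56558_gt
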