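import Pool.Agent.MP_a56558_gt.F.FH1

set_option autoImplicit false

namespace Pool.Agent.MP_a56558_gt

open Set Filter Topology

section HDefs

variable {X Y : Type*} [MetricSpace X] [CompactSpace X] [MetricSpace Y] [CompactSpace Y]
  {f : X → Y} {N : Type} [MetricSpace N] [CompactSpace N] {α : N → Y} {A : Set X}
  {χ : X → N → Prop} {ε₀ : ℝ}

variable [ConnectedSpace N]

/-- the true part of the fibre over `α q` -/
def fibP (f : X → Y) (α : N → Y) (A : Set X) (χ : X → N → Prop) (q : N) : Set X :=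
  {x | x ∈ A ∧ f x = α q ∧ χ x q}

/-- the cut defined by `N'` -/
def cutP (f : X → Y) (α : N → Y) (A : Set X) (χ : X → N → Prop) (N' : Set N) : Set X :=
  {x | x ∈ A ∧ ∃ q ∈ N', f x = α q ∧ χ x q}

/-- the cuts over `L` -/
def cuts (f : X → Y) (α : N → Y) (A : Set X) (χ : X → N → Prop) (L : Set Y) : Set (Set X) :=
  {S | ∃ N' : Set N, Ctm N' ∧ α '' N' = L ∧ S = cutP f α A χ N'}

/-- traces on the fibre over `y` of the cuts over `L` -/
def cutsAt (f : X → Y) (α : N → Y) (A : Set X) (χ : X → N → Prop) (L : Set Y) (y : Y) :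
    Set (Set X) :=
  (fun S => S ∩ f ⁻¹' {y}) '' cuts f α A χ L

/-- the partitions of the fibre over `y` -/
def parts (f : X → Y) (α : N → Y) (A : Set X) (χ : X → N → Prop) (y : Y) : Set (Set X) :=
  {S | ∃ q : N, α q = y ∧ S = fibP f α A χ q}


end HDefs

section RowH6

open Set Filter Topology

variable {X Y : Type*} [MetricSpace X] [CompactSpace X] [MetricSpace Y] [CompactSpace Y]
  {f : X → Y} {N : Type} [MetricSpace N] [CompactSpace N] {α : N → Y} {A : Set X}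
  {χ : X → N → Prop} {ε₀ : ℝ} [ConnectedSpace N]

/-- [H6] -/
theorem Core.cutP_inter (h : Core f α A χ ε₀) (hf : Continuous f) (hc : Conf f) {N' : Set N}
    (hN' : Ctm N') (hne : N' ≠ univ) {q : N} (hq : q ∈ N') :
    cutP f α A χ N' ∩ f ⁻¹' {α q} = fibP f α A χ q := by
  ext x
  constructor
  · rintro ⟨⟨hx, q', hq', hfx, hχ⟩, hfq⟩
    have hfq' : f x = α q := hfq
    refine ⟨hx, hfq', ?_⟩
    have hfN : f x ∈ α '' N' := ⟨q, hq, hfq'.symm⟩
    exact (h.unif N' hN' hne x hx hfN x (mem_cc hfN) q' hq' q hq hfx hfq').mp hχ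
  · rintro ⟨hx, hfx, hχ⟩
    exact ⟨⟨hx, q, hq, hfx, hχ⟩, hfx⟩

/-- [H6] a cut is determined by its trace on any fibre -/
theorem Core.cutP_eq (h : Core f α A χ ε₀) (hf : Continuous f) (hc : Conf f) {N' N'' : Set N}
    (hN' : Ctm N') (hne : N' ≠ univ) (hN'' : Ctm N'') (hne'' : N'' ≠ univ)
    (hL : α '' N' = α '' N'') {y : Y} (hy : y ∈ α '' N')
    (he : cutP f α A χ N' ∩ f ⁻¹' {y} = cutP f α A χ N'' ∩ f ⁻¹' {y}) :
    cutP f α A χ N' = cutP f α A χ N'' := by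
  have key : ∀ M M' : Set N, Ctm M → M ≠ univ → Ctm M' → M' ≠ univ → α '' M = α '' M' →
      y ∈ α '' M → cutP f α A χ M ∩ f ⁻¹' {y} = cutP f α A χ M' ∩ f ⁻¹' {y} →
      cutP f α A χ M ⊆ cutP f α A χ M' := by
    intro M M' hM hMne hM' hM'ne hMM hyM hcut x hx
    obtain ⟨hxA, q, hq, hfx, hχ⟩ := hx
    have hLC : Ctm (α '' M) :=
      ⟨(hM.1.isCompact.image h.hα).isClosed, hM.2.image α h.hα.continuousOn⟩
    have hfL : f x ∈ α '' M := ⟨q, hq, hfx.symm⟩
    obtain ⟨x₁, hx₁, hfx₁⟩ := hc.surj hLC hfL hyM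
    obtain ⟨q₁, hq₁, hαq₁⟩ := hyM
    have hx₁A : x₁ ∈ A := by
      obtain ⟨x₀, hx₀, rfl⟩ := h.hA
      exact cc_sub_cc (image_subset_range α M) hxA hx₁
    have hχ₁ : χ x₁ q₁ :=
      (h.unif M hM hMne x hxA hfL x₁ hx₁ q hq q₁ hq₁ hfx (by rw [hfx₁, hαq₁])).mp hχ
    have hmem : x₁ ∈ cutP f α A χ M ∩ f ⁻¹' {y} :=
      ⟨⟨hx₁A, q₁, hq₁, by rw [hfx₁, hαq₁], hχ₁⟩, hfx₁⟩
    rw [hcut] at hmem
    obtain ⟨⟨-, q₂, hq₂, hfx₂, hχ₂⟩, -⟩ := hmem
    have hfL' : f x ∈ α '' M' := by rw [← hMM]; exact hfL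
    obtain ⟨q₃, hq₃, hαq₃⟩ := hfL'
    rw [hMM] at hx₁
    have hfL' : f x ∈ α '' M' := by rw [← hMM]; exact hfL
    exact ⟨hxA, q₃, hq₃, hαq₃.symm,
      (h.unif M' hM' hM'ne x hxA hfL' x₁ hx₁ q₃ hq₃ q₂ hq₂ hαq₃.symm hfx₂).mpr hχ₂⟩
  exact Subset.antisymm (key N' N'' hN' hne hN'' hne'' hL hy he)
    (key N'' N' hN'' hne'' hN' hne hL.symm (by rw [← hL]; exact hy) he.symm)

end RowH6

section RowH7

open Set Filter Topology

section H

variable {X Y : Type*} [MetricSpace X] [CompactSpace X] [MetricSpace Y] [CompactSpace Y]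
  {f : X → Y} {N : Type} [MetricSpace N] [CompactSpace N] {α : N → Y} {A : Set X}
  {χ : X → N → Prop} {ε₀ : ℝ}

variable [ConnectedSpace N]

/-- [H7] -/
theorem Core.parts_finite (h : Core f α A χ ε₀) (y : Y) : (parts f α A χ y).Finite := by
  have h1 : LocC (α ⁻¹' {y}) (fibP f α A χ) := by
    refine ⟨ε₀, h.hε₀, ?_⟩
    intro q hq q' hq' hqq'
    have hq1 : α q = y := hq
    have hq2 : α q' = y := hq'
    ext x
    simp only [fibP, mem_setOf_eq]
    have hd : dist x x < ε₀ := by rw [dist_self]; exact h.hε₀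
    constructor
    · rintro ⟨hx, hfx, hχ⟩
      have hfx' : f x = α q' := by rw [hfx, hq1, hq2]
      exact ⟨hx, hfx', (h.close x hx x hx q q' hfx hfx' hd hqq').1 hχ⟩
    · rintro ⟨hx, hfx, hχ⟩
      have hfx' : f x = α q := by rw [hfx, hq1, hq2]
      exact ⟨hx, hfx', (h.close x hx x hx q q' hfx' hfx hd hqq').2 hχ⟩
  have h2 := h1.finite_image (isClosed_singleton.preimage h.hα)
  refine h2.subset ?_
  rintro S ⟨q, hq, rfl⟩
  exact ⟨q, hq, rfl⟩

theorem h7_ne {L : Set Y} (hne : L ≠ range α) {N' : Set N} (hL : α '' N' = L) : N' ≠ univ := by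
  rintro rfl
  rw [image_univ] at hL
  exact hne hL.symm

/-- [H7] -/
theorem Core.cutsAt_sub (h : Core f α A χ ε₀) (hf : Continuous f) (hc : Conf f) {L : Set Y}
    (hL : Ctm L) (hne : L ≠ range α) {y : Y} (hy : y ∈ L) :
    cutsAt f α A χ L y ⊆ parts f α A χ y := by
  rintro _ ⟨_, ⟨N', hN', hLN', rfl⟩, rfl⟩
  have hy' : y ∈ α '' N' := by rw [hLN']; exact hy
  obtain ⟨q, hq, rfl⟩ := hy'
  exact ⟨q, rfl, h.cutP_inter hf hc hN' (h7_ne hne hLN') hq⟩

/-- [H7] -/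
theorem Core.cuts_ncard (h : Core f α A χ ε₀) (hf : Continuous f) (hc : Conf f) {L : Set Y}
    (hL : Ctm L) (hne : L ≠ range α) {y : Y} (hy : y ∈ L) :
    (cuts f α A χ L).Finite ∧ (cutsAt f α A χ L y).ncard = (cuts f α A χ L).ncard := by
  have hinj : InjOn (fun S : Set X => S ∩ f ⁻¹' {y}) (cuts f α A χ L) := by
    rintro _ ⟨N', hN', hLN', rfl⟩ _ ⟨N'', hN'', hLN'', rfl⟩ he
    exact h.cutP_eq hf hc hN' (h7_ne hne hLN') hN'' (h7_ne hne hLN'') (hLN'.trans hLN''.symm)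
      (y := y) (by rw [hLN']; exact hy) he
  have hfin : (cutsAt f α A χ L y).Finite :=
    (Core.parts_finite h y).subset (Core.cutsAt_sub h hf hc hL hne hy)
  exact ⟨Finite.of_finite_image hfin hinj, ncard_image_of_injOn hinj⟩

/-- [H7] -/
theorem Core.cutsAt_mono (h : Core f α A χ ε₀) (hf : Continuous f) (hc : Conf f)
    (hW : ∀ N₁ : Set N, Ctm N₁ → ∀ L : Set Y, Ctm L → L ⊆ α '' N₁ →
      ∃ N' ⊆ N₁, Ctm N' ∧ α '' N' = L)
    {L L' : Set Y} (hL : Ctm L) (hLL' : L ⊆ L') (hne : L' ≠ range α) {y : Y} (hy : y ∈ L) :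
    cutsAt f α A χ L' y ⊆ cutsAt f α A χ L y := by
  rintro _ ⟨_, ⟨N', hN', hLN', rfl⟩, rfl⟩
  obtain ⟨N'', hN'', hctm, hLN''⟩ := hW N' hN' L hL (by rw [hLN']; exact hLL')
  have hneL : L ≠ range α := by
    rintro rfl
    exact hne (subset_antisymm (by rw [← hLN']; exact image_subset_range _ _) hLL')
  refine ⟨cutP f α A χ N'', ⟨N'', hctm, hLN'', rfl⟩, ?_⟩
  have hy' : y ∈ α '' N'' := by rw [hLN'']; exact hy
  obtain ⟨q, hq, rfl⟩ := hy'
  show cutP f α A χ N'' ∩ f ⁻¹' {α q} = cutP f α A χ N' ∩ f ⁻¹' {α q}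
  rw [h.cutP_inter hf hc hctm (h7_ne hneL hLN'') hq, h.cutP_inter hf hc hN' (h7_ne hne hLN') (hN'' hq)]

end H

end RowH7

section RowH8

open Set Filter Topology

section H8

variable {X Y : Type*} [MetricSpace X] [CompactSpace X] [MetricSpace Y] [CompactSpace Y]
  {f : X → Y} {N : Type} [MetricSpace N] [CompactSpace N] {α : N → Y} {A : Set X}
  {χ : X → N → Prop} {ε₀ : ℝ}

theorem h8_closedA (h : Core f α A χ ε₀) (hf : Continuous f) : IsClosed A := by
  obtain ⟨x₀, -, rfl⟩ := h.hA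
  exact isClosed_cc hf (isCompact_range h.hα).isClosed x₀

/-- the limit of different cuts over `L j → L₀` -/
theorem h8_aux (h : Core f α A χ ε₀) (hf : Continuous f) {L₀ : Set Y}
    (hne : L₀ ≠ range α) {U : Ultrafilter ℕ} {P Q : ℕ → Set N}
    (hPQ : ∀ j, α '' P j = α '' Q j) (hlimQ : α '' ulim U Q = L₀) (hQc : Ctm (ulim U Q))
    (hd : ∀ᶠ j in (U : Filter ℕ), ∃ x, x ∈ cutP f α A χ (P j) ∧ x ∉ cutP f α A χ (Q j)) :
    cutP f α A χ (ulim U P) ≠ cutP f α A χ (ulim U Q) := by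
  intro heq
  have hαc := h.hα
  have hwit : ∀ᶠ j in (U : Filter ℕ), ∃ t : X × N × N, t.1 ∈ A ∧ t.2.1 ∈ P j ∧ f t.1 = α t.2.1 ∧
      χ t.1 t.2.1 ∧ t.2.2 ∈ Q j ∧ f t.1 = α t.2.2 ∧ ¬ χ t.1 t.2.2 := by
    filter_upwards [hd] with j hj
    obtain ⟨x, ⟨hxA, q, hq, hfq, hχ⟩, hx2⟩ := hj
    have h1 : f x ∈ α '' Q j := by
      rw [← hPQ j, hfq]
      exact mem_image_of_mem _ hq
    obtain ⟨q', hq', hfq'⟩ := h1
    refine ⟨(x, q, q'), hxA, hq, hfq, hχ, hq', hfq'.symm, ?_⟩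
    intro hχ'
    exact hx2 ⟨hxA, q', hq', hfq'.symm, hχ'⟩
  obtain ⟨t, ht⟩ := hwit.choice
  obtain ⟨x, hxA, hx, -⟩ := lim_mem_ulim (U := U) (A := fun _ => A) (a := fun j => (t j).1)
    (h8_closedA h hf).isCompact (ht.mono fun j hj => hj.1) (ht.mono fun j hj => hj.1)
  obtain ⟨q, -, hq, hqP⟩ := lim_mem_ulim (U := U) (A := P) (a := fun j => (t j).2.1)
    isCompact_univ (ht.mono fun j hj => hj.2.1) (Eventually.of_forall fun _ => mem_univ _)
  obtain ⟨q', -, hq', hqQ⟩ := lim_mem_ulim (U := U) (A := Q) (a := fun j => (t j).2.2)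
    isCompact_univ (ht.mono fun j hj => hj.2.2.2.2.1) (Eventually.of_forall fun _ => mem_univ _)
  have e1 : f x = α q := by
    have a1 : Tendsto (fun j => f (t j).1) (U : Filter ℕ) (𝓝 (f x)) := (hf.tendsto x).comp hx
    have a2 : Tendsto (fun j => α (t j).2.1) (U : Filter ℕ) (𝓝 (α q)) := (hαc.tendsto q).comp hq
    exact tendsto_nhds_unique (a1.congr' (ht.mono fun j hj => hj.2.2.1)) a2
  have e2 : f x = α q' := by
    have a1 : Tendsto (fun j => f (t j).1) (U : Filter ℕ) (𝓝 (f x)) := (hf.tendsto x).comp hx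
    have a2 : Tendsto (fun j => α (t j).2.2) (U : Filter ℕ) (𝓝 (α q')) := (hαc.tendsto q').comp hq'
    exact tendsto_nhds_unique (a1.congr' (ht.mono fun j hj => hj.2.2.2.2.2.1)) a2
  have hx' : ∀ᶠ j in (U : Filter ℕ), dist (t j).1 x < ε₀ :=
    hx.eventually (Metric.ball_mem_nhds x h.hε₀)
  have hq1 : ∀ᶠ j in (U : Filter ℕ), dist (t j).2.1 q < ε₀ :=
    hq.eventually (Metric.ball_mem_nhds q h.hε₀)
  have hq2 : ∀ᶠ j in (U : Filter ℕ), dist (t j).2.2 q' < ε₀ :=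
    hq'.eventually (Metric.ball_mem_nhds q' h.hε₀)
  obtain ⟨j, hj, hj1, hj2, hj3⟩ := (ht.and (hx'.and (hq1.and hq2))).exists
  obtain ⟨b1, b2, b3, b4, b5, b6, b7⟩ := hj
  have c1 : χ x q := (h.close _ b1 x hxA _ q b3 e1 hj1 hj2).mp b4
  have c2 : ¬ χ x q' := fun hh => b7 ((h.close _ b1 x hxA _ q' b6 e2 hj1 hj3).mpr hh)
  have hxP : x ∈ cutP f α A χ (ulim U P) := ⟨hxA, q, hqP, e1, c1⟩
  rw [heq] at hxP
  obtain ⟨-, q'', hq'', e3, c3⟩ := hxP
  have hneU : ulim U Q ≠ univ := by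
    intro hh
    rw [hh, image_univ] at hlimQ
    exact hne hlimQ.symm
  have hfx : f x ∈ α '' ulim U Q := by
    rw [e2]
    exact mem_image_of_mem _ hqQ
  exact c2 ((h.unif _ hQc hneU x hxA hfx x (mem_cc hfx) q'' hq'' q' hqQ e3 e2).mp c3)

theorem h8_ne (h : Core f α A χ ε₀) (hf : Continuous f) {L₀ : Set Y}
    (hne : L₀ ≠ range α) {U : Ultrafilter ℕ} {P Q : ℕ → Set N}
    (hPQ : ∀ j, α '' P j = α '' Q j) (hlimP : α '' ulim U P = L₀) (hPc : Ctm (ulim U P))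
    (hlimQ : α '' ulim U Q = L₀) (hQc : Ctm (ulim U Q))
    (hd : ∀ j, cutP f α A χ (P j) ≠ cutP f α A χ (Q j)) :
    cutP f α A χ (ulim U P) ≠ cutP f α A χ (ulim U Q) := by
  have hor : ∀ᶠ j in (U : Filter ℕ),
      (∃ x, x ∈ cutP f α A χ (P j) ∧ x ∉ cutP f α A χ (Q j)) ∨
      (∃ x, x ∈ cutP f α A χ (Q j) ∧ x ∉ cutP f α A χ (P j)) := by
    refine Eventually.of_forall fun j => ?_
    by_contra hn
    push Not at hn
    exact hd j (Subset.antisymm (fun x hx => hn.1 x hx) (fun x hx => hn.2 x hx))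
  rw [Ultrafilter.eventually_or] at hor
  rcases hor with hor | hor
  · exact h8_aux h hf hne hPQ hlimQ hQc hor
  · exact (h8_aux h hf hne (fun j => (hPQ j).symm) hlimP hPc hor).symm

variable [ConnectedSpace N]

/-- [H8] upper semicontinuity of the number of cuts -/
theorem Core.cuts_usc (h : Core f α A χ ε₀) (hf : Continuous f) (hc : Conf f) {L₀ : Set Y}
    (hL₀ : Ctm L₀) (hL₀s : L₀ ⊆ range α) (hne : L₀ ≠ range α) :
    ∃ η : ℝ, 0 < η ∧ ∀ L : Set Y, Ctm L → L ⊆ range α → L ≠ range α → HNear η L L₀ →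
      (cuts f α A χ L).ncard ≤ (cuts f α A χ L₀).ncard := by
  by_contra hcon
  push Not at hcon
  have hpos : ∀ j : ℕ, (0 : ℝ) < 1 / ((j : ℝ) + 1) := fun j => by positivity
  choose L hLc hLs hLne hLn hLr using fun j : ℕ => hcon (1 / ((j : ℝ) + 1)) (hpos j)
  set r := (cuts f α A χ L₀).ncard with hr
  -- choose `r + 1` cuts over each `L j`
  have hch : ∀ j, ∃ P : Fin (r + 1) → Set N, (∀ i, Ctm (P i) ∧ α '' P i = L j) ∧
      ∀ i i', i ≠ i' → cutP f α A χ (P i) ≠ cutP f α A χ (P i') := by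
    intro j
    have hpos' : 0 < (cuts f α A χ (L j)).ncard := lt_of_le_of_lt (Nat.zero_le _) (hLr j)
    have hfin : (cuts f α A χ (L j)).Finite := finite_of_ncard_pos hpos'
    haveI : Finite (cuts f α A χ (L j)) := hfin.to_subtype
    let e := Finite.equivFin (cuts f α A χ (L j))
    have hcard : r + 1 ≤ Nat.card (cuts f α A χ (L j)) := by
      rw [Nat.card_coe_set_eq]
      exact hLr j
    let S : Fin (r + 1) → cuts f α A χ (L j) := fun i => e.symm (Fin.castLE hcard i)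
    have hS : Function.Injective S := e.symm.injective.comp (Fin.castLE_injective hcard)
    choose P hPc hPL hPS using fun i => (S i).2
    refine ⟨P, fun i => ⟨hPc i, hPL i⟩, fun i i' hii heq => hii (hS (Subtype.ext ?_))⟩
    rw [hPS i, hPS i', heq]
  choose P hP hPd using hch
  let U : Ultrafilter ℕ := hyperfilter ℕ
  have hUle : (U : Filter ℕ) ≤ atTop := Nat.hyperfilter_le_atTop
  have hUL : ulim U L = L₀ := by
    apply ulim_eq_of_hnear hL₀.1
    intro η hη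
    have h1 : ∀ᶠ j : ℕ in atTop, 1 / ((j : ℝ) + 1) < η :=
      (tendsto_one_div_add_atTop_nhds_zero_nat (𝕜 := ℝ)).eventually (gt_mem_nhds hη)
    filter_upwards [hUle h1] with j hj
    refine ⟨fun a ha => ?_, fun b hb => ?_⟩
    · obtain ⟨b, hb, hab⟩ := (hLn j).1 a ha
      exact ⟨b, hb, hab.trans hj⟩
    · obtain ⟨a, ha, hab⟩ := (hLn j).2 b hb
      exact ⟨a, ha, hab.trans hj⟩
  have hctm : ∀ i, Ctm (ulim U fun j => P j i) := fun i =>
    ctm_ulim (Eventually.of_forall fun j => (hP j i).1.2)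
  have himg : ∀ i, α '' (ulim U fun j => P j i) = L₀ := by
    intro i
    rw [image_ulim isCompact_univ (Eventually.of_forall fun j => subset_univ _) h.hα]
    simp only [(hP _ i).2]
    exact hUL
  have hfin₀ : (cuts f α A χ L₀).Finite := by
    obtain ⟨y, hy⟩ := hL₀.2.nonempty
    exact (h.cuts_ncard hf hc hL₀ hne hy).1
  haveI : Finite (cuts f α A χ L₀) := hfin₀.to_subtype
  let F : Fin (r + 1) → cuts f α A χ L₀ := fun i =>
    ⟨cutP f α A χ (ulim U fun j => P j i), _, hctm i, himg i, rfl⟩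
  have hF : Function.Injective F := by
    intro i i' hii
    by_contra hne'
    have h1 : cutP f α A χ (ulim U fun j => P j i) = cutP f α A χ (ulim U fun j => P j i') :=
      congrArg Subtype.val hii
    exact h8_ne h hf hne (fun j => ((hP j i).2).trans ((hP j i').2).symm) (himg i) (hctm i)
      (himg i') (hctm i') (fun j => hPd j i i' hne') h1
  have hle := Nat.card_le_card_of_injective F hF
  rw [Nat.card_eq_fintype_card, Fintype.card_fin, Nat.card_coe_set_eq] at hle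
  omega

end H8

end RowH8

section RowH9

open Set Filter Topology

variable {X Y : Type*} [MetricSpace X] [CompactSpace X] [MetricSpace Y] [CompactSpace Y]
  {f : X → Y} {N : Type} [MetricSpace N] [CompactSpace N] {α : N → Y} {A : Set X}
  {χ : X → N → Prop} {ε₀ : ℝ} [ConnectedSpace N]

/-- [H9] -/
theorem Core.exists_big (h : Core f α A χ ε₀) (hf : Continuous f) (hc : Conf f)
    (hW : ∀ N₁ : Set N, Ctm N₁ → ∀ L : Set Y, Ctm L → L ⊆ α '' N₁ →
      ∃ N' ⊆ N₁, Ctm N' ∧ α '' N' = L)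
    (hWs : ∀ L : Set Y, Ctm L → L ⊆ range α → ∀ ε : ℝ, 0 < ε → ∃ δ : ℝ, 0 < δ ∧
      ∀ N₁ : Set N, Ctm N₁ → (∀ y ∈ range α, ∃ q ∈ N₁, dist y (α q) < δ) →
        ∃ D ⊆ N₁, Ctm D ∧ HNear ε (α '' D) L)
    {L₀ : Set Y} (hL₀ : Ctm L₀) (hL₀s : L₀ ⊆ range α) (hne : L₀ ≠ range α) (q : N) :
    ∃ N' : Set N, Ctm N' ∧ N' ≠ univ ∧ q ∈ N' ∧
      (cuts f α A χ (α '' N')).ncard ≤ (cuts f α A χ L₀).ncard := by
  have hα := h.hα
  have himg : ∀ M : Set N, Ctm M → Ctm (α '' M) := fun M hM =>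
    ⟨(hM.1.isCompact.image hα).isClosed, hM.2.image α hα.continuousOn⟩
  have huniv : Ctm (univ : Set N) := ⟨isClosed_univ, isConnected_univ⟩
  have hne1 : (univ : Set N) ≠ {q} := by
    intro hq
    apply hne
    refine Subset.antisymm hL₀s ?_
    rintro y ⟨p, rfl⟩
    obtain ⟨z, hz⟩ := hL₀.2.nonempty
    obtain ⟨p', hp'⟩ := hL₀s hz
    have h1 : p ∈ ({q} : Set N) := hq ▸ mem_univ p
    have h2 : p' ∈ ({q} : Set N) := hq ▸ mem_univ p'
    rw [mem_singleton_iff] at h1 h2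
    rw [h1, ← h2, hp']
    exact hz
  obtain ⟨η, hη, hη2⟩ := Core.cuts_usc h hf hc hL₀ hL₀s hne
  obtain ⟨δ, hδ, hδ2⟩ := hWs L₀ hL₀ hL₀s η hη
  obtain ⟨δ', hδ', hδ'2⟩ := Metric.uniformContinuous_iff.1
    (CompactSpace.uniformContinuous_of_continuous hα) δ hδ
  obtain ⟨N', -, hN', hN'ne, hqN', hdense⟩ := exists_dense_proper huniv (mem_univ q) hne1 hδ'
  refine ⟨N', hN', hN'ne, hqN', ?_⟩
  obtain ⟨D, hDN', hD, hnear⟩ := hδ2 N' hN' (by
    rintro y ⟨p, rfl⟩
    obtain ⟨q', hq', hd⟩ := hdense p (mem_univ p)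
    exact ⟨q', hq', hδ'2 hd⟩)
  have hDne : D ≠ univ := by
    intro hD'
    apply hN'ne
    rw [hD'] at hDN'
    exact univ_subset_iff.1 hDN'
  have hDp := Core.proper_image h hf hc hD hDne
  have hN'p := Core.proper_image h hf hc hN' hN'ne
  obtain ⟨y, hy⟩ := (himg D hD).2.nonempty
  have hyN' : y ∈ α '' N' := image_mono hDN' hy
  obtain ⟨f1, e1⟩ := Core.cuts_ncard h hf hc (himg N' hN') hN'p hyN'
  obtain ⟨f2, e2⟩ := Core.cuts_ncard h hf hc (himg D hD) hDp hy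
  have hsub := Core.cutsAt_mono h hf hc hW (himg D hD) (image_mono hDN') hN'p hy
  have hfin : (cutsAt f α A χ (α '' D) y).Finite := f2.image _
  calc (cuts f α A χ (α '' N')).ncard = (cutsAt f α A χ (α '' N') y).ncard := e1.symm
    _ ≤ (cutsAt f α A χ (α '' D) y).ncard := ncard_le_ncard hsub hfin
    _ = (cuts f α A χ (α '' D)).ncard := e2
    _ ≤ _ := hη2 _ (himg D hD) (image_subset_range _ _) hDp hnear

end RowH9

section RowH10

open Set Filter Topology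

variable {X Y : Type*} [MetricSpace X] [CompactSpace X] [MetricSpace Y] [CompactSpace Y]
  {f : X → Y} {N : Type} [MetricSpace N] [CompactSpace N] {α : N → Y} {A : Set X}
  {χ : X → N → Prop} {ε₀ : ℝ} [ConnectedSpace N]

/-- [H10] in the indecomposable case all `parts y` have the same cardinality -/
theorem Core.parts_ncard (h : Core f α A χ ε₀) (hf : Continuous f) (hc : Conf f)
    (hW : ∀ N₁ : Set N, Ctm N₁ → ∀ L : Set Y, Ctm L → L ⊆ α '' N₁ →
      ∃ N' ⊆ N₁, Ctm N' ∧ α '' N' = L)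
    (hWs : ∀ L : Set Y, Ctm L → L ⊆ range α → ∀ ε : ℝ, 0 < ε → ∃ δ : ℝ, 0 < δ ∧
      ∀ N₁ : Set N, Ctm N₁ → (∀ y ∈ range α, ∃ q ∈ N₁, dist y (α q) < δ) →
        ∃ D ⊆ N₁, Ctm D ∧ HNear ε (α '' D) L)
    (hind : ∀ K₁ K₂ : Set Y, Ctm K₁ → Ctm K₂ → K₁ ∪ K₂ = range α → K₁ = range α ∨ K₂ = range α) :
    ∃ r : ℕ, ∀ y ∈ range α, (parts f α A χ y).ncard = r := by
  classical
  have hα := h.hα
  have hCtm : ∀ N' : Set N, Ctm N' → Ctm (α '' N') := fun N' hN' =>
    ⟨(hN'.1.isCompact.image hα).isClosed, hN'.2.image α hα.continuousOn⟩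
  by_cases hsing : ∃ y₀, range α = {y₀}
  · obtain ⟨y₀, hy₀⟩ := hsing
    refine ⟨(parts f α A χ y₀).ncard, fun y hy => ?_⟩
    rw [hy₀] at hy
    rw [mem_singleton_iff.mp hy]
  set 𝒮 : Set ℕ := {n | ∃ L : Set Y, Ctm L ∧ L ⊆ range α ∧ L ≠ range α ∧
    n = (cuts f α A χ L).ncard} with h𝒮
  have h𝒮ne : 𝒮.Nonempty := by
    obtain ⟨q⟩ : Nonempty N := inferInstance
    refine ⟨_, {α q}, ⟨isClosed_singleton, isConnected_singleton⟩, ?_, ?_, rfl⟩
    · rintro _ rfl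
      exact ⟨q, rfl⟩
    · intro he
      exact hsing ⟨α q, he.symm⟩
  obtain ⟨L₀, hL₀, hL₀s, hL₀ne, hr⟩ := Nat.sInf_mem h𝒮ne
  have hmin : ∀ L : Set Y, Ctm L → L ⊆ range α → L ≠ range α →
      (cuts f α A χ L₀).ncard ≤ (cuts f α A χ L).ncard := by
    intro L h1 h2 h3
    rw [← hr]
    exact Nat.sInf_le ⟨L, h1, h2, h3, rfl⟩
  refine ⟨(cuts f α A χ L₀).ncard, ?_⟩
  rintro y ⟨q, rfl⟩
  obtain ⟨N', hN', hN'ne, hqN', hN'r⟩ := h.exists_big hf hc hW hWs hL₀ hL₀s hL₀ne q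
  have hL₁ne := h.proper_image hf hc hN' hN'ne
  have hy₁ : α q ∈ α '' N' := ⟨q, hqN', rfl⟩
  have hparts : parts f α A χ (α q) = cutsAt f α A χ (α '' N') (α q) := by
    apply Subset.antisymm
    · rintro S ⟨q', hq', rfl⟩
      obtain ⟨N'', hN'', hN''ne, hqN'', hN''r⟩ := h.exists_big hf hc hW hWs hL₀ hL₀s hL₀ne q'
      have hL₂ne := h.proper_image hf hc hN'' hN''ne
      have hy₂ : α q ∈ α '' N'' := ⟨q', hqN'', hq'⟩
      have hL₃ : Ctm (α '' N' ∪ α '' N'') :=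
        ⟨(hCtm N' hN').1.union (hCtm N'' hN'').1,
          (hCtm N' hN').2.union ⟨α q, hy₁, hy₂⟩ (hCtm N'' hN'').2⟩
      have hL₃ne : α '' N' ∪ α '' N'' ≠ range α := by
        intro he
        rcases hind _ _ (hCtm N' hN') (hCtm N'' hN'') he with h1 | h1
        · exact hL₁ne h1
        · exact hL₂ne h1
      have hL₃s : α '' N' ∪ α '' N'' ⊆ range α :=
        union_subset (image_subset_range _ _) (image_subset_range _ _)
      have hy₃ : α q ∈ α '' N' ∪ α '' N'' := Or.inl hy₁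
      have key : ∀ M : Set N, Ctm M → M ≠ univ → α q ∈ α '' M →
          α '' M ⊆ α '' N' ∪ α '' N'' →
          (cuts f α A χ (α '' M)).ncard ≤ (cuts f α A χ L₀).ncard →
          cutsAt f α A χ (α '' N' ∪ α '' N'') (α q) = cutsAt f α A χ (α '' M) (α q) := by
        intro M hM hMne hyM hMs hMr
        have hMne' := h.proper_image hf hc hM hMne
        apply Set.eq_of_subset_of_ncard_le
        · exact h.cutsAt_mono hf hc hW (hCtm M hM) hMs hL₃ne hyM
        · rw [(h.cuts_ncard hf hc (hCtm M hM) hMne' hyM).2, (h.cuts_ncard hf hc hL₃ hL₃ne hy₃).2]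
          exact hMr.trans (hmin _ hL₃ hL₃s hL₃ne)
        · exact (h.parts_finite (α q)).subset (h.cutsAt_sub hf hc (hCtm M hM) hMne' hyM)
      rw [← key N' hN' hN'ne hy₁ subset_union_left hN'r,
        key N'' hN'' hN''ne hy₂ subset_union_right hN''r]
      refine ⟨cutP f α A χ N'', ⟨N'', hN'', rfl, rfl⟩, ?_⟩
      have e := h.cutP_inter hf hc hN'' hN''ne hqN''
      rw [hq'] at e
      exact e
    · exact h.cutsAt_sub hf hc (hCtm N' hN') hL₁ne hy₁
  rw [hparts, (h.cuts_ncard hf hc (hCtm N' hN') hL₁ne hy₁).2]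
  exact le_antisymm hN'r (hmin _ (hCtm N' hN') (image_subset_range _ _) hL₁ne)

end RowH10

section RowH11

open Set Filter Topology

/-- relations between two `r`-element sets with the two closeness properties are graphs of
permutations of labels -/
theorem h11_perm {r : ℕ} (Q : Fin r → Fin r → Prop) (hex : ∀ j, ∃ i, Q i j)
    (huniq : ∀ i j j', Q i j → Q i j' → j = j') :
    ∃ σ : Equiv.Perm (Fin r), ∀ i j, Q i j ↔ σ j = i := by
  choose s hs using hex
  have hinj : Function.Injective s := by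
    intro j j' hjj
    exact huniq (s j) j j' (hs j) (by rw [hjj]; exact hs j')
  have hbij : Function.Bijective s := Finite.injective_iff_bijective.mp hinj
  refine ⟨Equiv.ofBijective s hbij, fun i j => ⟨fun h => ?_, fun h => ?_⟩⟩
  · obtain ⟨j', hj'⟩ := hbij.2 i
    have h' : Q i j' := by rw [← hj']; exact hs j'
    have := huniq i j j' h h'
    rw [this]; exact hj'
  · have : s j = i := h
    rw [← this]; exact hs j

/-- [H11] monodromy lemma -/
theorem monodromy {Y : Type*} [MetricSpace Y] [CompactSpace Y] {N : Type*} [MetricSpace N]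
    [CompactSpace N] [ConnectedSpace N] {α : N → Y} (hα : Continuous α)
    (hSC : SC (range α)) {Ξ : Type*} (p : N → Ξ) (R : Y → Y → Ξ → Ξ → Prop) {ε₀ : ℝ}
    (hε₀ : 0 < ε₀) (h1 : ∀ q q' : N, dist q q' < ε₀ → R (α q) (α q') (p q) (p q'))
    (h2 : ∀ y ∈ range α, ∃ δ : ℝ, 0 < δ ∧ ∀ y' ∈ range α, dist y y' < δ →
      ∀ q q' q'' : N, α q = y → α q' = y' → α q'' = y' → R y y' (p q) (p q') →
        R y y' (p q) (p q'') → p q' = p q'')
    {r : ℕ} (hfin : ∀ y ∈ range α, (p '' (α ⁻¹' {y})).Finite)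
    (hr : ∀ y ∈ range α, (p '' (α ⁻¹' {y})).ncard = r) :
    ∀ q q' : N, α q = α q' → p q = p q' := by
  classical
  have : Nonempty Ξ := ⟨p (Classical.arbitrary N)⟩
  -- labels
  have hlab : ∀ y ∈ range α, ∃ b : Fin r → Ξ, Function.Injective b ∧ range b = p '' (α ⁻¹' {y}) := by
    intro y hy
    have hf := hfin y hy
    have hc : hf.toFinset.card = r := by
      rw [← Set.ncard_eq_toFinset_card _ hf]; exact hr y hy
    let e := Finset.equivFinOfCardEq hc
    refine ⟨fun i => (e.symm i : Ξ), fun i j hij => e.symm.injective (Subtype.ext hij), ?_⟩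
    ext s
    constructor
    · rintro ⟨i, rfl⟩
      exact hf.mem_toFinset.mp (e.symm i).2
    · intro hs
      exact ⟨e ⟨s, hf.mem_toFinset.mpr hs⟩, by simp⟩
  choose! b hbinj hbrange using hlab
  have hb_of : ∀ q : N, ∃ j, b (α q) j = p q := by
    intro q
    have : p q ∈ range (b (α q)) := by
      rw [hbrange (α q) ⟨q, rfl⟩]; exact ⟨q, rfl, rfl⟩
    exact this
  have hb_to : ∀ y ∈ range α, ∀ j, ∃ q, α q = y ∧ p q = b y j := by
    intro y hy j
    have : b y j ∈ p '' (α ⁻¹' {y}) := by rw [← hbrange y hy]; exact ⟨j, rfl⟩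
    obtain ⟨q, hq, hp⟩ := this
    exact ⟨q, hq, hp⟩
  -- radii
  have hδ : ∀ z ∈ range α, ∃ δ : ℝ, 0 < δ ∧
      (∀ y' ∈ range α, dist z y' < δ → ∀ q q' q'' : N, α q = z → α q' = y' → α q'' = y' →
        R z y' (p q) (p q') → R z y' (p q) (p q'') → p q' = p q'') ∧
      (∀ q' : N, dist z (α q') < δ → ∃ q, α q = z ∧ dist q q' < ε₀ / 2) := by
    intro z hz
    obtain ⟨δ₁, hδ₁, H1⟩ := h2 z hz
    obtain ⟨δ₂, hδ₂, H2⟩ := close_fibre hα isClosed_univ z (half_pos hε₀)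
    refine ⟨min δ₁ δ₂, lt_min hδ₁ hδ₂, fun y' hy' hd => H1 y' hy' (hd.trans_le (min_le_left _ _)),
      fun q' hd => ?_⟩
    obtain ⟨q, -, hq, hqq⟩ := H2 q' (mem_univ _) (hd.trans_le (min_le_right _ _))
    exact ⟨q, hq, hqq⟩
  choose! δ hδpos hδ1 hδ2 using hδ
  -- the permutation between labels
  have hperm : ∀ z ∈ range α, ∀ y ∈ range α, dist z y < δ z →
      ∃ σ : Equiv.Perm (Fin r), ∀ i j, R z y (b z i) (b y j) ↔ σ j = i := by
    intro z hz y hy hzy
    apply h11_perm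
    · intro j
      obtain ⟨q', hq', hpq'⟩ := hb_to y hy j
      obtain ⟨q, hq, hqq'⟩ := hδ2 z hz q' (by rw [hq']; exact hzy)
      obtain ⟨i, hi⟩ := hb_of q
      refine ⟨i, ?_⟩
      have := h1 q q' (by linarith)
      rw [hq, hq', hpq'] at this
      rw [hq] at hi
      rw [hi]
      exact this
    · intro i j j' hj hj'
      obtain ⟨q, hq, hpq⟩ := hb_to z hz i
      obtain ⟨q', hq', hpq'⟩ := hb_to y hy j
      obtain ⟨q'', hq'', hpq''⟩ := hb_to y hy j'
      have := hδ1 z hz y hy hzy q q' q'' hq hq' hq'' (by rw [hpq, hpq']; exact hj)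
        (by rw [hpq, hpq'']; exact hj')
      apply hbinj y hy
      rw [← hpq', ← hpq'', this]
  choose! c hc using hperm
  have hcq : ∀ z ∈ range α, ∀ y ∈ range α, dist z y < δ z → ∀ q q' : N, α q = z → α q' = y →
      dist q q' < ε₀ → ∀ i j, b z i = p q → b y j = p q' → c z y j = i := by
    intro z hz y hy hzy q q' hq hq' hd i j hi hj
    rw [← hc z hz y hy hzy, hi, hj]
    have := h1 q q' hd
    rwa [hq, hq'] at this
  -- composition law
  have hcomp : ∀ z ∈ range α, ∀ z' ∈ range α, ∀ y ∈ range α, dist z z' < δ z → dist z y < δ z →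
      dist z' y < δ z' → c z y = c z z' * c z' y := by
    intro z hz z' hz' y hy h3 h4 h5
    ext1 j
    obtain ⟨q, hq, hpq⟩ := hb_to y hy j
    obtain ⟨q', hq', hqq'⟩ := hδ2 z' hz' q (by rw [hq]; exact h5)
    obtain ⟨q'', hq'', hqq''⟩ := hδ2 z hz q' (by rw [hq']; exact h3)
    obtain ⟨i', hi'⟩ := hb_of q'
    obtain ⟨i, hi⟩ := hb_of q''
    rw [hq'] at hi'
    rw [hq''] at hi
    have e1 : c z' y j = i' := hcq z' hz' y hy h5 q' q hq' hq (by linarith) i' j hi' hpq.symm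
    have e2 : c z z' i' = i := hcq z hz z' hz' h3 q'' q' hq'' hq' (by linarith) i i' hi hi'
    have e3 : c z y j = i := hcq z hz y hy h4 q'' q hq'' hq
      (by linarith [dist_triangle q'' q' q]) i j hi hpq.symm
    rw [Equiv.Perm.mul_apply, e1, e2, e3]
  -- Lebesgue number
  have hKc : IsCompact (range α) := isCompact_range hα
  obtain ⟨lam, hlam, hleb⟩ := lebesgue_number_lemma_of_metric (s := range α)
    (c := fun z : range α => Metric.ball (z : Y) (δ z / 3)) hKc (fun _ => Metric.isOpen_ball)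
    (fun y hy => mem_iUnion.mpr ⟨⟨y, hy⟩, Metric.mem_ball_self (by have := hδpos y hy; positivity)⟩)
  have hleb' : ∀ x ∈ range α, ∃ z ∈ range α, ∀ y, dist x y < lam → dist z y < δ z / 3 := by
    intro x hx
    obtain ⟨⟨z, hz⟩, hzb⟩ := hleb x hx
    refine ⟨z, hz, fun y hy => ?_⟩
    have : y ∈ Metric.ball z (δ z / 3) := hzb (by rw [Metric.mem_ball, dist_comm]; exact hy)
    rwa [Metric.mem_ball, dist_comm] at this
  -- independence of the centre
  have hind : ∀ z ∈ range α, ∀ z' ∈ range α, ∀ y ∈ range α, ∀ y' ∈ range α,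
      dist z y < δ z / 3 → dist z y' < δ z / 3 → dist z' y < δ z' / 3 → dist z' y' < δ z' / 3 →
      (c z y)⁻¹ * c z y' = (c z' y)⁻¹ * c z' y' := by
    have key : ∀ z ∈ range α, ∀ z' ∈ range α, δ z' ≤ δ z → ∀ y ∈ range α, ∀ y' ∈ range α,
      dist z y < δ z / 3 → dist z y' < δ z / 3 → dist z' y < δ z' / 3 → dist z' y' < δ z' / 3 →
      (c z y)⁻¹ * c z y' = (c z' y)⁻¹ * c z' y' := by
      intro z hz z' hz' hle y hy y' hy' a1 a2 a3 a4
      have p1 := hδpos z hz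
      have p2 := hδpos z' hz'
      have hzz' : dist z z' < δ z := by
        have := dist_triangle z y z'
        rw [dist_comm y z'] at this
        linarith
      rw [hcomp z hz z' hz' y hy hzz' (by linarith) (by linarith),
        hcomp z hz z' hz' y' hy' hzz' (by linarith) (by linarith)]
      group
    intro z hz z' hz' y hy y' hy' a1 a2 a3 a4
    rcases le_total (δ z') (δ z) with h | h
    · exact key z hz z' hz' h y hy y' hy' a1 a2 a3 a4
    · exact (key z' hz' z hz h y hy y' hy' a3 a4 a1 a2).symm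
  let T : Y → Y → Equiv.Perm (Fin r) := fun y y' =>
    if h : ∃ z ∈ range α, dist z y < δ z / 3 ∧ dist z y' < δ z / 3 then
      (c h.choose y)⁻¹ * c h.choose y' else 1
  have hT : ∀ z ∈ range α, ∀ y ∈ range α, ∀ y' ∈ range α, dist z y < δ z / 3 →
      dist z y' < δ z / 3 → T y y' = (c z y)⁻¹ * c z y' := by
    intro z hz y hy y' hy' a1 a2
    have h : ∃ z ∈ range α, dist z y < δ z / 3 ∧ dist z y' < δ z / 3 := ⟨z, hz, a1, a2⟩
    have : T y y' = (c h.choose y)⁻¹ * c h.choose y' := dif_pos h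
    rw [this]
    exact hind _ h.choose_spec.1 z hz y hy y' hy' h.choose_spec.2.1 h.choose_spec.2.2 a1 a2
  have hcoc : Coc lam (range α) T := by
    intro x hx y hy w hw hxy hyw hxw
    obtain ⟨z, hz, hzb⟩ := hleb' x hx
    have b1 := hzb x (by rw [dist_self]; exact hlam)
    have b2 := hzb y hxy
    have b3 := hzb w hxw
    rw [hT z hz x hx y hy b1 b2, hT z hz y hy w hw b2 b3, hT z hz x hx w hw b1 b3]
    group
  obtain ⟨η, hη, h, hh⟩ := hSC (Equiv.Perm (Fin r)) lam hlam T hcoc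
  choose j hj using hb_of
  have hloc : LocC (univ : Set N) (fun q => h (α q) (j q)) := by
    obtain ⟨η', hη', hu⟩ := Metric.uniformContinuous_iff.mp
      (CompactSpace.uniformContinuous_of_continuous hα) (min η lam) (lt_min hη hlam)
    refine ⟨min η' (ε₀ / 2), lt_min hη' (half_pos hε₀), ?_⟩
    intro q _ q' _ hqq'
    have hd : dist (α q) (α q') < min η lam := hu (hqq'.trans_le (min_le_left _ _))
    have hq : α q ∈ range α := ⟨q, rfl⟩
    have hq' : α q' ∈ range α := ⟨q', rfl⟩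
    obtain ⟨z, hz, hzb⟩ := hleb' (α q) hq
    have b1 := hzb (α q) (by rw [dist_self]; exact hlam)
    have b2 := hzb (α q') (hd.trans_le (min_le_right _ _))
    have pz := hδpos z hz
    obtain ⟨q₀, hq₀, hqq₀⟩ := hδ2 z hz q (by linarith)
    have hd0 : dist q₀ q' < ε₀ := by
      have := dist_triangle q₀ q q'
      have := hqq'.trans_le (min_le_right η' (ε₀ / 2))
      linarith
    have hi : b z (j q₀) = p q₀ := by rw [← hj q₀, hq₀]
    have e1 : c z (α q) (j q) = j q₀ :=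
      hcq z hz (α q) hq (by linarith) q₀ q hq₀ rfl (by linarith) _ _ hi (hj q)
    have e2 : c z (α q') (j q') = j q₀ :=
      hcq z hz (α q') hq' (by linarith) q₀ q' hq₀ rfl hd0 _ _ hi (hj q')
    have e3 : T (α q) (α q') (j q') = j q := by
      rw [hT z hz _ hq _ hq' b1 b2, Equiv.Perm.mul_apply, e2, ← e1]
      exact Equiv.symm_apply_apply (c z (α q)) (j q)
    have e4 := hh (α q) hq (α q') hq' (hd.trans_le (min_le_left _ _))
    show h (α q) (j q) = h (α q') (j q')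
    rw [← e4, Equiv.Perm.mul_apply, e3]
  have hconst := hloc.const isPreconnected_univ
  intro q q' hqq'
  have e := hconst q (mem_univ _) q' (mem_univ _)
  have e' : h (α q) (j q) = h (α q') (j q') := e
  rw [← hqq'] at e'
  have e2 := (h (α q)).injective e'
  rw [← hj q, ← hj q', ← hqq', e2]

end RowH11

section RowH12

open Set Filter Topology

variable {X Y : Type*} [MetricSpace X] [CompactSpace X] [MetricSpace Y] [CompactSpace Y]
  {f : X → Y} {N : Type} [MetricSpace N] [CompactSpace N] {α : N → Y} {A : Set X}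
  {χ : X → N → Prop} {ε₀ : ℝ} [ConnectedSpace N]

/-- [H12] -/
theorem Core.indecomposable_false (h : Core f α A χ ε₀) (hf : Continuous f) (hc : Conf f)
    (hSC : SC (range α))
    (hW : ∀ N₁ : Set N, Ctm N₁ → ∀ L : Set Y, Ctm L → L ⊆ α '' N₁ →
      ∃ N' ⊆ N₁, Ctm N' ∧ α '' N' = L)
    (hWs : ∀ L : Set Y, Ctm L → L ⊆ range α → ∀ ε : ℝ, 0 < ε → ∃ δ : ℝ, 0 < δ ∧
      ∀ N₁ : Set N, Ctm N₁ → (∀ y ∈ range α, ∃ q ∈ N₁, dist y (α q) < δ) →
        ∃ D ⊆ N₁, Ctm D ∧ HNear ε (α '' D) L)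
    (hind : ∀ K₁ K₂ : Set Y, Ctm K₁ → Ctm K₂ → K₁ ∪ K₂ = range α → K₁ = range α ∨ K₂ = range α) :
    False := by
  obtain ⟨r, hr⟩ := h.parts_ncard hf hc hW hWs hind
  have hA : IsClosed A := by
    obtain ⟨x₀, hx₀, rfl⟩ := h.hA
    exact isClosed_cc hf (isCompact_range h.hα).isClosed x₀
  have hparts : ∀ y, (fibP f α A χ) '' (α ⁻¹' {y}) = parts f α A χ y := by
    intro y
    ext S
    constructor
    · rintro ⟨q, hq, rfl⟩
      exact ⟨q, hq, rfl⟩
    · rintro ⟨q, hq, rfl⟩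
      exact ⟨q, hq, rfl⟩
  have hmono := monodromy h.hα hSC (fibP f α A χ)
    (fun y y' S S' => ∀ x ∈ A, ∀ x' ∈ A, f x = y → f x' = y' → dist x x' < ε₀ →
      (x ∈ S ↔ x' ∈ S')) h.hε₀ ?_ ?_ (r := r)
    (fun y _ => by rw [hparts]; exact h.parts_finite y)
    (fun y hy => by rw [hparts]; exact hr y hy)
  · refine h.not_dep hf hc fun q q' hqq' x hx hfx => ?_
    have e := hmono q q' hqq'
    have e1 : x ∈ fibP f α A χ q ↔ χ x q := ⟨fun hh => hh.2.2, fun hh => ⟨hx, hfx, hh⟩⟩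
    have e2 : x ∈ fibP f α A χ q' ↔ χ x q' :=
      ⟨fun hh => hh.2.2, fun hh => ⟨hx, by rw [hfx, hqq'], hh⟩⟩
    rw [← e1, ← e2, e]
  · intro q q' hqq' x hx x' hx' hfx hfx' hxx'
    have e := h.close x hx x' hx' q q' hfx hfx' hxx' hqq'
    exact ⟨fun hh => ⟨hx', hfx', e.mp hh.2.2⟩, fun hh => ⟨hx, hfx, e.mpr hh.2.2⟩⟩
  · intro y _
    obtain ⟨δ, hδ, hδ'⟩ := close_fibre hf hA y h.hε₀
    refine ⟨δ, hδ, fun y' _ hyy' q q' q'' hq hq' hq'' h1 h2 => ?_⟩
    have key : ∀ p' p'' : N, α p' = y' → α p'' = y' →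
        (∀ x ∈ A, ∀ x' ∈ A, f x = y → f x' = y' → dist x x' < ε₀ →
          (x ∈ fibP f α A χ q ↔ x' ∈ fibP f α A χ p')) →
        (∀ x ∈ A, ∀ x' ∈ A, f x = y → f x' = y' → dist x x' < ε₀ →
          (x ∈ fibP f α A χ q ↔ x' ∈ fibP f α A χ p'')) →
        fibP f α A χ p' ⊆ fibP f α A χ p'' := by
      intro p' p'' hp' hp'' h1 h2 x' hx'
      have hfx' : f x' = y' := by rw [hx'.2.1, hp']
      obtain ⟨x, hx, hfx, hxx'⟩ := hδ' x' hx'.1 (by rw [hfx']; exact hyy')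
      exact (h2 x hx x' hx'.1 hfx hfx' hxx').mp ((h1 x hx x' hx'.1 hfx hfx' hxx').mpr hx')
    exact Subset.antisymm (key q' q'' hq' hq'' h1 h2) (key q'' q' hq'' hq' h2 h1)

end RowH12

section HFinal

variable {X Y : Type*} [MetricSpace X] [CompactSpace X] [MetricSpace Y] [CompactSpace Y]
  {f : X → Y} {N : Type} [MetricSpace N] [CompactSpace N] {α : N → Y} {A : Set X}
  {χ : X → N → Prop} {ε₀ : ℝ}

variable [ConnectedSpace N]

/-- [H13] -/
theorem Core.false (h : Core f α A χ ε₀) (hf : Continuous f) (hc : Conf f) (hWT : WTF Y)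
    (hHU : HU Y) (hSC : HSC Y) : False := by
  have hα := h.hα
  have hK : Ctm (range α) := by
    rw [← image_univ]
    exact ⟨(isCompact_univ.image hα).isClosed, isConnected_univ.image α hα.continuousOn⟩
  have hW : ∀ N₁ : Set N, Ctm N₁ → ∀ L : Set Y, Ctm L → L ⊆ α '' N₁ →
      ∃ N' ⊆ N₁, Ctm N' ∧ α '' N' = L := fun N₁ hN₁ L hL hLN =>
    classW hWT hHU hSC hα hN₁ hL hLN
  have hWs : ∀ L : Set Y, Ctm L → L ⊆ range α → ∀ ε : ℝ, 0 < ε → ∃ δ : ℝ, 0 < δ ∧
      ∀ N₁ : Set N, Ctm N₁ → (∀ y ∈ range α, ∃ q ∈ N₁, dist y (α q) < δ) →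
        ∃ D ⊆ N₁, Ctm D ∧ HNear ε (α '' D) L := by
    intro L hL hLK ε hε
    obtain ⟨δ, hδ, hh⟩ := wstar_sub hWT hHU hSC hα hK hL hLK hε
    exact ⟨δ, hδ, fun N₁ hN₁ hd => hh N₁ hN₁ (image_subset_range _ _) hd⟩
  by_cases hind : ∀ K₁ K₂ : Set Y, Ctm K₁ → Ctm K₂ → K₁ ∪ K₂ = range α →
      K₁ = range α ∨ K₂ = range α
  · exact h.indecomposable_false hf hc (hSC _ hK) hW hWs hind
  · push Not at hind
    obtain ⟨K₁, K₂, h1, h2, h3, h4, h5⟩ := hind
    refine h.decomposable_false hf hc hHU ?_ h1 h2 h3 h4 h5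
    intro L hL hLs
    obtain ⟨N', -, hN', hL'⟩ := hW univ ⟨isClosed_univ, isConnected_univ⟩ L hL
      (by rwa [image_univ])
    exact ⟨N', hN', hL'⟩


end HFinal

section IConn

variable {X Y : Type} [MetricSpace X] [CompactSpace X] [MetricSpace Y] [CompactSpace Y]
  {f : X → Y}

/-- [H14] fibre products are connected -/
theorem conn (hf : Continuous f) (hc : Conf f) (hs : Function.Surjective f) (hWT : WTF X)
    (hSC : HSC X) (N : Type) [MetricSpace N] [CompactSpace N] [ConnectedSpace N] (α : N → Y)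
    (hα : Continuous α) {x₀ : X} (hx₀ : f x₀ ∈ range α) :
    IsConnected {p : X × N | p.1 ∈ cc f (range α) x₀ ∧ f p.1 = α p.2} := by
  by_contra hn
  obtain ⟨N', _, _, _, α', A', χ', ε', hcore⟩ := exists_core hf hc hα hx₀ hn
  have hSCY := hsc_of_confluent hf hc hs hSC
  exact hcore.false hf hc (wtf_of_confluent hf hc hs hWT) (hu_of_hsc hSCY) hSCY


end IConn

end Pool.Agent.MP_a56558_gt
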