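import Pool.Agent.MP_a56558_gt.F.FH2

set_option autoImplicit false

namespace Pool.Agent.MP_a56558_gt

open Set Filter Topology

section RowI1

open Set Filter Topology

variable {X Y : Type} [MetricSpace X] [CompactSpace X] [MetricSpace Y] [CompactSpace Y]
  {f : X → Y}

/-- [I1] -/
theorem spanZero_of_conn (hf : Continuous f) (hc : Conf f) (hs : Function.Surjective f)
    (hX : SpanZero X)
    (hconn : ∀ (N : Type) [MetricSpace N] [CompactSpace N] [ConnectedSpace N] (α : N → Y),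
      Continuous α → ∀ x₀ : X, f x₀ ∈ range α →
      IsConnected {p : X × N | p.1 ∈ cc f (range α) x₀ ∧ f p.1 = α p.2}) : SpanZero Y := by
  intro Z hZc hZ hZeq
  obtain ⟨z₀, hz₀⟩ := hZ.nonempty
  obtain ⟨x₀, hx₀⟩ := hs z₀.1
  set K : Set Y := Prod.fst '' Z with hK
  have hKc : IsClosed K := (hZc.isCompact.image continuous_fst).isClosed
  have hKconn : IsConnected K := hZ.image _ continuous_fst.continuousOn
  have hKctm : Ctm K := ⟨hKc, hKconn⟩
  have hx₀K : f x₀ ∈ K := ⟨z₀, hz₀, hx₀.symm⟩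
  have hsurj : ∀ y ∈ K, ∃ x ∈ cc f K x₀, f x = y := fun y hy => hc.surj hKctm hx₀K hy
  -- first product
  have : CompactSpace Z := isCompact_iff_compactSpace.1 hZc.isCompact
  have : ConnectedSpace Z := isConnected_iff_connectedSpace.1 hZ
  set α₁ : Z → Y := fun z => z.1.1 with hα₁
  have hα₁c : Continuous α₁ := continuous_fst.comp continuous_subtype_val
  have hr1 : range α₁ = K := by
    ext y; constructor
    · rintro ⟨z, rfl⟩; exact ⟨z.1, z.2, rfl⟩
    · rintro ⟨z, hz, rfl⟩; exact ⟨⟨z, hz⟩, rfl⟩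
  have h1 := hconn Z α₁ hα₁c x₀ (by rw [hr1]; exact hx₀K)
  rw [hr1] at h1
  set Z₁ : Set (X × Z) := {p : X × Z | p.1 ∈ cc f K x₀ ∧ f p.1 = α₁ p.2} with hZ₁
  have hZ₁c : IsClosed Z₁ := by
    apply IsClosed.inter
    · exact (isClosed_cc hf hKc x₀).preimage continuous_fst
    · exact isClosed_eq (hf.comp continuous_fst) (hα₁c.comp continuous_snd)
  have : CompactSpace Z₁ := isCompact_iff_compactSpace.1 hZ₁c.isCompact
  have : ConnectedSpace Z₁ := isConnected_iff_connectedSpace.1 h1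
  set α₂ : Z₁ → Y := fun p => p.1.2.1.2 with hα₂
  have hα₂c : Continuous α₂ := by
    refine continuous_snd.comp ?_
    exact continuous_subtype_val.comp (continuous_snd.comp continuous_subtype_val)
  have hr2 : range α₂ = K := by
    ext y; constructor
    · rintro ⟨p, rfl⟩
      change p.1.2.1.2 ∈ K
      rw [hZeq]
      exact ⟨p.1.2.1, p.1.2.2, rfl⟩
    · intro hy
      rw [hZeq] at hy
      obtain ⟨z, hz, rfl⟩ := hy
      obtain ⟨x, hx, hxz⟩ := hsurj z.1 ⟨z, hz, rfl⟩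
      exact ⟨⟨(x, ⟨z, hz⟩), ⟨hx, hxz⟩⟩, rfl⟩
  have h2 := hconn Z₁ α₂ hα₂c x₀ (by rw [hr2]; exact hx₀K)
  rw [hr2] at h2
  set W₀ : Set (X × Z₁) := {p : X × Z₁ | p.1 ∈ cc f K x₀ ∧ f p.1 = α₂ p.2} with hW₀
  have hW₀c : IsClosed W₀ := by
    apply IsClosed.inter
    · exact (isClosed_cc hf hKc x₀).preimage continuous_fst
    · exact isClosed_eq (hf.comp continuous_fst) (hα₂c.comp continuous_snd)
  set φ : X × Z₁ → X × X := fun p => (p.1, p.2.1.1) with hφ
  have hφc : Continuous φ := by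
    refine continuous_fst.prodMk ?_
    exact continuous_fst.comp (continuous_subtype_val.comp continuous_snd)
  have hWclosed : IsClosed (φ '' W₀) := (hW₀c.isCompact.image hφc).isClosed
  have hWconn : IsConnected (φ '' W₀) := h2.image _ hφc.continuousOn
  have hfst : Prod.fst '' (φ '' W₀) = cc f K x₀ := by
    ext x'; constructor
    · rintro ⟨_, ⟨p, hp, rfl⟩, rfl⟩
      exact hp.1
    · intro hx'
      have hy : f x' ∈ K := cc_sub f K x₀ hx'
      rw [hZeq] at hy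
      obtain ⟨z, hz, hz2⟩ := hy
      obtain ⟨x, hx, hxz⟩ := hsurj z.1 ⟨z, hz, rfl⟩
      exact ⟨_, ⟨(x', ⟨(x, ⟨z, hz⟩), ⟨hx, hxz⟩⟩), ⟨hx', hz2.symm⟩, rfl⟩, rfl⟩
  have hsnd : Prod.snd '' (φ '' W₀) = cc f K x₀ := by
    ext x; constructor
    · rintro ⟨_, ⟨p, hp, rfl⟩, rfl⟩
      exact p.2.2.1
    · intro hx
      have hy : f x ∈ K := cc_sub f K x₀ hx
      obtain ⟨z, hz, hz1⟩ := hy
      have hz2 : z.2 ∈ K := by rw [hZeq]; exact ⟨z, hz, rfl⟩
      obtain ⟨x', hx', hxz'⟩ := hsurj z.2 hz2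
      exact ⟨_, ⟨(x', ⟨(x, ⟨z, hz⟩), ⟨hx, hz1.symm⟩⟩), ⟨hx', hxz'⟩, rfl⟩, rfl⟩
  obtain ⟨a, p, hp, hpa⟩ := hX _ hWclosed hWconn (hfst.trans hsnd.symm)
  have e1 : p.1 = a := congrArg Prod.fst hpa
  have e2 : p.2.1.1 = a := congrArg Prod.snd hpa
  refine ⟨f a, ?_⟩
  have h3 : f a = p.2.1.2.1.2 := by rw [← e1]; exact hp.2
  have h4 : f a = p.2.1.2.1.1 := by rw [← e2]; exact p.2.2.2
  have h5 : (f a, f a) = p.2.1.2.1 := Prod.ext h4 h3
  rw [h5]
  exact p.2.1.2.2

end RowI1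

section IFinal

variable {X Y : Type} [MetricSpace X] [CompactSpace X] [MetricSpace Y] [CompactSpace Y]
  {f : X → Y}

/-- [I2] main theorem -/
theorem spanZero_of_confluent (hf : Continuous f) (hs : Function.Surjective f) (hc : Conf f)
    (hX : SpanZero X) : SpanZero Y :=
  spanZero_of_conn hf hc hs hX fun N _ _ _ α hα x₀ hx₀ =>
    conn hf hc hs (wtf_of_spanZero hX) (hsc_of_spanZero hX) N α hα hx₀


end IFinal

end Pool.Agent.MP_a56558_gt
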